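import Pool.Agent.KS6_69.PL.Sound
import Pool.Agent.KS6_69.PL.Cert0
import Pool.Agent.KS6_69.PL.Cert1
import Pool.Agent.KS6_69.PL.Cert2
import Pool.Agent.KS6_69.PL.Cert3
import Pool.Agent.KS6_69.PL.Cert4

/-!
All certificate chunks put together.
-/

namespace Pool.Agent.KS6_69.PL

universe u

variable {V : Type u}

theorem un2000 (C : Ctx V) (hcl : ∀ q ∈ closedPats, UnP C q) :
    ∀ j, 2000 ≤ j → j < numPats → UnP C (db j) := by
  have hl : certs2000.length = 79 := by decide +kernel
  refine chkList_sound hcl certs2000 2000 ok2000 (fun j h1 h2 => ?_)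
  unfold numPats at h2
  omega

theorem un1900 (C : Ctx V) (hcl : ∀ q ∈ closedPats, UnP C q) :
    ∀ j, 1900 ≤ j → j < numPats → UnP C (db j) := by
  have hl : certs1900.length = 100 := by decide +kernel
  refine chkList_sound hcl certs1900 1900 ok1900 (fun j h1 h2 => ?_)
  exact un2000 C hcl j (by omega) h2

theorem un1800 (C : Ctx V) (hcl : ∀ q ∈ closedPats, UnP C q) :
    ∀ j, 1800 ≤ j → j < numPats → UnP C (db j) := by
  have hl : certs1800.length = 100 := by decide +kernel
  refine chkList_sound hcl certs1800 1800 ok1800 (fun j h1 h2 => ?_)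
  exact un1900 C hcl j (by omega) h2

theorem un1700 (C : Ctx V) (hcl : ∀ q ∈ closedPats, UnP C q) :
    ∀ j, 1700 ≤ j → j < numPats → UnP C (db j) := by
  have hl : certs1700.length = 100 := by decide +kernel
  refine chkList_sound hcl certs1700 1700 ok1700 (fun j h1 h2 => ?_)
  exact un1800 C hcl j (by omega) h2

theorem un1600 (C : Ctx V) (hcl : ∀ q ∈ closedPats, UnP C q) :
    ∀ j, 1600 ≤ j → j < numPats → UnP C (db j) := by
  have hl : certs1600.length = 100 := by decide +kernel
  refine chkList_sound hcl certs1600 1600 ok1600 (fun j h1 h2 => ?_)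
  exact un1700 C hcl j (by omega) h2

theorem un1500 (C : Ctx V) (hcl : ∀ q ∈ closedPats, UnP C q) :
    ∀ j, 1500 ≤ j → j < numPats → UnP C (db j) := by
  have hl : certs1500.length = 100 := by decide +kernel
  refine chkList_sound hcl certs1500 1500 ok1500 (fun j h1 h2 => ?_)
  exact un1600 C hcl j (by omega) h2

theorem un1400 (C : Ctx V) (hcl : ∀ q ∈ closedPats, UnP C q) :
    ∀ j, 1400 ≤ j → j < numPats → UnP C (db j) := by
  have hl : certs1400.length = 100 := by decide +kernel
  refine chkList_sound hcl certs1400 1400 ok1400 (fun j h1 h2 => ?_)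
  exact un1500 C hcl j (by omega) h2

theorem un1300 (C : Ctx V) (hcl : ∀ q ∈ closedPats, UnP C q) :
    ∀ j, 1300 ≤ j → j < numPats → UnP C (db j) := by
  have hl : certs1300.length = 100 := by decide +kernel
  refine chkList_sound hcl certs1300 1300 ok1300 (fun j h1 h2 => ?_)
  exact un1400 C hcl j (by omega) h2

theorem un1200 (C : Ctx V) (hcl : ∀ q ∈ closedPats, UnP C q) :
    ∀ j, 1200 ≤ j → j < numPats → UnP C (db j) := by
  have hl : certs1200.length = 100 := by decide +kernel
  refine chkList_sound hcl certs1200 1200 ok1200 (fun j h1 h2 => ?_)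
  exact un1300 C hcl j (by omega) h2

theorem un1100 (C : Ctx V) (hcl : ∀ q ∈ closedPats, UnP C q) :
    ∀ j, 1100 ≤ j → j < numPats → UnP C (db j) := by
  have hl : certs1100.length = 100 := by decide +kernel
  refine chkList_sound hcl certs1100 1100 ok1100 (fun j h1 h2 => ?_)
  exact un1200 C hcl j (by omega) h2

theorem un1000 (C : Ctx V) (hcl : ∀ q ∈ closedPats, UnP C q) :
    ∀ j, 1000 ≤ j → j < numPats → UnP C (db j) := by
  have hl : certs1000.length = 100 := by decide +kernel
  refine chkList_sound hcl certs1000 1000 ok1000 (fun j h1 h2 => ?_)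
  exact un1100 C hcl j (by omega) h2

theorem un900 (C : Ctx V) (hcl : ∀ q ∈ closedPats, UnP C q) :
    ∀ j, 900 ≤ j → j < numPats → UnP C (db j) := by
  have hl : certs900.length = 100 := by decide +kernel
  refine chkList_sound hcl certs900 900 ok900 (fun j h1 h2 => ?_)
  exact un1000 C hcl j (by omega) h2

theorem un800 (C : Ctx V) (hcl : ∀ q ∈ closedPats, UnP C q) :
    ∀ j, 800 ≤ j → j < numPats → UnP C (db j) := by
  have hl : certs800.length = 100 := by decide +kernel
  refine chkList_sound hcl certs800 800 ok800 (fun j h1 h2 => ?_)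
  exact un900 C hcl j (by omega) h2

theorem un700 (C : Ctx V) (hcl : ∀ q ∈ closedPats, UnP C q) :
    ∀ j, 700 ≤ j → j < numPats → UnP C (db j) := by
  have hl : certs700.length = 100 := by decide +kernel
  refine chkList_sound hcl certs700 700 ok700 (fun j h1 h2 => ?_)
  exact un800 C hcl j (by omega) h2

theorem un600 (C : Ctx V) (hcl : ∀ q ∈ closedPats, UnP C q) :
    ∀ j, 600 ≤ j → j < numPats → UnP C (db j) := by
  have hl : certs600.length = 100 := by decide +kernel
  refine chkList_sound hcl certs600 600 ok600 (fun j h1 h2 => ?_)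
  exact un700 C hcl j (by omega) h2

theorem un500 (C : Ctx V) (hcl : ∀ q ∈ closedPats, UnP C q) :
    ∀ j, 500 ≤ j → j < numPats → UnP C (db j) := by
  have hl : certs500.length = 100 := by decide +kernel
  refine chkList_sound hcl certs500 500 ok500 (fun j h1 h2 => ?_)
  exact un600 C hcl j (by omega) h2

theorem un400 (C : Ctx V) (hcl : ∀ q ∈ closedPats, UnP C q) :
    ∀ j, 400 ≤ j → j < numPats → UnP C (db j) := by
  have hl : certs400.length = 100 := by decide +kernel
  refine chkList_sound hcl certs400 400 ok400 (fun j h1 h2 => ?_)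
  exact un500 C hcl j (by omega) h2

theorem un300 (C : Ctx V) (hcl : ∀ q ∈ closedPats, UnP C q) :
    ∀ j, 300 ≤ j → j < numPats → UnP C (db j) := by
  have hl : certs300.length = 100 := by decide +kernel
  refine chkList_sound hcl certs300 300 ok300 (fun j h1 h2 => ?_)
  exact un400 C hcl j (by omega) h2

theorem un200 (C : Ctx V) (hcl : ∀ q ∈ closedPats, UnP C q) :
    ∀ j, 200 ≤ j → j < numPats → UnP C (db j) := by
  have hl : certs200.length = 100 := by decide +kernel
  refine chkList_sound hcl certs200 200 ok200 (fun j h1 h2 => ?_)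
  exact un300 C hcl j (by omega) h2

theorem un100 (C : Ctx V) (hcl : ∀ q ∈ closedPats, UnP C q) :
    ∀ j, 100 ≤ j → j < numPats → UnP C (db j) := by
  have hl : certs100.length = 100 := by decide +kernel
  refine chkList_sound hcl certs100 100 ok100 (fun j h1 h2 => ?_)
  exact un200 C hcl j (by omega) h2

theorem un0 (C : Ctx V) (hcl : ∀ q ∈ closedPats, UnP C q) :
    ∀ j, 0 ≤ j → j < numPats → UnP C (db j) := by
  have hl : certs0.length = 100 := by decide +kernel
  refine chkList_sound hcl certs0 0 ok0 (fun j h1 h2 => ?_)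
  exact un100 C hcl j (by omega) h2

end Pool.Agent.KS6_69.PL
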