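import Pool.Agent.KS6_69.PL.Merge

/-!
Incidence structures whose substructures of minimum degree three are cubic.
-/

namespace Pool.Agent.KS6_69.PL

open Finset

variable {P L : Type}

open Classical in
/-- Every point of `X` is on at least three lines of `Y`, and every line of `Y` contains at least
three points of `X`. -/
def MinDegreeThree (inc : P → L → Prop) (X : Finset P) (Y : Finset L) : Prop :=
  (∀ p ∈ X, 3 ≤ (Y.filter (fun l => inc p l)).card) ∧
    ∀ l ∈ Y, 3 ≤ (X.filter (fun p => inc p l)).card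

open Classical in
/-- Every point of `X` is on exactly three lines of `Y`, and every line of `Y` contains exactly
three points of `X`. -/
def Cubic (inc : P → L → Prop) (X : Finset P) (Y : Finset L) : Prop :=
  (∀ p ∈ X, (Y.filter (fun l => inc p l)).card = 3) ∧
    ∀ l ∈ Y, (X.filter (fun p => inc p l)).card = 3

theorem core_iff (inc : P → L → Prop) (X : Finset P) (Y : Finset L) :
    Core inc X Y ↔ MinDegreeThree inc X Y := by
  classical
  unfold Core MinDegreeThree
  refine and_congr (forall₂_congr fun p _ => ?_) (forall₂_congr fun x _ => ?_)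
  · rw [show (3 ≤ (Y.filter (fun l => inc p l)).card) ↔ (2 < (Y.filter (fun l => inc p l)).card)
      from Iff.rfl, Finset.two_lt_card]
    constructor
    · rintro ⟨i, hi, j, hj, k, hk, h1, h2, h3, h4, h5, h6⟩
      exact ⟨i, mem_filter.2 ⟨hi, h4⟩, j, mem_filter.2 ⟨hj, h5⟩, k, mem_filter.2 ⟨hk, h6⟩, h1, h2, h3⟩
    · rintro ⟨i, hi, j, hj, k, hk, h1, h2, h3⟩
      rw [mem_filter] at hi hj hk
      exact ⟨i, hi.1, j, hj.1, k, hk.1, h1, h2, h3, hi.2, hj.2, hk.2⟩
  · rw [show (3 ≤ (X.filter (fun p => inc p x)).card) ↔ (2 < (X.filter (fun p => inc p x)).card)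
      from Iff.rfl, Finset.two_lt_card]
    constructor
    · rintro ⟨i, hi, j, hj, k, hk, h1, h2, h3, h4, h5, h6⟩
      exact ⟨i, mem_filter.2 ⟨hi, h4⟩, j, mem_filter.2 ⟨hj, h5⟩, k, mem_filter.2 ⟨hk, h6⟩, h1, h2, h3⟩
    · rintro ⟨i, hi, j, hj, k, hk, h1, h2, h3⟩
      rw [mem_filter] at hi hj hk
      exact ⟨i, hi.1, j, hj.1, k, hk.1, h1, h2, h3, hi.2, hj.2, hk.2⟩

theorem Cubic.card_eq {inc : P → L → Prop} {X : Finset P} {Y : Finset L} (h : Cubic inc X Y) :
    X.card = Y.card := by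
  classical
  have h1 := Finset.sum_card_bipartiteAbove_eq_sum_card_bipartiteBelow (s := X) (t := Y) inc
  have h2 : ∑ a ∈ X, (Finset.bipartiteAbove inc Y a).card = ∑ a ∈ X, 3 :=
    Finset.sum_congr rfl fun a ha => by
      rw [← h.1 a ha]
      congr 1
  have h3 : ∑ b ∈ Y, (Finset.bipartiteBelow inc X b).card = ∑ b ∈ Y, 3 :=
    Finset.sum_congr rfl fun a ha => by
      rw [← h.2 a ha]
      congr 1
  rw [h2, h3] at h1
  simp only [sum_const, smul_eq_mul] at h1
  omega

theorem Cubic.seven_le {inc : P → L → Prop}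
    (lin : ∀ p q i j, p ≠ q → inc p i → inc q i → inc p j → inc q j → i = j) {X : Finset P}
    {Y : Finset L} (h : Cubic inc X Y) (hX : X.Nonempty) : 7 ≤ X.card := by
  classical
  obtain ⟨p, hp⟩ := hX
  obtain ⟨i, j, k, hij, hik, hjk, he⟩ := Finset.card_eq_three.1 (h.1 p hp)
  have hmem : ∀ x, (x = i ∨ x = j ∨ x = k) → x ∈ Y ∧ inc p x := by
    intro x hx
    have : x ∈ Y.filter (fun l => inc p l) := by
      rw [he]
      simpa using hx
    exact mem_filter.1 this
  obtain ⟨hi, hpi⟩ := hmem i (Or.inl rfl)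
  obtain ⟨hj, hpj⟩ := hmem j (Or.inr (Or.inl rfl))
  obtain ⟨hk, hpk⟩ := hmem k (Or.inr (Or.inr rfl))
  let A : L → Finset P := fun x => (X.filter (fun q => inc q x)).erase p
  have hA : ∀ x ∈ Y, inc p x → (A x).card = 2 := by
    intro x hx hpx
    have h1 : p ∈ X.filter (fun q => inc q x) := mem_filter.2 ⟨hp, hpx⟩
    change ((X.filter (fun q => inc q x)).erase p).card = 2
    rw [card_erase_of_mem h1, h.2 x hx]
  have hd : ∀ x y, x ≠ y → inc p x → inc p y → Disjoint (A x) (A y) := by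
    intro x y hxy hpx hpy
    rw [Finset.disjoint_left]
    intro q hq hq'
    simp only [A, mem_erase, mem_filter] at hq hq'
    exact hxy (lin p q x y (fun e => hq.1 e.symm) hpx hq.2.2 hpy hq'.2.2)
  have h1 : (A i ∪ A j ∪ A k).card = 6 := by
    rw [card_union_of_disjoint, card_union_of_disjoint (hd i j hij hpi hpj), hA i hi hpi,
      hA j hj hpj, hA k hk hpk]
    rw [Finset.disjoint_union_left]
    exact ⟨hd i k hik hpi hpk, hd j k hjk hpj hpk⟩
  have h2 : p ∉ A i ∪ A j ∪ A k := by simp [A]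
  have h3 : (insert p (A i ∪ A j ∪ A k)).card = 7 := by
    rw [card_insert_of_notMem h2, h1]
  rw [← h3]
  apply card_le_card
  intro q hq
  rw [mem_insert, mem_union, mem_union] at hq
  simp only [A, mem_erase, mem_filter] at hq
  rcases hq with rfl | ((hq | hq) | hq)
  · exact hp
  all_goals exact hq.2.1

/-- the subtypes of a cubic part form a configuration -/
theorem Cubic.isCfg {inc : P → L → Prop}
    (lin : ∀ p q i j, p ≠ q → inc p i → inc q i → inc p j → inc q j → i = j) {X : Finset P}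
    {Y : Finset L} (h : Cubic inc X Y) :
    IsCfg (fun (p : {p // p ∈ X}) (l : {l // l ∈ Y}) => inc p.1 l.1) := by
  classical
  refine ⟨?_, ?_, ?_⟩
  · rintro ⟨p, hp⟩
    obtain ⟨x, y, z, hxy, hxz, hyz, he⟩ := Finset.card_eq_three.1 (h.1 p hp)
    have mem : ∀ w, w ∈ Y ∧ inc p w ↔ w = x ∨ w = y ∨ w = z := by
      intro w
      rw [← Finset.mem_filter (s := Y) (p := fun l => inc p l), he]
      simp
    have hx := (mem x).2 (Or.inl rfl)
    have hy := (mem y).2 (Or.inr (Or.inl rfl))
    have hz := (mem z).2 (Or.inr (Or.inr rfl))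
    refine ⟨⟨x, hx.1⟩, ⟨y, hy.1⟩, ⟨z, hz.1⟩, fun e => hxy (congrArg Subtype.val e),
      fun e => hxz (congrArg Subtype.val e), fun e => hyz (congrArg Subtype.val e), ?_⟩
    rintro ⟨w, hw⟩
    simp only [Subtype.mk.injEq]
    rw [← mem w]
    exact ⟨fun h => ⟨hw, h⟩, fun h => h.2⟩
  · rintro ⟨w, hw⟩
    obtain ⟨x, y, z, hxy, hxz, hyz, he⟩ := Finset.card_eq_three.1 (h.2 w hw)
    have mem : ∀ t, t ∈ X ∧ inc t w ↔ t = x ∨ t = y ∨ t = z := by
      intro t
      rw [← Finset.mem_filter (s := X) (p := fun q => inc q w), he]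
      simp
    have hx := (mem x).2 (Or.inl rfl)
    have hy := (mem y).2 (Or.inr (Or.inl rfl))
    have hz := (mem z).2 (Or.inr (Or.inr rfl))
    refine ⟨⟨x, hx.1⟩, ⟨y, hy.1⟩, ⟨z, hz.1⟩, fun e => hxy (congrArg Subtype.val e),
      fun e => hxz (congrArg Subtype.val e), fun e => hyz (congrArg Subtype.val e), ?_⟩
    rintro ⟨t, ht⟩
    simp only [Subtype.mk.injEq]
    rw [← mem t]
    exact ⟨fun h => ⟨ht, h⟩, fun h => h.2⟩
  · rintro ⟨p, hp⟩ ⟨q, hq⟩ ⟨i, hi⟩ ⟨j, hj⟩ hpq h1 h2 h3 h4
    exact Subtype.ext (lin p q i j (fun e => hpq (Subtype.ext e)) h1 h2 h3 h4)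

/-- a part of a cubic structure closed under incidence is cubic -/
theorem Cubic.closed {inc : P → L → Prop} {X X' : Finset P} {Y Y' : Finset L}
    (h : Cubic inc X Y) (hX : X' ⊆ X) (hY : Y' ⊆ Y)
    (hc : ∀ p ∈ X, ∀ l ∈ Y, inc p l → (p ∈ X' ↔ l ∈ Y')) : Cubic inc X' Y' := by
  classical
  refine ⟨fun p hp => ?_, fun l hl => ?_⟩
  · rw [← h.1 p (hX hp)]
    congr 1
    ext l
    simp only [mem_filter]
    constructor
    · rintro ⟨h1, h2⟩
      exact ⟨hY h1, h2⟩
    · rintro ⟨h1, h2⟩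
      exact ⟨(hc p (hX hp) l h1 h2).1 hp, h2⟩
  · rw [← h.2 l (hY hl)]
    congr 1
    ext p
    simp only [mem_filter]
    constructor
    · rintro ⟨h1, h2⟩
      exact ⟨hX h1, h2⟩
    · rintro ⟨h1, h2⟩
      exact ⟨(hc p h1 l (hY hl) h2).2 hl, h2⟩

theorem Cubic.realOn {inc : P → L → Prop}
    (lin : ∀ p q i j, p ≠ q → inc p i → inc q i → inc p j → inc q j → i = j) :
    ∀ (n : ℕ) (X : Finset P) (Y : Finset L), X.card + Y.card ≤ n → Cubic inc X Y →
      (∀ X' ⊆ X, ∀ Y' ⊆ Y, Cubic inc X' Y' → X'.card ≠ 7 ∧ X'.card ≠ 8) → RealOn inc X Y := by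
  classical
  intro n
  induction n with
  | zero =>
    intro X Y hn _ _
    have h1 : X = ∅ := card_eq_zero.1 (by omega)
    have h2 : Y = ∅ := card_eq_zero.1 (by omega)
    subst h1
    subst h2
    exact realOn_empty inc
  | succ n ih =>
    intro X Y hn h h78
    by_cases hX : X.Nonempty
    swap
    · rw [not_nonempty_iff_eq_empty] at hX
      subst hX
      have h2 : Y = ∅ := card_eq_zero.1 (by rw [← h.card_eq, card_empty])
      subst h2
      exact realOn_empty inc
    by_cases hconn : Conn (fun (p : {p // p ∈ X}) (l : {l // l ∈ Y}) => inc p.1 l.1)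
    · apply realOn_of_realizable
      refine realizable_all (h.isCfg lin) hconn ?_
      rw [Fintype.card_sum, Fintype.card_coe, Fintype.card_coe, ← h.card_eq]
      have h1 := h.seven_le lin hX
      have h2 := h78 X Subset.rfl Y Subset.rfl h
      omega
    · unfold Conn at hconn
      push Not at hconn
      obtain ⟨X1, Y1, hcl, hne, hnu⟩ := hconn
      let X' : Finset P := X1.map (Function.Embedding.subtype _)
      let Y' : Finset L := Y1.map (Function.Embedding.subtype _)
      have hX' : X' ⊆ X := by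
        intro p hp
        obtain ⟨q, _, rfl⟩ := mem_map.1 hp
        exact q.2
      have hY' : Y' ⊆ Y := by
        intro p hp
        obtain ⟨q, _, rfl⟩ := mem_map.1 hp
        exact q.2
      have memX : ∀ p (hp : p ∈ X), p ∈ X' ↔ (⟨p, hp⟩ : {p // p ∈ X}) ∈ X1 := by
        intro p hp
        constructor
        · intro h1
          obtain ⟨q, hq, rfl⟩ := mem_map.1 h1
          exact hq
        · intro h1
          exact mem_map.2 ⟨⟨p, hp⟩, h1, rfl⟩
      have memY : ∀ p (hp : p ∈ Y), p ∈ Y' ↔ (⟨p, hp⟩ : {p // p ∈ Y}) ∈ Y1 := by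
        intro p hp
        constructor
        · intro h1
          obtain ⟨q, hq, rfl⟩ := mem_map.1 h1
          exact hq
        · intro h1
          exact mem_map.2 ⟨⟨p, hp⟩, h1, rfl⟩
      have hc : ∀ p ∈ X, ∀ l ∈ Y, inc p l → (p ∈ X' ↔ l ∈ Y') := by
        intro p hp l hl hpl
        rw [memX p hp, memY l hl]
        exact hcl ⟨p, hp⟩ ⟨l, hl⟩ hpl
      have hc' : ∀ p ∈ X, ∀ l ∈ Y, inc p l → (p ∈ X \ X' ↔ l ∈ Y \ Y') := by
        intro p hp l hl hpl
        rw [mem_sdiff, mem_sdiff, hc p hp l hl hpl]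
        simp [hp, hl]
      have C1 := h.closed hX' hY' hc
      have C2 := h.closed (sdiff_subset (s := X) (t := X')) (sdiff_subset (s := Y) (t := Y')) hc'
      -- both parts are nonempty
      have n1 : 0 < X'.card := by
        rw [Nat.pos_iff_ne_zero]
        intro h0
        have h1 : Y'.card = 0 := by rw [← C1.card_eq, h0]
        rw [card_map] at h0 h1
        exact (card_pos.2 (hne (card_eq_zero.1 h0))).ne' h1
      have n2 : 0 < (X \ X').card := by
        rw [Nat.pos_iff_ne_zero]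
        intro h0
        have h1 : (Y \ Y').card = 0 := by rw [← C2.card_eq, h0]
        have h2 : X ⊆ X' := sdiff_eq_empty_iff_subset.1 (card_eq_zero.1 h0)
        have h3 : Y ⊆ Y' := sdiff_eq_empty_iff_subset.1 (card_eq_zero.1 h1)
        refine hnu ?_ ?_
        · ext ⟨p, hp⟩
          simp only [mem_univ, iff_true]
          exact (memX p hp).1 (h2 hp)
        · ext ⟨p, hp⟩
          simp only [mem_univ, iff_true]
          exact (memY p hp).1 (h3 hp)
      have e1 : (X \ X').card + X'.card = X.card := card_sdiff_add_card_eq_card hX'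
      have e2 : (Y \ Y').card + Y'.card = Y.card := card_sdiff_add_card_eq_card hY'
      have R1 := ih X' Y' (by omega) C1 (fun A hA B hB => h78 A (hA.trans hX') B (hB.trans hY'))
      have R2 := ih (X \ X') (Y \ Y') (by omega) C2
        (fun A hA B hB => h78 A (hA.trans sdiff_subset) B (hB.trans sdiff_subset))
      have R := R1.union R2 disjoint_sdiff disjoint_sdiff ?_ ?_
      · rwa [union_sdiff_of_subset hX', union_sdiff_of_subset hY'] at R
      · intro p hp l hl hpl
        rw [mem_sdiff] at hl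
        exact hl.2 ((hc p (hX' hp) l hl.1 hpl).1 hp)
      · intro p hp l hl hpl
        rw [mem_sdiff] at hp
        exact hp.2 ((hc p hp.1 l (hY' hl) hpl).2 hl)

/-- **The combinatorial theorem.** A finite linear incidence structure all of whose substructures
of minimum degree three are cubic and have neither 7 nor 8 points has a discrete model. -/
theorem realizable_of_cubic [Fintype P] [Fintype L] {inc : P → L → Prop}
    (lin : ∀ p q i j, p ≠ q → inc p i → inc q i → inc p j → inc q j → i = j)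
    (h : ∀ X Y, MinDegreeThree inc X Y → Cubic inc X Y ∧ X.card ≠ 7 ∧ X.card ≠ 8) :
    Realizable inc := by
  classical
  let X₀ : Finset P := univ.filter (fun p => ∃ X Y, Core inc X Y ∧ p ∈ X)
  let Y₀ : Finset L := univ.filter (fun l => ∃ X Y, Core inc X Y ∧ l ∈ Y)
  have hmax : ∀ X Y, Core inc X Y → X ⊆ X₀ ∧ Y ⊆ Y₀ := by
    intro X Y hXY
    exact ⟨fun p hp => mem_filter.2 ⟨mem_univ _, X, Y, hXY, hp⟩,
      fun l hl => mem_filter.2 ⟨mem_univ _, X, Y, hXY, hl⟩⟩
  have hcore : Core inc X₀ Y₀ := by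
    refine ⟨fun p hp => ?_, fun l hl => ?_⟩
    · obtain ⟨-, X, Y, hXY, hp⟩ := mem_filter.1 hp
      obtain ⟨i, hi, j, hj, k, hk, h6⟩ := hXY.1 p hp
      have hs := (hmax X Y hXY).2
      exact ⟨i, hs hi, j, hs hj, k, hs hk, h6⟩
    · obtain ⟨-, X, Y, hXY, hp⟩ := mem_filter.1 hl
      obtain ⟨i, hi, j, hj, k, hk, h6⟩ := hXY.2 l hp
      have hs := (hmax X Y hXY).1
      exact ⟨i, hs hi, j, hs hj, k, hs hk, h6⟩
  have hcub : Cubic inc X₀ Y₀ := (h X₀ Y₀ ((core_iff inc X₀ Y₀).1 hcore)).1
  have hR : RealOn inc X₀ Y₀ := Cubic.realOn lin _ X₀ Y₀ le_rfl hcub (by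
    intro X' _ Y' _ hc
    refine (h X' Y' ⟨fun p hp => ?_, fun l hl => ?_⟩).2
    · rw [hc.1 p hp]
    · rw [hc.2 l hl])
  have h1 : X₀.card ≤ (univ : Finset P).card := card_le_card (subset_univ _)
  have h2 : Y₀.card ≤ (univ : Finset L).card := card_le_card (subset_univ _)
  obtain ⟨R⟩ := extend_core lin hcore hmax hR.pr
    (((univ : Finset P).card + (univ : Finset L).card) - (X₀.card + Y₀.card)) univ univ
    (subset_univ _) (subset_univ _) (by omega)
  exact R.realizable

end Pool.Agent.KS6_69.PL
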