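import Mathlib

/-! Definitions for the statement: the real projective plane, pseudolines, arrangements,
combinatorial `(n_3)` configurations and their topological realizations. -/

namespace Pool.Agent.KS6_69.PL

open scoped LinearAlgebra.Projectivization

/-- The real projective plane: nonzero vectors of `ℝ³` up to nonzero real multiples. -/
abbrev RP2 : Type := ℙ ℝ (Fin 3 → ℝ)

/-- The topology of the real projective plane: the quotient topology from the space of nonzero
vectors of `ℝ³`. -/
instance : TopologicalSpace RP2 :=
  inferInstanceAs (TopologicalSpace (Quotient (projectivizationSetoid ℝ (Fin 3 → ℝ))))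

/-- `A` is a simple closed curve: the image of the circle under an injective continuous map. -/
def IsSimpleClosedCurve (A : Set RP2) : Prop :=
  ∃ γ : Circle → RP2, Continuous γ ∧ Function.Injective γ ∧ Set.range γ = A

/-- `A` bounds a disc: it is the image of the boundary circle under an injective continuous map
from the closed unit disc of the plane. -/
def BoundsDisc (A : Set RP2) : Prop :=
  ∃ f : Metric.closedBall (0 : ℂ) 1 → RP2, Continuous f ∧ Function.Injective f ∧
    f '' {z | ‖(z : ℂ)‖ = 1} = A

/-- A pseudoline: a simple closed curve in the real projective plane that does not bound a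
disc. -/
def IsPseudoline (A : Set RP2) : Prop :=
  IsSimpleClosedCurve A ∧ ¬ BoundsDisc A

/-- `A` and `B` cross at `x`: some homeomorphism from an open neighbourhood of `x` onto an open
set of the plane `ℝ × ℝ` takes `x` to the origin, the part of `A` in the neighbourhood to the
part of one coordinate axis in the image, and the part of `B` to the part of the other axis. -/
def CrossAt (A B : Set RP2) (x : RP2) : Prop :=
  ∃ φ : OpenPartialHomeomorph RP2 (ℝ × ℝ), x ∈ φ.source ∧ φ x = (0, 0) ∧
    ∀ y ∈ φ.source, (y ∈ A ↔ (φ y).1 = 0) ∧ (y ∈ B ↔ (φ y).2 = 0)

/-- An arrangement of pseudolines: any two of them meet in exactly one point, where they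
cross. -/
def IsArrangement {ι : Type*} (ps : ι → Set RP2) : Prop :=
  (∀ i, IsPseudoline (ps i)) ∧
    ∀ i j, i ≠ j → ∃ x, ps i ∩ ps j = {x} ∧ CrossAt (ps i) (ps j) x

/-- A combinatorial `(n_3)` configuration on the point set `P`: `n` points, `n` lines, each line
a set of three points, every point on exactly three lines, two distinct points on at most one
common line. -/
structure Config (P : Type) [Fintype P] [DecidableEq P] (n : ℕ) where
  /-- the lines -/
  lines : Finset (Finset P)
  card_points : Fintype.card P = n
  card_lines : lines.card = n
  line_card : ∀ l ∈ lines, l.card = 3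
  point_deg : ∀ p : P, (lines.filter (fun l => p ∈ l)).card = 3
  linear : ∀ l ∈ lines, ∀ m ∈ lines, ∀ p q : P, p ≠ q → p ∈ l → q ∈ l → p ∈ m → q ∈ m → l = m

variable {P : Type} [Fintype P] [DecidableEq P] {n : ℕ}

/-- The Levi graph: the bipartite incidence graph on the points and the lines. -/
def Config.levi (C : Config P n) : SimpleGraph (P ⊕ {l // l ∈ C.lines}) :=
  SimpleGraph.fromRel (fun x y => ∃ (p : P) (l : {l // l ∈ C.lines}),
    x = Sum.inl p ∧ y = Sum.inr l ∧ p ∈ l.1)

/-- A realization as a topological configuration: distinct points of the real projective plane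
for the points, an arrangement of pseudolines for the lines, and a point lies on a pseudoline if
and only if the corresponding point and line are incident. -/
def Config.TopologicallyRealizable (C : Config P n) : Prop :=
  ∃ (pt : P → RP2) (ps : {l // l ∈ C.lines} → Set RP2), Function.Injective pt ∧
    IsArrangement ps ∧ ∀ p l, pt p ∈ ps l ↔ p ∈ l.1

end Pool.Agent.KS6_69.PL
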