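import Pool.Agent.KS6_69.PL.TopoCommon

/-! Crossings of the curves. -/

namespace Pool.Agent.KS6_69.PL

namespace TC

open scoped LinearAlgebra.Projectivization

/-- the affine chart -/
noncomputable def psi (p : ℝ × ℝ) : RP2 :=
  Projectivization.mk ℝ ![p.1, p.2, 1] (fun h => one_ne_zero (congrFun h 2))

theorem quot_psi : Topology.IsQuotientMap
    (fun v : {v : Fin 3 → ℝ // v ≠ 0} => (Projectivization.mk ℝ v.1 v.2 : RP2)) :=
  isQuotientMap_quotient_mk'

theorem psi_inj : Function.Injective psi := by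
  intro p q h
  unfold psi at h
  obtain ⟨c, hc⟩ := (Projectivization.mk_eq_mk_iff' ℝ _ _ _ _).mp h
  have h2 := congrFun hc 2
  have h0 := congrFun hc 0
  have h1 := congrFun hc 1
  simp at h0 h1 h2
  subst h2
  exact Prod.ext (by simpa using h0.symm) (by simpa using h1.symm)

theorem psi_cont : Continuous psi := by
  have h1 : Continuous (fun p : ℝ × ℝ =>
      (⟨![p.1, p.2, 1], fun h => one_ne_zero (congrFun h 2)⟩ : {v : Fin 3 → ℝ // v ≠ 0})) := by
    refine Continuous.subtype_mk ?_ _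
    refine continuous_pi fun i => ?_
    fin_cases i
    · exact continuous_fst
    · exact continuous_snd
    · exact continuous_const
  exact quot_psi.continuous.comp h1

theorem psi_open : IsOpenMap psi := by
  intro U hU
  rw [← quot_psi.isOpen_preimage]
  have e : (fun v : {v : Fin 3 → ℝ // v ≠ 0} => (Projectivization.mk ℝ v.1 v.2 : RP2)) ⁻¹'
      (psi '' U) = {v | v.1 2 ≠ 0 ∧ (v.1 0 / v.1 2, v.1 1 / v.1 2) ∈ U} := by
    ext v
    constructor
    · rintro ⟨p, hp, h⟩
      unfold psi at h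
      obtain ⟨c, hc⟩ := (Projectivization.mk_eq_mk_iff' ℝ _ _ _ _).mp h.symm
      have h2 : c * 1 = v.1 2 := congrFun hc 2
      have h0 : c * p.1 = v.1 0 := congrFun hc 0
      have h1 : c * p.2 = v.1 1 := congrFun hc 1
      have hc0 : c ≠ 0 := by
        rintro rfl
        exact v.2 (by rw [← hc, zero_smul])
      refine ⟨by rw [← h2, mul_one]; exact hc0, ?_⟩
      rw [← h0, ← h1, ← h2, mul_one, mul_div_cancel_left₀ _ hc0, mul_div_cancel_left₀ _ hc0]
      exact hp
    · rintro ⟨h2, hU'⟩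
      refine ⟨_, hU', ?_⟩
      unfold psi
      refine (Projectivization.mk_eq_mk_iff' ℝ _ _ _ _).mpr ⟨(v.1 2)⁻¹, ?_⟩
      funext i
      fin_cases i
      · show (v.1 2)⁻¹ * v.1 0 = v.1 0 / v.1 2
        rw [div_eq_inv_mul]
      · show (v.1 2)⁻¹ * v.1 1 = v.1 1 / v.1 2
        rw [div_eq_inv_mul]
      · show (v.1 2)⁻¹ * v.1 2 = 1
        exact inv_mul_cancel₀ h2
  rw [e]
  have c2 : Continuous (fun v : {v : Fin 3 → ℝ // v ≠ 0} => v.1 2) :=
    (continuous_apply 2).comp continuous_subtype_val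
  have c1 : Continuous (fun v : {v : Fin 3 → ℝ // v ≠ 0} => v.1 1) :=
    (continuous_apply 1).comp continuous_subtype_val
  have c0 : Continuous (fun v : {v : Fin 3 → ℝ // v ≠ 0} => v.1 0) :=
    (continuous_apply 0).comp continuous_subtype_val
  have hO : IsOpen {v : {v : Fin 3 → ℝ // v ≠ 0} | v.1 2 ≠ 0} := isOpen_ne_fun c2 continuous_const
  have hC : ContinuousOn (fun v : {v : Fin 3 → ℝ // v ≠ 0} =>
      (v.1 0 / v.1 2, v.1 1 / v.1 2)) {v | v.1 2 ≠ 0} :=
    (c0.continuousOn.div c2.continuousOn fun v hv => hv).prodMk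
      (c1.continuousOn.div c2.continuousOn fun v hv => hv)
  exact hC.isOpen_inter_preimage hO hU

theorem psi_emb : Topology.IsOpenEmbedding psi :=
  Topology.IsOpenEmbedding.of_continuous_injective_isOpenMap psi_cont psi_inj psi_open

theorem mem_curve_psi (κ : ℝ) (w : ℝ → ℝ) (p : ℝ × ℝ) :
    psi p ∈ curve κ w ↔ p.2 = κ * p.1 + w p.1 := by
  unfold psi
  rw [mk_mem_curve]
  show p.2 = hom κ w p.1 1 ↔ _
  unfold hom
  rw [one_mul, div_one]

/-- the clamped function, extended with slope one -/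
noncomputable def ext (D : ℝ → ℝ) (a b : ℝ) (x : ℝ) : ℝ :=
  D (max a (min b x)) + (x - max a (min b x))

theorem ext_mem (D : ℝ → ℝ) (a b x : ℝ) (h1 : a ≤ x) (h2 : x ≤ b) : ext D a b x = D x := by
  unfold ext
  rw [min_eq_right h2, max_eq_right h1, sub_self, add_zero]

theorem ext_cont (D : ℝ → ℝ) (a b : ℝ) (hab : a ≤ b) (hD : ContinuousOn D (Set.Icc a b)) :
    Continuous (ext D a b) := by
  have h1 : Continuous (fun x : ℝ => max a (min b x)) :=
    continuous_const.max (continuous_const.min continuous_id)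
  have h2 : ∀ x : ℝ, max a (min b x) ∈ Set.Icc a b := fun x =>
    ⟨le_max_left _ _, max_le hab (min_le_left _ _)⟩
  exact (hD.comp_continuous h1 h2).add (continuous_id.sub h1)

theorem ext_mono (D : ℝ → ℝ) (a b : ℝ) (hab : a ≤ b) (hD : StrictMonoOn D (Set.Icc a b)) :
    StrictMono (ext D a b) := by
  intro x y hxy
  have h2 : ∀ x : ℝ, max a (min b x) ∈ Set.Icc a b := fun x =>
    ⟨le_max_left _ _, max_le hab (min_le_left _ _)⟩
  have hle : max a (min b x) ≤ max a (min b y) := max_le_max le_rfl (min_le_min le_rfl hxy.le)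
  unfold ext
  rcases hle.eq_or_lt with he | hlt
  · rw [he]
    linarith
  · have h3 := hD (h2 x) (h2 y) hlt
    have h4 : x - max a (min b x) ≤ y - max a (min b y) := by
      rcases le_total x b with hxb | hxb
      · rcases le_total y b with hyb | hyb
        · rw [min_eq_right hxb, min_eq_right hyb]
          rcases le_total a x with hax | hax
          · rw [max_eq_right hax, max_eq_right (hax.trans hxy.le)]
            simp
          · rw [max_eq_left hax]
            rcases le_total a y with hay | hay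
            · rw [max_eq_right hay]
              linarith
            · rw [max_eq_left hay]
              linarith
        · rw [min_eq_right hxb, min_eq_left hyb, max_eq_right hab]
          have : x ≤ max a x := le_max_right _ _
          linarith
      · rw [min_eq_left hxb, min_eq_left (hxb.trans hxy.le)]
        linarith
    linarith

theorem ext_surj (D : ℝ → ℝ) (a b : ℝ) (hab : a ≤ b) (hD : ContinuousOn D (Set.Icc a b)) :
    Function.Surjective (ext D a b) := by
  refine (ext_cont D a b hab hD).surjective ?_ ?_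
  · have h : Filter.Tendsto (fun x : ℝ => D b + (x - b)) Filter.atTop Filter.atTop :=
      Filter.tendsto_atTop_add_const_left _ _ (Filter.tendsto_atTop_add_const_right _ _
        Filter.tendsto_id)
    refine h.congr' ?_
    filter_upwards [Filter.eventually_ge_atTop b] with x hx
    unfold ext
    rw [min_eq_left hx, max_eq_right hab]
  · have h : Filter.Tendsto (fun x : ℝ => D a + (x - a)) Filter.atBot Filter.atBot :=
      Filter.tendsto_atBot_add_const_left _ _ (Filter.tendsto_atBot_add_const_right _ _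
        Filter.tendsto_id)
    refine h.congr' ?_
    filter_upwards [Filter.eventually_le_atBot a] with x hx
    unfold ext
    rw [min_eq_right (hx.trans hab), max_eq_left hx]

/-- the extension as a homeomorphism -/
theorem exists_homeo (D : ℝ → ℝ) (a b : ℝ) (hab : a ≤ b) (hD : ContinuousOn D (Set.Icc a b))
    (hm : StrictMonoOn D (Set.Icc a b)) :
    ∃ h : ℝ ≃ₜ ℝ, ∀ x, a ≤ x → x ≤ b → h x = D x :=
  ⟨(StrictMono.orderIsoOfSurjective (ext D a b) (ext_mono D a b hab hm)
    (ext_surj D a b hab hD)).toHomeomorph, fun x h1 h2 => ext_mem D a b x h1 h2⟩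

/-- shear -/
def shear (f : ℝ → ℝ) (hf : Continuous f) : ℝ × ℝ ≃ₜ ℝ × ℝ where
  toFun p := (p.1, p.2 - f p.1)
  invFun p := (p.1, p.2 + f p.1)
  left_inv p := by simp
  right_inv p := by simp
  continuous_toFun := continuous_fst.prodMk (continuous_snd.sub (hf.comp continuous_fst))
  continuous_invFun := continuous_fst.prodMk (continuous_snd.add (hf.comp continuous_fst))

/-- `(t, u) ↦ (u, u + t)` -/
def swp : ℝ × ℝ ≃ₜ ℝ × ℝ where
  toFun p := (p.2, p.2 + p.1)
  invFun p := (p.2 - p.1, p.1)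
  left_inv p := by simp
  right_inv p := by simp
  continuous_toFun := continuous_snd.prodMk (continuous_snd.add continuous_fst)
  continuous_invFun := (continuous_snd.sub continuous_fst).prodMk continuous_fst

/-! TARGET. Proof sketch. The affine chart `ψ : ℝ × ℝ → RP2`, `ψ (x, y) = mk ![x, y, 1]` is an open
embedding (continuous, injective; open: the preimage of `ψ '' U` in the nonzero vectors is
`{v | v 2 ≠ 0 ∧ (v 0 / v 2, v 1 / v 2) ∈ U}`, which is open). On `(x0 - δ, x0 + δ) × ℝ` the map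
`e (x, y) = (y - κ₁ x - w₁ x, y - κ₂ x - w₂ x)` is an open embedding: the difference of its
coordinates is `D x = (κ₁ - κ₂) x + w₁ x - w₂ x` up to sign, which is strictly monotone and continuous
there, so `x`, and then `y`, depend continuously on the image (`StrictMonoOn`, an open interval is
mapped homeomorphically onto an open interval). Take `φ = ψ⁻¹` followed by `e`, restricted to
`ψ '' ((x0 - δ, x0 + δ) × ℝ)`. By `mk_mem_curve`, `mk ![x, y, 1] ∈ curve κ w ↔ y = κ x + w x`. -/
theorem curve_cross (κ₁ κ₂ : ℝ) (w₁ w₂ : ℝ → ℝ) (hw₁ : Continuous w₁) (hw₂ : Continuous w₂)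
    (x0 δ : ℝ) (hδ : 0 < δ) (h0 : κ₁ * x0 + w₁ x0 = κ₂ * x0 + w₂ x0)
    (hmono : StrictMonoOn (fun x => (κ₁ * x + w₁ x) - (κ₂ * x + w₂ x)) (Set.Ioo (x0 - δ) (x0 + δ)))
    (hv : (![x0, κ₁ * x0 + w₁ x0, 1] : Fin 3 → ℝ) ≠ 0) :
    CrossAt (curve κ₁ w₁) (curve κ₂ w₂) (Projectivization.mk ℝ ![x0, κ₁ * x0 + w₁ x0, 1] hv) := by
  set D : ℝ → ℝ := fun x => (κ₁ * x + w₁ x) - (κ₂ * x + w₂ x) with hD
  have hDc : Continuous D := ((continuous_const.mul continuous_id).add hw₁).sub
    ((continuous_const.mul continuous_id).add hw₂)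
  have hsub : Set.Icc (x0 - δ / 2) (x0 + δ / 2) ⊆ Set.Ioo (x0 - δ) (x0 + δ) := by
    intro x hx
    exact ⟨by linarith [hx.1], by linarith [hx.2]⟩
  obtain ⟨h, hh⟩ := exists_homeo D (x0 - δ / 2) (x0 + δ / 2) (by linarith) hDc.continuousOn
    (hmono.mono hsub)
  have hf : Continuous (fun x : ℝ => κ₁ * x + w₁ x) := (continuous_const.mul continuous_id).add hw₁
  set H : ℝ × ℝ ≃ₜ ℝ × ℝ := ((shear (fun x => κ₁ * x + w₁ x) hf).trans
    (h.prodCongr (Homeomorph.refl ℝ))).trans swp with hH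
  have hHval : ∀ p : ℝ × ℝ, x0 - δ / 2 ≤ p.1 → p.1 ≤ x0 + δ / 2 →
      H p = (p.2 - (κ₁ * p.1 + w₁ p.1), p.2 - (κ₂ * p.1 + w₂ p.1)) := by
    intro p h1 h2
    have e : H p = (p.2 - (κ₁ * p.1 + w₁ p.1), p.2 - (κ₁ * p.1 + w₁ p.1) + h p.1) := rfl
    rw [e, hh p.1 h1 h2]
    refine Prod.ext rfl ?_
    simp only [hD]
    ring
  set Ψ : OpenPartialHomeomorph (ℝ × ℝ) RP2 := psi_emb.toOpenPartialHomeomorph psi with hΨ
  set U : Set RP2 := psi '' (Set.Ioo (x0 - δ / 2) (x0 + δ / 2) ×ˢ Set.univ) with hU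
  have hUo : IsOpen U := psi_open _ (isOpen_Ioo.prod isOpen_univ)
  set φ : OpenPartialHomeomorph RP2 (ℝ × ℝ) :=
    (Ψ.symm.trans H.toOpenPartialHomeomorph).restrOpen U hUo with hφ
  have hval : ∀ p : ℝ × ℝ, φ (psi p) = H p := by
    intro p
    have e1 : Ψ.symm (psi p) = p := Ψ.left_inv (Set.mem_univ _)
    show H (Ψ.symm (psi p)) = H p
    rw [e1]
  have hsrc : ∀ y, y ∈ φ.source → ∃ p : ℝ × ℝ, x0 - δ / 2 ≤ p.1 ∧ p.1 ≤ x0 + δ / 2 ∧ y = psi p := by
    intro y hy
    have hy2 : y ∈ U := hy.2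
    obtain ⟨p, hp, rfl⟩ := hy2
    exact ⟨p, hp.1.1.le, hp.1.2.le, rfl⟩
  have hsrc2 : ∀ p : ℝ × ℝ, x0 - δ / 2 < p.1 → p.1 < x0 + δ / 2 → psi p ∈ φ.source := by
    intro p h1 h2
    refine ⟨?_, ⟨p, ⟨⟨h1, h2⟩, Set.mem_univ _⟩, rfl⟩⟩
    refine ⟨?_, Set.mem_univ _⟩
    exact Ψ.map_source (Set.mem_univ p)
  have hpt : Projectivization.mk ℝ ![x0, κ₁ * x0 + w₁ x0, 1] hv = psi (x0, κ₁ * x0 + w₁ x0) := rfl
  rw [hpt]
  refine ⟨φ, hsrc2 _ (by simp; linarith) (by simp; linarith), ?_, ?_⟩
  · rw [hval, hHval _ (by simp; linarith) (by simp; linarith)]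
    refine Prod.ext ?_ ?_
    · show κ₁ * x0 + w₁ x0 - (κ₁ * x0 + w₁ x0) = 0
      ring
    · show κ₁ * x0 + w₁ x0 - (κ₂ * x0 + w₂ x0) = 0
      linarith
  · intro y hy
    obtain ⟨p, h1, h2, rfl⟩ := hsrc y hy
    rw [hval, hHval p h1 h2, mem_curve_psi, mem_curve_psi]
    constructor
    · constructor
      · intro h3
        show p.2 - (κ₁ * p.1 + w₁ p.1) = 0
        linarith
      · intro h3
        have h4 : p.2 - (κ₁ * p.1 + w₁ p.1) = 0 := h3
        linarith
    · constructor
      · intro h3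
        show p.2 - (κ₂ * p.1 + w₂ p.1) = 0
        linarith
      · intro h3
        have h4 : p.2 - (κ₂ * p.1 + w₂ p.1) = 0 := h3
        linarith

end TC

end Pool.Agent.KS6_69.PL
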