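import Pool.Agent.KS6_69.PL.TopoCommon

/-! The curves do not bound discs. -/

namespace Pool.Agent.KS6_69.PL

namespace TD

open scoped LinearAlgebra.Projectivization

/-- the sphere for the maximum norm -/
abbrev SS : Type := Metric.sphere (0 : Fin 3 → ℝ) 1

theorem SS.ne (s : SS) : (s : Fin 3 → ℝ) ≠ 0 := by
  intro h
  have h1 : ‖(s : Fin 3 → ℝ)‖ = 1 := mem_sphere_zero_iff_norm.1 s.2
  rw [h, norm_zero] at h1
  exact zero_ne_one h1

theorem SS.norm (s : SS) : ‖(s : Fin 3 → ℝ)‖ = 1 := mem_sphere_zero_iff_norm.1 s.2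

/-- the projection -/
noncomputable def pr (s : SS) : RP2 := Projectivization.mk ℝ (s : Fin 3 → ℝ) s.ne

/-- the sign changes -/
instance : MulAction ℤˣ SS where
  smul u s := ⟨((u : ℤ) : ℝ) • (s : Fin 3 → ℝ), by
    rw [mem_sphere_zero_iff_norm, norm_smul, s.norm, mul_one]
    rcases Int.units_eq_one_or u with rfl | rfl <;> simp⟩
  one_smul s := by
    apply Subtype.ext
    change (((1 : ℤˣ) : ℤ) : ℝ) • (s : Fin 3 → ℝ) = s
    simp
  mul_smul u v s := by
    apply Subtype.ext
    change ((((u * v : ℤˣ)) : ℤ) : ℝ) • (s : Fin 3 → ℝ) = ((u : ℤ) : ℝ) • ((v : ℤ) : ℝ) • (s : Fin 3 → ℝ)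
    rw [smul_smul]
    push_cast
    rfl

theorem coe_smul_SS (u : ℤˣ) (s : SS) : ((u • s : SS) : Fin 3 → ℝ) = ((u : ℤ) : ℝ) • (s : Fin 3 → ℝ) :=
  rfl

/-- the projection from the nonzero vectors -/
noncomputable def pz (v : {v : Fin 3 → ℝ // v ≠ 0}) : RP2 := Projectivization.mk ℝ v.1 v.2

theorem quot_pz : Topology.IsQuotientMap pz := isQuotientMap_quot_mk

theorem cont_pr : Continuous pr := by
  have h1 : Continuous fun s : SS => (⟨(s : Fin 3 → ℝ), s.ne⟩ : {v : Fin 3 → ℝ // v ≠ 0}) :=
    Continuous.subtype_mk (continuous_subtype_val : Continuous fun s : SS => s.1) _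
  exact quot_pz.continuous.comp h1

/-- the normalization -/
noncomputable def nrm (v : {v : Fin 3 → ℝ // v ≠ 0}) : SS :=
  ⟨(‖v.1‖⁻¹ : ℝ) • v.1, by
    rw [mem_sphere_zero_iff_norm, norm_smul, norm_inv, norm_norm,
      inv_mul_cancel₀ (norm_ne_zero_iff.2 v.2)]⟩

theorem cont_nrm : Continuous nrm := by
  refine Continuous.subtype_mk ?_ _
  refine Continuous.smul (M := ℝ) (X := Fin 3 → ℝ) ?_ continuous_subtype_val
  exact (continuous_norm.comp (continuous_subtype_val :
    Continuous fun v : {v : Fin 3 → ℝ // v ≠ 0} => v.1)).inv₀ fun v => norm_ne_zero_iff.2 v.2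

theorem pr_nrm (v : {v : Fin 3 → ℝ // v ≠ 0}) : pr (nrm v) = pz v := by
  unfold pr pz nrm
  rw [Projectivization.mk_eq_mk_iff']
  exact ⟨‖v.1‖⁻¹, rfl⟩

theorem pr_eq_iff (s s' : SS) : pr s = pr s' ↔ s ∈ MulAction.orbit ℤˣ s' := by
  unfold pr
  rw [Projectivization.mk_eq_mk_iff', MulAction.mem_orbit_iff]
  constructor
  · rintro ⟨a, ha⟩
    have h1 : |a| = 1 := by
      have h2 := congrArg norm ha
      rwa [norm_smul, s.norm, s'.norm, mul_one, Real.norm_eq_abs] at h2
    rcases (abs_eq zero_le_one).1 h1 with rfl | rfl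
    · exact ⟨1, Subtype.ext (by rw [coe_smul_SS, ← ha]; simp)⟩
    · exact ⟨-1, Subtype.ext (by rw [coe_smul_SS, ← ha]; simp)⟩
  · rintro ⟨u, hu⟩
    exact ⟨((u : ℤ) : ℝ), by rw [← coe_smul_SS, hu]⟩

theorem cov_pr : IsQuotientCoveringMap pr ℤˣ where
  toIsQuotientMap := by
    refine Topology.IsQuotientMap.of_comp cont_nrm cont_pr ?_
    have h1 : pr ∘ nrm = pz := funext pr_nrm
    rw [h1]
    exact quot_pz
  continuous_const_smul u := by
    refine Continuous.subtype_mk ?_ _
    have h1 : Continuous fun s : SS => ((u : ℤ) : ℝ) • (s : Fin 3 → ℝ) :=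
      (continuous_const (y := ((u : ℤ) : ℝ))).smul continuous_subtype_val
    exact h1
  apply_eq_iff_mem_orbit {s s'} := pr_eq_iff s s'
  disjoint e := by
    refine ⟨Metric.ball e 1, Metric.ball_mem_nhds e one_pos, fun g hg => ?_⟩
    rcases Int.units_eq_one_or g with rfl | rfl
    · rfl
    · exfalso
      obtain ⟨x, ⟨s, hs, rfl⟩, hx⟩ := hg
      rw [Metric.mem_ball, Subtype.dist_eq, dist_eq_norm] at hs hx
      beta_reduce at hx
      rw [coe_smul_SS] at hx
      have h1 : (2 : ℝ) • (e : Fin 3 → ℝ) = -((s : Fin 3 → ℝ) - e) -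
          ((((-1 : ℤˣ) : ℤ) : ℝ) • (s : Fin 3 → ℝ) - e) := by
        simp only [Units.val_neg, Units.val_one, Int.cast_neg, Int.cast_one]
        module
      have h2 := congrArg norm h1
      rw [norm_smul, e.norm] at h2
      have h3 := norm_sub_le (-((s : Fin 3 → ℝ) - e))
        ((((-1 : ℤˣ) : ℤ) : ℝ) • (s : Fin 3 → ℝ) - e)
      rw [← h2, norm_neg] at h3
      norm_num at h3 hx
      linarith

/-- the curve on the sphere -/
def TT (κ : ℝ) (w : ℝ → ℝ) : Set SS := {s | (s : Fin 3 → ℝ) 1 = hom κ w ((s : Fin 3 → ℝ) 0) ((s : Fin 3 → ℝ) 2)}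

theorem cont_hom (κ : ℝ) (w : ℝ → ℝ) (hw : Continuous w) (M : ℝ) (hM : ∀ x, |w x| ≤ M) :
    Continuous fun θ : ℝ => hom κ w (Real.cos θ) (Real.sin θ) := by
  unfold hom
  refine (continuous_const.mul Real.continuous_cos).add ?_
  rw [continuous_iff_continuousAt]
  intro θ
  by_cases h : Real.sin θ = 0
  · unfold ContinuousAt
    beta_reduce
    rw [h, zero_mul]
    have h1 : Filter.Tendsto (fun x => M * |Real.sin x|) (nhds θ) (nhds 0) := by
      have h2 : Continuous fun x => M * |Real.sin x| := continuous_const.mul Real.continuous_sin.abs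
      have h3 := h2.tendsto θ
      rwa [h, abs_zero, mul_zero] at h3
    refine squeeze_zero_norm (fun x => ?_) h1
    rw [Real.norm_eq_abs, abs_mul, mul_comm]
    exact mul_le_mul_of_nonneg_right (hM _) (abs_nonneg _)
  · refine Real.continuous_sin.continuousAt.mul ?_
    exact ContinuousAt.comp (f := fun x => Real.cos x / Real.sin x) hw.continuousAt
      (Real.continuous_cos.continuousAt.div Real.continuous_sin.continuousAt h)

/-- the parametrization -/
noncomputable def par (κ : ℝ) (w : ℝ → ℝ) (θ : ℝ) : {v : Fin 3 → ℝ // v ≠ 0} :=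
  ⟨![Real.cos θ, hom κ w (Real.cos θ) (Real.sin θ), Real.sin θ], by
    intro h
    have h1 := congrFun h 0
    have h2 := congrFun h 2
    change Real.cos θ = 0 at h1
    change Real.sin θ = 0 at h2
    have h3 := Real.sin_sq_add_cos_sq θ
    rw [h1, h2] at h3
    norm_num at h3⟩

theorem TT_conn (κ : ℝ) (w : ℝ → ℝ) (hw : Continuous w) (M : ℝ) (hM : ∀ x, |w x| ≤ M) :
    IsPreconnected (TT κ w) := by
  have hc : Continuous fun θ => nrm (par κ w θ) := by
    refine cont_nrm.comp (Continuous.subtype_mk ?_ _)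
    refine continuous_pi fun i => ?_
    fin_cases i
    · exact Real.continuous_cos
    · exact cont_hom κ w hw M hM
    · exact Real.continuous_sin
  have h1 : TT κ w = Set.range fun θ => nrm (par κ w θ) := by
    ext s
    constructor
    · intro hs
      set x := (s : Fin 3 → ℝ) 0 with hx
      set y := (s : Fin 3 → ℝ) 2 with hy
      have hs' : (s : Fin 3 → ℝ) 1 = hom κ w x y := hs
      let z : ℂ := ⟨x, y⟩
      have hz : z ≠ 0 := by
        intro h
        have hx0 : x = 0 := congrArg Complex.re h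
        have hy0 : y = 0 := congrArg Complex.im h
        apply s.ne
        funext i
        fin_cases i
        · exact hx0
        · change (s : Fin 3 → ℝ) 1 = 0
          rw [hs', hx0, hy0]
          unfold hom
          ring
        · exact hy0
      have hr : 0 < ‖z‖ := norm_pos_iff.2 hz
      have hxc : x = ‖z‖ * Real.cos (Complex.arg z) := by
        rw [Complex.norm_mul_cos_arg]
      have hyc : y = ‖z‖ * Real.sin (Complex.arg z) := by
        rw [Complex.norm_mul_sin_arg]
      refine ⟨Complex.arg z, ?_⟩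
      have h2 : (s : Fin 3 → ℝ) = ‖z‖ • (par κ w (Complex.arg z)).1 := by
        funext i
        fin_cases i
        · exact hxc
        · change (s : Fin 3 → ℝ) 1 = ‖z‖ * hom κ w _ _
          rw [← hom_smul _ _ _ _ _ hr.ne', ← hxc, ← hyc]
          exact hs'
        · exact hyc
      have h3 : ‖z‖ * ‖(par κ w (Complex.arg z)).1‖ = 1 := by
        have h4 := s.norm
        rwa [h2, norm_smul, norm_norm] at h4
      apply Subtype.ext
      change (‖(par κ w (Complex.arg z)).1‖⁻¹ : ℝ) • (par κ w (Complex.arg z)).1 = _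
      rw [h2, eq_inv_of_mul_eq_one_left h3]
    · rintro ⟨θ, rfl⟩
      change ‖(par κ w θ).1‖⁻¹ * hom κ w (Real.cos θ) (Real.sin θ) =
        hom κ w (‖(par κ w θ).1‖⁻¹ * Real.cos θ) (‖(par κ w θ).1‖⁻¹ * Real.sin θ)
      rw [hom_smul _ _ _ _ _ (inv_ne_zero (norm_ne_zero_iff.2 (par κ w θ).2))]
  rw [h1, ← Set.image_univ]
  exact isPreconnected_univ.image _ hc.continuousOn

theorem pr_mem (κ : ℝ) (w : ℝ → ℝ) (s : SS) : pr s ∈ curve κ w ↔ s ∈ TT κ w :=
  mk_mem_curve κ w _ s.ne

/-! TARGET. Proof sketch. Let `S = Metric.sphere (0 : EuclideanSpace ℝ (Fin 3)) 1` and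
`p : S → RP2`, `p s = mk s`. `p` is a quotient covering map for the group `ℤˣ` (or
`Multiplicative (ZMod 2)`) acting by `± 1` (see `IsQuotientCoveringMap` in
`Mathlib/Topology/Covering/Quotient.lean`): it is a quotient map because the quotient map
`{v // v ≠ 0} → RP2` factors as `v ↦ v/‖v‖` followed by `p`; for `e ∈ S` the neighbourhood
`{s | 0 < ⟪s, e⟫}` is disjoint from its antipode. So `p` is a covering map.
Let `f` be a disc with boundary `curve κ w`. Apply `IsCoveringMap.liftHomotopy`
(`Mathlib/Topology/Homotopy/Lifting.lean`) to `H (t, z) = f (t z)`, `t ∈ [0,1]`, `z ∈ Circle`, with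
the constant lift at `t = 0`: this gives a continuous `F : Circle → S` (`t = 1`) with
`p (F z) = f z`. `F` is injective since `f` is. Let `K = range F` (compact, so closed). `K` and `-K`
are disjoint: `F z = - F z'` gives `f z = f z'`, `z = z'`, `F z = - F z`, absurd. Their union is
`p ⁻¹' (curve κ w)`, which is connected: it is the image of `ℝ` under
`θ ↦ (cos θ, g θ, sin θ) / norm`, `g θ = hom κ w (cos θ) (sin θ)` continuous (because `w` is continuous
and bounded). Both `K` and `-K` are closed and nonempty: contradiction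
(`IsPreconnected`/`isPreconnected_closed_iff`). -/
theorem curve_no_disc (κ : ℝ) (w : ℝ → ℝ) (hw : Continuous w) (M : ℝ) (hM : ∀ x, |w x| ≤ M) :
    ¬ BoundsDisc (curve κ w) := by
  rintro ⟨f, hfc, hfi, hfb⟩
  have cov : IsCoveringMap pr := cov_pr.isCoveringMap
  -- the homotopy
  let H : C(unitInterval × Circle, RP2) :=
    ⟨fun q => f ⟨((q.1 : ℝ) : ℂ) * (q.2 : ℂ), by
      rw [mem_closedBall_zero_iff, norm_mul, Circle.norm_coe, mul_one, Complex.norm_real,
        Real.norm_eq_abs, abs_of_nonneg q.1.2.1]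
      exact q.1.2.2⟩, by
      refine hfc.comp (Continuous.subtype_mk ?_ _)
      exact (Complex.continuous_ofReal.comp (continuous_subtype_val.comp continuous_fst)).mul
        ((by fun_prop : Continuous fun z : Circle => (z : ℂ)).comp continuous_snd)⟩
  obtain ⟨s0, hs0⟩ := cov_pr.surjective (f ⟨0, by simp⟩)
  have H0 : ∀ a : Circle, H (0, a) = pr ((ContinuousMap.const Circle s0) a) := by
    intro a
    change f _ = pr s0
    rw [hs0]
    congr 1
    apply Subtype.ext
    change (((0 : unitInterval) : ℝ) : ℂ) * (a : ℂ) = 0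
    simp
  let L := cov.liftHomotopy H (ContinuousMap.const Circle s0) H0
  have hL : pr ∘ L = H := cov.liftHomotopy_lifts H (ContinuousMap.const Circle s0) H0
  let F : Circle → SS := fun z => L (1, z)
  have hFc : Continuous F := L.continuous.comp (continuous_const.prodMk continuous_id)
  have hF : ∀ z : Circle, pr (F z) = f ⟨(z : ℂ), by
      rw [mem_closedBall_zero_iff]
      exact (Circle.norm_coe z).le⟩ := by
    intro z
    have h1 := congrFun hL (1, z)
    change pr (F z) = f _ at h1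
    rw [h1]
    congr 1
    apply Subtype.ext
    change (((1 : unitInterval) : ℝ) : ℂ) * (z : ℂ) = z
    simp
  have hFi : ∀ z z' : Circle, pr (F z) = pr (F z') → z = z' := by
    intro z z' h
    rw [hF, hF] at h
    have h1 := congrArg Subtype.val (hfi h)
    exact Circle.ext h1
  have hne : ∀ s : SS, s ≠ (-1 : ℤˣ) • s := by
    intro s h
    have h1 := congrArg Subtype.val h
    rw [coe_smul_SS] at h1
    apply s.ne
    simp only [Units.val_neg, Units.val_one, Int.cast_neg, Int.cast_one] at h1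
    have h2 : (2 : ℝ) • (s : Fin 3 → ℝ) = 0 := by
      have h3 : (2 : ℝ) • (s : Fin 3 → ℝ) = (s : Fin 3 → ℝ) - (-1 : ℝ) • (s : Fin 3 → ℝ) := by
        module
      rw [h3, ← h1, sub_self]
    exact (smul_eq_zero.1 h2).resolve_left two_ne_zero
  let K : Set SS := Set.range F
  let K' : Set SS := Set.range fun z => (-1 : ℤˣ) • F z
  have hKc : IsClosed K := (isCompact_range hFc).isClosed
  have hKc' : IsClosed K' := by
    have h1 : Continuous fun z => (-1 : ℤˣ) • F z := (cov_pr.continuous_const_smul (-1)).comp hFc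
    exact (isCompact_range h1).isClosed
  have hmem : ∀ z : Circle, F z ∈ TT κ w := by
    intro z
    rw [← pr_mem, hF, ← hfb]
    exact ⟨_, Circle.norm_coe z, rfl⟩
  have hmem' : ∀ z : Circle, (-1 : ℤˣ) • F z ∈ TT κ w := by
    intro z
    rw [← pr_mem, cov_pr.map_smul, pr_mem]
    exact hmem z
  have hcov : TT κ w ⊆ K ∪ K' := by
    intro s hs
    rw [← pr_mem, ← hfb] at hs
    obtain ⟨z, hz, hzs⟩ := hs
    let c : Circle := ⟨(z : ℂ), by
      rw [Submonoid.unitSphere, ← SetLike.mem_coe]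
      exact mem_sphere_zero_iff_norm.2 hz⟩
    have h1 : pr s = pr (F c) := by
      rw [hF, ← hzs]
    rw [pr_eq_iff, MulAction.mem_orbit_iff] at h1
    obtain ⟨u, hu⟩ := h1
    rcases Int.units_eq_one_or u with rfl | rfl
    · left
      exact ⟨c, by rw [← hu, one_smul]⟩
    · right
      exact ⟨c, hu⟩
  have h1 := isPreconnected_closed_iff.1 (TT_conn κ w hw M hM) K K' hKc hKc' hcov
    ⟨F 1, hmem 1, 1, rfl⟩ ⟨(-1 : ℤˣ) • F 1, hmem' 1, 1, rfl⟩
  obtain ⟨s, -, ⟨z, hz⟩, z', hz'⟩ := h1
  beta_reduce at hz'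
  have h2 : pr (F z) = pr (F z') := by
    rw [hz, ← hz', cov_pr.map_smul]
  have h3 := hFi z z' h2
  subst h3
  exact hne (F z) (by rw [hz', hz])

end TD

end Pool.Agent.KS6_69.PL
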