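import Mathlib

/-! Piecewise linear interpolation. -/

namespace Pool.Agent.KS6_69.PL

/-- piecewise linear interpolation of a sequence of values at the integers -/
noncomputable def interp (b : ℤ → ℝ) (x : ℝ) : ℝ :=
  (1 - Int.fract x) * b ⌊x⌋ + Int.fract x * b (⌊x⌋ + 1)

/-- the interpolation on `[n, n + 1]` -/
theorem pl_eq (b : ℤ → ℝ) (n : ℤ) {x : ℝ} (h : (n : ℝ) ≤ x) (h' : x ≤ n + 1) :
    interp b x = (n + 1 - x) * b n + (x - n) * b (n + 1) := by
  unfold interp
  rcases h'.lt_or_eq with h1 | h1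
  · have hf : ⌊x⌋ = n := Int.floor_eq_iff.2 ⟨h, h1⟩
    have hr : Int.fract x = x - n := by rw [Int.fract, hf]
    rw [hr, hf]
    ring
  · have hx : x = ((n + 1 : ℤ) : ℝ) := by push_cast; exact h1
    have hf : ⌊x⌋ = n + 1 := by rw [hx, Int.floor_intCast]
    have hr : Int.fract x = 0 := by rw [hx, Int.fract_intCast]
    rw [hr, hf, h1]
    ring

theorem interp_continuous (b : ℤ → ℝ) : Continuous (interp b) := by
  have hlf : LocallyFinite fun n : ℤ => Set.Icc (n : ℝ) (n + 1) := by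
    intro x
    refine ⟨Metric.ball x 1, Metric.ball_mem_nhds x one_pos, ?_⟩
    refine (Set.finite_Icc (⌊x⌋ - 3) (⌊x⌋ + 3)).subset ?_
    rintro n ⟨y, ⟨h1, h2⟩, h3⟩
    rw [Metric.mem_ball, Real.dist_eq, abs_lt] at h3
    have h4 := Int.floor_le x
    have h5 := Int.lt_floor_add_one x
    have h6 : (n : ℝ) < (⌊x⌋ + 3 : ℤ) := by push_cast; linarith [h3.2]
    have h7 : ((⌊x⌋ - 3 : ℤ) : ℝ) < n := by push_cast; linarith [h3.1]
    exact ⟨(Int.cast_lt.1 h7).le, (Int.cast_lt.1 h6).le⟩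
  refine hlf.continuous ?_ (fun n => isClosed_Icc) ?_
  · refine Set.eq_univ_of_forall fun x => Set.mem_iUnion.2 ⟨⌊x⌋, Int.floor_le x, ?_⟩
    exact (Int.lt_floor_add_one x).le
  · intro n
    have h1 : ContinuousOn (fun x : ℝ => ((n : ℝ) + 1 - x) * b n + (x - n) * b (n + 1))
        (Set.Icc (n : ℝ) (n + 1)) := by fun_prop
    exact h1.congr fun x hx => pl_eq b n hx.1 hx.2

theorem interp_bounded (b : ℤ → ℝ) (M : ℝ) (hM : ∀ n, |b n| ≤ M) (x : ℝ) : |interp b x| ≤ M := by
  unfold interp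
  have h0 := Int.fract_nonneg x
  have h1 := (Int.fract_lt_one x).le
  have a1 := abs_le.1 (hM ⌊x⌋)
  have a2 := abs_le.1 (hM (⌊x⌋ + 1))
  rw [abs_le]
  constructor
  · nlinarith [mul_le_mul_of_nonneg_left a1.1 (sub_nonneg.2 h1), mul_le_mul_of_nonneg_left a2.1 h0]
  · nlinarith [mul_le_mul_of_nonneg_left a1.2 (sub_nonneg.2 h1), mul_le_mul_of_nonneg_left a2.2 h0]

theorem interp_add_linear (b : ℤ → ℝ) (α : ℝ) (x : ℝ) :
    interp (fun n => b n + α * n) x = interp b x + α * x := by
  unfold interp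
  have h := Int.floor_add_fract x
  push_cast
  have h2 : α * x = α * (⌊x⌋ + Int.fract x) := by rw [h]
  rw [h2]
  ring

theorem interp_unique_zero (D : ℤ → ℝ) (hD : ∀ k l : ℤ, k < l → D k ≤ 0 → D l < 0)
    (hpos : ∃ k, 0 < D k) (hneg : ∃ k, D k ≤ 0) :
    ∃ x0 δ : ℝ, 0 < δ ∧ (∀ x, interp D x = 0 ↔ x = x0) ∧
      StrictAntiOn (interp D) (Set.Ioo (x0 - δ) (x0 + δ)) := by
  obtain ⟨k0, hk0⟩ := hpos
  obtain ⟨k1, hk1⟩ := hneg
  obtain ⟨K, hK, hKmin⟩ := Int.exists_least_of_bdd (P := fun z => D z ≤ 0)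
    ⟨k0, fun z hz => by
      by_contra hlt
      push Not at hlt
      exact absurd (hD z k0 hlt hz) (not_lt.2 hk0.le)⟩ ⟨k1, hk1⟩
  have hlow : ∀ j : ℤ, j < K → 0 < D j := fun j hj => by
    by_contra hcon
    exact absurd (hKmin j (not_lt.1 hcon)) (not_le.2 hj)
  have hhigh : ∀ j : ℤ, K < j → D j < 0 := fun j hj => hD K j hj hK
  have hp : 0 < D (K - 1) := hlow _ (by omega)
  have hden : 0 < D (K - 1) - D K := by linarith
  -- the three regions
  have hleft : ∀ x : ℝ, x < K - 1 → 0 < interp D x := by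
    intro x hx
    have h1 : ⌊x⌋ < K - 1 := by
      have h2 := Int.floor_le x
      have h3 : ((⌊x⌋ : ℤ) : ℝ) < ((K - 1 : ℤ) : ℝ) := by push_cast; linarith
      exact Int.cast_lt.1 h3
    have h4 := hlow ⌊x⌋ (by omega)
    have h5 := hlow (⌊x⌋ + 1) (by omega)
    have h6 := Int.fract_nonneg x
    have h7 := Int.fract_lt_one x
    unfold interp
    have h8 : 0 < (1 - Int.fract x) * D ⌊x⌋ := mul_pos (by linarith) h4
    have h9 : 0 ≤ Int.fract x * D (⌊x⌋ + 1) := mul_nonneg h6 h5.le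
    linarith
  have hright : ∀ x : ℝ, (K : ℝ) < x → interp D x < 0 := by
    intro x hx
    have h6 := Int.fract_nonneg x
    have h7 := Int.fract_lt_one x
    have h1 : K ≤ ⌊x⌋ := Int.le_floor.2 hx.le
    unfold interp
    rcases h1.eq_or_lt with h2 | h2
    · have h3 : 0 < Int.fract x := by
        rw [Int.fract, ← h2]
        linarith
      have h4 : Int.fract x * D (⌊x⌋ + 1) < 0 :=
        mul_neg_of_pos_of_neg h3 (hhigh _ (by omega))
      have h5 : (1 - Int.fract x) * D ⌊x⌋ ≤ 0 := by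
        rw [← h2]
        exact mul_nonpos_of_nonneg_of_nonpos (by linarith) hK
      linarith
    · have h4 : Int.fract x * D (⌊x⌋ + 1) ≤ 0 :=
        mul_nonpos_of_nonneg_of_nonpos h6 (hhigh _ (by omega)).le
      have h5 : (1 - Int.fract x) * D ⌊x⌋ < 0 :=
        mul_neg_of_pos_of_neg (by linarith) (hhigh _ h2)
      linarith
  have hmid : ∀ x : ℝ, (K : ℝ) - 1 ≤ x → x ≤ K →
      interp D x = D (K - 1) - (x - (K - 1)) * (D (K - 1) - D K) := by
    intro x h1 h2
    have h3 := pl_eq D (K - 1) (x := x) (by push_cast; linarith) (by push_cast; linarith)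
    rw [h3, sub_add_cancel]
    push_cast
    ring
  set x0 : ℝ := K - 1 + D (K - 1) / (D (K - 1) - D K) with hx0
  have hq : D (K - 1) / (D (K - 1) - D K) * (D (K - 1) - D K) = D (K - 1) := by
    field_simp
  have hq0 : 0 < D (K - 1) / (D (K - 1) - D K) := div_pos hp hden
  have hq1 : D (K - 1) / (D (K - 1) - D K) ≤ 1 := (div_le_one hden).2 (by linarith)
  have hzero : ∀ x, interp D x = 0 ↔ x = x0 := by
    intro x
    rcases lt_or_ge x (K - 1) with h1 | h1
    · constructor
      · intro h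
        exact absurd h (hleft x h1).ne'
      · intro h
        exfalso
        rw [h, hx0] at h1
        linarith
    rcases lt_or_ge (K : ℝ) x with h2 | h2
    · constructor
      · intro h
        exact absurd h (hright x h2).ne
      · intro h
        exfalso
        rw [h, hx0] at h2
        linarith
    rw [hmid x h1 h2]
    constructor
    · intro h
      have h3 : (x - (K - 1) - D (K - 1) / (D (K - 1) - D K)) * (D (K - 1) - D K) = 0 := by
        rw [sub_mul, hq]
        linarith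
      rcases mul_eq_zero.1 h3 with h4 | h4
      · rw [hx0]; linarith
      · exact absurd h4 hden.ne'
    · intro h
      have h3 : x - (K - 1) = D (K - 1) / (D (K - 1) - D K) := by rw [h, hx0]; ring
      rw [h3, hq, sub_self]
  have hanti : StrictAntiOn (interp D) (Set.Icc ((K : ℝ) - 1) K) := by
    intro x hx y hy hxy
    rw [hmid x hx.1 hx.2, hmid y hy.1 hy.2]
    have := mul_lt_mul_of_pos_right hxy hden
    nlinarith
  rcases hK.lt_or_eq with hneg' | hz
  · have hq1' : D (K - 1) / (D (K - 1) - D K) < 1 := (div_lt_one hden).2 (by linarith)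
    refine ⟨x0, min (x0 - (K - 1)) (K - x0), lt_min ?_ ?_, hzero, ?_⟩
    · rw [hx0]; linarith
    · rw [hx0]; linarith
    · refine hanti.mono ?_
      rintro y ⟨h1, h2⟩
      have h3 := min_le_left (x0 - ((K : ℝ) - 1)) (K - x0)
      have h4 := min_le_right (x0 - ((K : ℝ) - 1)) (K - x0)
      constructor <;> linarith
  · have hx0K : x0 = K := by
      rw [hx0, hz, sub_zero, div_self hp.ne']
      ring
    have hanti2 : StrictAntiOn (interp D) (Set.Icc (K : ℝ) (K + 1)) := by
      intro x hx y hy hxy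
      rw [pl_eq D K hx.1 hx.2, pl_eq D K hy.1 hy.2, hz]
      have h1 := hhigh (K + 1) (by omega)
      nlinarith
    refine ⟨x0, 1, one_pos, hzero, ?_⟩
    have hu := hanti.union hanti2 (isGreatest_Icc (by linarith)) (isLeast_Icc (by linarith))
    refine hu.mono ?_
    rintro y ⟨h1, h2⟩
    rw [hx0K] at h1 h2
    rcases le_total y K with h3 | h3
    · exact Or.inl ⟨h1.le, h3⟩
    · exact Or.inr ⟨h3, h2.le⟩

end Pool.Agent.KS6_69.PL
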