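import Pool.Agent.KS6_69.PL.TopoCommon

/-! The curves are simple closed curves. -/

namespace Pool.Agent.KS6_69.PL

namespace TS

open scoped LinearAlgebra.Projectivization

/-- auxiliary function -/
noncomputable def T1_g (κ : ℝ) (w : ℝ → ℝ) (θ : ℝ) : ℝ := hom κ w (Real.cos θ) (Real.sin θ)

theorem T1_g_add_pi (κ : ℝ) (w : ℝ → ℝ) (θ : ℝ) : T1_g κ w (θ + Real.pi) = -T1_g κ w θ := by
  unfold T1_g
  rw [Real.cos_add_pi, Real.sin_add_pi]
  have := hom_smul κ w (-1) (Real.cos θ) (Real.sin θ) (by norm_num)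
  simpa using this

theorem T1_g_continuous (κ : ℝ) (w : ℝ → ℝ) (hw : Continuous w) (M : ℝ) (hM : ∀ x, |w x| ≤ M) :
    Continuous (T1_g κ w) := by
  unfold T1_g hom
  refine (continuous_const.mul Real.continuous_cos).add ?_
  rw [continuous_iff_continuousAt]
  intro θ
  by_cases h : Real.sin θ = 0
  · have h0 : Real.sin θ * w (Real.cos θ / Real.sin θ) = 0 := by rw [h, zero_mul]
    unfold ContinuousAt
    beta_reduce
    rw [h0]
    have h1 : Filter.Tendsto (fun x => M * |Real.sin x|) (nhds θ) (nhds 0) := by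
      have : Continuous fun x : ℝ => M * |Real.sin x| := by fun_prop
      have h2 := this.tendsto θ
      rw [h, abs_zero, mul_zero] at h2
      exact h2
    refine squeeze_zero_norm (fun x => ?_) h1
    rw [Real.norm_eq_abs, abs_mul, mul_comm]
    exact mul_le_mul_of_nonneg_right (hM _) (abs_nonneg _)
  · refine (Real.continuous_sin.continuousAt).mul ?_
    exact (hw.continuousAt).comp (Real.continuous_cos.continuousAt.div
      Real.continuous_sin.continuousAt h)

theorem T1_ne (κ : ℝ) (w : ℝ → ℝ) (θ : ℝ) :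
    (![Real.cos θ, T1_g κ w θ, Real.sin θ] : Fin 3 → ℝ) ≠ 0 := by
  intro h
  have h0 : Real.cos θ = 0 := congrFun h 0
  have h2 : Real.sin θ = 0 := congrFun h 2
  have := Real.cos_sq_add_sin_sq θ
  rw [h0, h2] at this
  norm_num at this

/-- the lift of the parametrisation -/
noncomputable def T1_G (κ : ℝ) (w : ℝ → ℝ) (θ : ℝ) : RP2 :=
  Projectivization.mk ℝ ![Real.cos θ, T1_g κ w θ, Real.sin θ] (T1_ne κ w θ)

theorem T1_G_continuous (κ : ℝ) (w : ℝ → ℝ) (hw : Continuous w) (M : ℝ) (hM : ∀ x, |w x| ≤ M) :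
    Continuous (T1_G κ w) := by
  have h1 : Continuous fun θ : ℝ =>
      (⟨![Real.cos θ, T1_g κ w θ, Real.sin θ], T1_ne κ w θ⟩ : {v : Fin 3 → ℝ // v ≠ 0}) := by
    refine Continuous.subtype_mk ?_ _
    refine continuous_pi fun i => ?_
    fin_cases i
    · exact Real.continuous_cos
    · exact T1_g_continuous κ w hw M hM
    · exact Real.continuous_sin
  have h2 : Continuous (Quotient.mk (projectivizationSetoid ℝ (Fin 3 → ℝ))) :=
    continuous_quotient_mk'
  exact h2.comp h1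

theorem T1_G_periodic (κ : ℝ) (w : ℝ → ℝ) : Function.Periodic (T1_G κ w) Real.pi := by
  intro θ
  unfold T1_G
  rw [Projectivization.mk_eq_mk_iff']
  refine ⟨-1, ?_⟩
  rw [T1_g_add_pi, Real.cos_add_pi, Real.sin_add_pi]
  ext i
  fin_cases i <;> simp

theorem T1_G_eq {κ : ℝ} {w : ℝ → ℝ} {θ θ' : ℝ} (h : T1_G κ w θ = T1_G κ w θ') :
    ∃ n : ℤ, (n : ℝ) * Real.pi = θ' - θ := by
  unfold T1_G at h
  rw [Projectivization.mk_eq_mk_iff'] at h
  obtain ⟨c, hc⟩ := h
  have h0 : c * Real.cos θ' = Real.cos θ := by simpa using congrFun hc 0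
  have h2 : c * Real.sin θ' = Real.sin θ := by simpa using congrFun hc 2
  rw [← Real.sin_eq_zero_iff, Real.sin_sub, ← h0, ← h2]
  ring

/-! TARGET. -/
theorem curve_simple (κ : ℝ) (w : ℝ → ℝ) (hw : Continuous w) (M : ℝ) (hM : ∀ x, |w x| ≤ M) :
    IsSimpleClosedCurve (curve κ w) := by
  let e := AddCircle.homeomorphCircle (T := Real.pi) Real.pi_ne_zero
  let Γ : AddCircle Real.pi → RP2 := (T1_G_periodic κ w).lift
  have hΓ : ∀ θ : ℝ, Γ (θ : AddCircle Real.pi) = T1_G κ w θ := fun θ =>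
    (T1_G_periodic κ w).lift_coe θ
  have hcont : Continuous Γ := by
    rw [(QuotientAddGroup.isQuotientMap_mk (AddSubgroup.zmultiples Real.pi)).continuous_iff]
    exact T1_G_continuous κ w hw M hM
  have hinj : Function.Injective Γ := by
    intro x y hxy
    obtain ⟨θ, rfl⟩ := QuotientAddGroup.mk_surjective x
    obtain ⟨θ', rfl⟩ := QuotientAddGroup.mk_surjective y
    have h1 : T1_G κ w θ = T1_G κ w θ' := by
      rw [← hΓ, ← hΓ]
      exact hxy
    obtain ⟨n, hn⟩ := T1_G_eq h1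
    rw [QuotientAddGroup.eq, AddSubgroup.mem_zmultiples_iff]
    refine ⟨n, ?_⟩
    rw [zsmul_eq_mul, hn]
    ring
  refine ⟨Γ ∘ e.symm, hcont.comp e.symm.continuous, hinj.comp e.symm.injective, ?_⟩
  rw [e.symm.surjective.range_comp]
  apply Set.Subset.antisymm
  · rintro _ ⟨x, rfl⟩
    obtain ⟨θ, rfl⟩ := QuotientAddGroup.mk_surjective x
    have h1 : Γ (QuotientAddGroup.mk θ) = T1_G κ w θ := hΓ θ
    rw [h1]
    exact ⟨_, T1_ne κ w θ, rfl, rfl⟩
  · rintro _ ⟨v, hv, rfl, h⟩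
    have hz : ((⟨v 0, v 2⟩ : ℂ)) ≠ 0 := by
      intro h0
      have h0' : v 0 = 0 := congrArg Complex.re h0
      have h2' : v 2 = 0 := congrArg Complex.im h0
      have h1' : v 1 = 0 := by
        rw [h, h0', h2']
        unfold hom
        ring
      apply hv
      ext i
      fin_cases i
      · exact h0'
      · exact h1'
      · exact h2'
    set z : ℂ := ⟨v 0, v 2⟩ with hzdef
    have hr : ‖z‖ ≠ 0 := norm_ne_zero_iff.2 hz
    have e0 : ‖z‖ * Real.cos z.arg = v 0 := Complex.norm_mul_cos_arg z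
    have e2 : ‖z‖ * Real.sin z.arg = v 2 := Complex.norm_mul_sin_arg z
    refine ⟨((z.arg : ℝ) : AddCircle Real.pi), ?_⟩
    rw [hΓ]
    unfold T1_G
    rw [Projectivization.mk_eq_mk_iff']
    refine ⟨‖z‖⁻¹, ?_⟩
    have e1 : ‖z‖ * T1_g κ w z.arg = v 1 := by
      rw [h, ← e0, ← e2, hom_smul _ _ _ _ _ hr]
      rfl
    ext i
    fin_cases i
    · change ‖z‖⁻¹ * v 0 = Real.cos z.arg
      rw [← e0, inv_mul_cancel_left₀ hr]
    · change ‖z‖⁻¹ * v 1 = T1_g κ w z.arg
      rw [← e1, inv_mul_cancel_left₀ hr]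
    · change ‖z‖⁻¹ * v 2 = Real.sin z.arg
      rw [← e2, inv_mul_cancel_left₀ hr]

end TS

end Pool.Agent.KS6_69.PL
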