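import Pool.Agent.KS6_69.PL.Refine
import Pool.Agent.KS6_69.PL.TopoDisc
import Pool.Agent.KS6_69.PL.TopoSimple
import Pool.Agent.KS6_69.PL.TopoCross
import Pool.Agent.KS6_69.PL.TopoInterp

/-!
From the discrete model to pseudolines in the real projective plane.
-/

namespace Pool.Agent.KS6_69.PL

open scoped LinearAlgebra.Projectivization

theorem CrossAt.symm {A B : Set RP2} {x : RP2} (h : CrossAt A B x) : CrossAt B A x := by
  obtain ⟨φ, hx, h0, hy⟩ := h
  refine ⟨φ.trans (Homeomorph.prodComm ℝ ℝ).toOpenPartialHomeomorph, ?_, ?_, ?_⟩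
  · simp [hx]
  · simp [h0]
  · intro y hys
    have : y ∈ φ.source := by simpa using hys
    have := hy y this
    exact ⟨this.2, this.1⟩

theorem interp_sub (a b : ℤ → ℝ) (x : ℝ) :
    interp (fun k => a k - b k) x = interp a x - interp b x := by
  unfold interp
  ring

theorem interp_int (b : ℤ → ℝ) (k : ℤ) : interp b (k : ℝ) = b k := by
  unfold interp
  simp

section

variable {P L : Type*} [Fintype P]

/-- A two-sided sequence of snapshots, extending a finite one linearly. -/
noncomputable def snap (key : L → ℝ) (m : ℕ) (u : ℤ → L → ℝ) (k : ℤ) (i : L) : ℝ :=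
  if k < 0 then u 0 i - k * key i
  else if (m : ℤ) ≤ k then u m i - (k - m) * key i
  else u k i

theorem snap_step (key : L → ℝ) (m : ℕ) (u : ℤ → L → ℝ)
    (hu : ∀ k : ℤ, 0 ≤ k → k < m → ∀ i j, key i < key j → u k j ≤ u k i →
      u (k + 1) j < u (k + 1) i) (k : ℤ) (i j : L) (hij : key i < key j)
    (hle : snap key m u k j ≤ snap key m u k i) :
    snap key m u (k + 1) j < snap key m u (k + 1) i := by
  rcases lt_trichotomy k (-1) with h1 | h1 | h1
  · have a1 : k < 0 := by omega
    have a2 : k + 1 < 0 := by omega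
    simp only [snap, if_pos a1, if_pos a2] at hle ⊢
    push_cast
    linarith
  · subst h1
    have a1 : (-1 : ℤ) < 0 := by omega
    simp only [snap, if_pos a1] at hle
    have b : ∀ x, snap key m u (-1 + 1) x = u 0 x := by
      intro x
      rcases Nat.eq_zero_or_pos m with h0 | h0
      · subst h0
        simp [snap]
      · have hm0 : m ≠ 0 := by omega
        simp [snap, hm0]
    rw [b, b]
    push_cast at hle
    linarith
  · have a1 : ¬ k < 0 := by omega
    have a2 : ¬ k + 1 < 0 := by omega
    rcases lt_or_ge k (m : ℤ) with h2 | h2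
    · have a3 : ¬ ((m : ℤ) ≤ k) := by omega
      simp only [snap, if_neg a1, if_neg a3] at hle
      have := hu k (by omega) h2 i j hij hle
      have b : ∀ x, snap key m u (k + 1) x = u (k + 1) x := by
        intro x
        simp only [snap, if_neg a2]
        by_cases h3 : (m : ℤ) ≤ k + 1
        · have : k + 1 = m := by omega
          rw [if_pos h3, this]
          simp
        · rw [if_neg h3]
      rw [b, b]
      exact this
    · have a3 : (m : ℤ) ≤ k + 1 := by omega
      simp only [snap, if_neg a1, if_neg a2, if_pos h2, if_pos a3] at hle ⊢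
      push_cast
      linarith

theorem snap_lt (key : L → ℝ) (m : ℕ) (u : ℤ → L → ℝ)
    (hu : ∀ k : ℤ, 0 ≤ k → k < m → ∀ i j, key i < key j → u k j ≤ u k i →
      u (k + 1) j < u (k + 1) i) (i j : L) (hij : key i < key j) (k l : ℤ) (hkl : k < l)
    (hle : snap key m u k j ≤ snap key m u k i) : snap key m u l j < snap key m u l i := by
  obtain ⟨d, rfl⟩ : ∃ d : ℕ, l = k + 1 + d := ⟨(l - (k + 1)).toNat, by omega⟩
  clear hkl
  induction d with
  | zero =>
    have := snap_step key m u hu k i j hij hle
    simpa using this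
  | succ d ih =>
    have := snap_step key m u hu (k + 1 + d) i j hij ih.le
    have e : k + 1 + ((d + 1 : ℕ) : ℤ) = k + 1 + d + 1 := by push_cast; ring
    rw [e]
    exact this

theorem snap_bound (key : L → ℝ) (m : ℕ) (u : ℤ → L → ℝ) (i : L) :
    ∃ M : ℝ, ∀ k : ℤ, |snap key m u k i + key i * k| ≤ M := by
  refine ⟨(∑ k ∈ Finset.Icc (0 : ℤ) m, |u k i + key i * k|), ?_⟩
  have hmem : ∀ k : ℤ, 0 ≤ k → k ≤ m → |u k i + key i * k| ≤
      ∑ k ∈ Finset.Icc (0 : ℤ) m, |u k i + key i * k| := by
    intro k h0 h1
    exact Finset.single_le_sum (f := fun k : ℤ => |u k i + key i * k|)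
      (fun k _ => abs_nonneg _) (Finset.mem_Icc.2 ⟨h0, h1⟩)
  intro k
  by_cases h1 : k < 0
  · have := hmem 0 le_rfl (by omega)
    have e : snap key m u k i + key i * k = u 0 i + key i * ((0 : ℤ) : ℝ) := by
      simp only [snap, if_pos h1]
      push_cast
      ring
    rw [e]
    exact this
  · by_cases h2 : (m : ℤ) ≤ k
    · have := hmem m (by omega) le_rfl
      have e : snap key m u k i + key i * k = u m i + key i * ((m : ℤ) : ℝ) := by
        simp only [snap, if_neg h1, if_pos h2]
        push_cast
        ring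
      rw [e]
      exact this
    · have := hmem k (by omega) (by omega)
      have e : snap key m u k i + key i * k = u k i + key i * k := by
        simp only [snap, if_neg h1, if_neg h2]
      rw [e]
      exact this

end

theorem vec_ne (a b : ℝ) : (![a, b, 1] : Fin 3 → ℝ) ≠ 0 := fun h => by
  have := congrFun h 2
  simp at this

/-- The curve of a line. -/
noncomputable def lineCurve {L : Type*} (key : L → ℝ) (s : ℤ → L → ℝ) (i : L) : Set RP2 :=
  curve (-key i) (fun x => interp (fun k => s k i + key i * k) x)

theorem lineCurve_fun {L : Type*} (key : L → ℝ) (s : ℤ → L → ℝ) (i : L) (x : ℝ) :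
    -key i * x + interp (fun k => s k i + key i * k) x = interp (fun k => s k i) x := by
  rw [interp_add_linear]
  ring

theorem mem_lineCurve {L : Type*} (key : L → ℝ) (s : ℤ → L → ℝ) (i : L) (a b : ℝ) :
    Projectivization.mk ℝ ![a, b, 1] (vec_ne a b) ∈ lineCurve key s i ↔
      b = interp (fun k => s k i) a := by
  unfold lineCurve
  rw [mk_mem_curve, ← lineCurve_fun key s i a]
  simp [hom]

theorem lineCurve_inter {L : Type*} (key : L → ℝ) (s : ℤ → L → ℝ)
    (hs : ∀ i j, key i < key j → ∀ k l : ℤ, k < l → s k j ≤ s k i → s l j < s l i)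
    (hbd : ∀ i, ∃ M : ℝ, ∀ k : ℤ, |s k i + key i * k| ≤ M)
    (i j : L) (hij : key i < key j) :
    ∃ x, lineCurve key s i ∩ lineCurve key s j = {x} ∧
      CrossAt (lineCurve key s i) (lineCurve key s j) x := by
  -- the difference sequence
  obtain ⟨Mi, hMi⟩ := hbd i
  obtain ⟨Mj, hMj⟩ := hbd j
  have hd : 0 < key j - key i := by linarith
  obtain ⟨N, hN⟩ := exists_nat_gt ((Mi + Mj) / (key j - key i))
  have hN' : Mi + Mj < N * (key j - key i) := by
    rwa [div_lt_iff₀ hd] at hN
  have hD := interp_unique_zero (fun k => s k j - s k i) (fun k l hkl h => by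
      have := hs i j hij k l hkl (by linarith)
      linarith)
    ⟨-(N : ℤ), by
      have h1 := abs_le.1 (hMi (-(N : ℤ)))
      have h2 := abs_le.1 (hMj (-(N : ℤ)))
      push_cast at h1 h2
      nlinarith [h1.1, h1.2, h2.1, h2.2]⟩
    ⟨(N : ℤ), by
      have h1 := abs_le.1 (hMi (N : ℤ))
      have h2 := abs_le.1 (hMj (N : ℤ))
      push_cast at h1 h2
      nlinarith [h1.1, h1.2, h2.1, h2.2]⟩
  obtain ⟨x0, δ, hδ, hzero, hanti⟩ := hD
  have hz0 : interp (fun k => s k j) x0 = interp (fun k => s k i) x0 := by
    have := (hzero x0).2 rfl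
    rw [interp_sub] at this
    linarith
  have hy : -key i * x0 + interp (fun k => s k i + key i * k) x0 =
      interp (fun k => s k i) x0 := lineCurve_fun key s i x0
  refine ⟨Projectivization.mk ℝ ![x0, -key i * x0 + interp (fun k => s k i + key i * k) x0, 1]
    (vec_ne _ _), ?_, ?_⟩
  · ext z
    simp only [Set.mem_inter_iff, Set.mem_singleton_iff]
    constructor
    · rintro ⟨⟨v, hv, rfl, hvi⟩, hzj⟩
      unfold lineCurve at hzj
      rw [mk_mem_curve] at hzj
      by_cases h2 : v 2 = 0
      · exfalso
        rw [h2] at hvi hzj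
        simp only [hom, zero_mul, add_zero] at hvi hzj
        have h0 : v 0 = 0 := by
          have : (key j - key i) * v 0 = 0 := by linarith
          rcases mul_eq_zero.1 this with h | h
          · exact absurd h hd.ne'
          · exact h
        rw [h0, mul_zero] at hvi
        apply hv
        ext t
        fin_cases t
        · exact h0
        · exact hvi
        · exact h2
      · have e0 : v 0 = v 2 * (v 0 / v 2) := by field_simp
        have ei : v 1 = v 2 * interp (fun k => s k i) (v 0 / v 2) := by
          rw [hvi, ← lineCurve_fun key s i]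
          unfold hom
          rw [mul_add]
          congr 1
          field_simp
        have ej : v 1 = v 2 * interp (fun k => s k j) (v 0 / v 2) := by
          rw [hzj, ← lineCurve_fun key s j]
          unfold hom
          rw [mul_add]
          congr 1
          field_simp
        have e : interp (fun k => s k j) (v 0 / v 2) = interp (fun k => s k i) (v 0 / v 2) := by
          have : v 2 * interp (fun k => s k j) (v 0 / v 2) =
              v 2 * interp (fun k => s k i) (v 0 / v 2) := by rw [← ei, ← ej]
          exact mul_left_cancel₀ h2 this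
        have hx : v 0 / v 2 = x0 := by
          rw [← hzero, interp_sub]
          linarith
        rw [Projectivization.mk_eq_mk_iff']
        refine ⟨v 2, ?_⟩
        rw [hy]
        ext t
        fin_cases t
        · change v 2 * x0 = v 0
          rw [← hx, ← e0]
        · change v 2 * interp (fun k => s k i) x0 = v 1
          rw [ei, hx]
        · change v 2 * 1 = v 2
          ring
    · rintro rfl
      constructor
      · rw [mem_lineCurve]
        exact hy
      · rw [mem_lineCurve, hz0]
        exact hy
  · apply TC.curve_cross (-key i) (-key j) _ _ (interp_continuous _) (interp_continuous _) x0 δ hδ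
    · rw [lineCurve_fun, lineCurve_fun, hz0]
    · intro x hx y hy hxy
      have := hanti hx hy hxy
      rw [interp_sub, interp_sub] at this
      simp only [lineCurve_fun]
      linarith

theorem topo_of_realizable {P L : Type*} [Fintype P] [Nonempty P] {inc : P → L → Prop}
    (h : Realizable inc) : ∃ (pt : P → RP2) (ps : L → Set RP2), Function.Injective pt ∧
      IsArrangement ps ∧ ∀ p l, pt p ∈ ps l ↔ inc p l := by
  classical
  obtain ⟨key, tm, h, hkey, htm, hR, hz⟩ := h
  let _ : LinearOrder P := LinearOrder.lift' tm htm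
  obtain ⟨m, hm⟩ : ∃ m, Fintype.card P = m + 1 :=
    ⟨Fintype.card P - 1, by have := Fintype.card_pos (α := P); omega⟩
  let e : Fin (m + 1) ≃o P := monoEquivOfFin P hm
  have htmlt : ∀ a b : Fin (m + 1), a < b → tm (e a) < tm (e b) := by
    intro a b hab
    exact e.strictMono hab
  -- snapshots at the integers `0..m`
  let u : ℤ → L → ℝ := fun k => h (e (Fin.ofNat (m + 1) k.toNat))
  have hval : ∀ k : ℤ, 0 ≤ k → k ≤ m → ((Fin.ofNat (m + 1) k.toNat : Fin (m + 1)) : ℕ) = k.toNat := by
    intro k h0 h1
    simp only [Fin.val_ofNat]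
    apply Nat.mod_eq_of_lt
    omega
  have hu : ∀ k : ℤ, 0 ≤ k → k < m → ∀ i j, key i < key j → u k j ≤ u k i →
      u (k + 1) j < u (k + 1) i := by
    intro k h0 h1 i j hij hle
    apply hR _ _ _ i j hij hle
    apply htmlt
    rw [Fin.lt_def, hval k h0 (by omega), hval (k + 1) (by omega) (by omega)]
    omega
  let s : ℤ → L → ℝ := snap key m u
  have hs : ∀ i j, key i < key j → ∀ k l : ℤ, k < l → s k j ≤ s k i → s l j < s l i :=
    fun i j hij k l hkl hle => snap_lt key m u hu i j hij k l hkl hle
  have hbd : ∀ i, ∃ M : ℝ, ∀ k : ℤ, |s k i + key i * k| ≤ M := fun i => snap_bound key m u i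
  have hse : ∀ a : Fin (m + 1), ∀ i, s ((a : ℕ) : ℤ) i = h (e a) i := by
    intro a i
    have h1 : ¬ (((a : ℕ) : ℤ) < 0) := by omega
    have hu' : u ((a : ℕ) : ℤ) i = h (e a) i := by
      change h (e (Fin.ofNat (m + 1) ((a : ℕ) : ℤ).toNat)) i = h (e a) i
      congr 2
      apply Fin.ext
      rw [hval _ (by omega) (by have := a.2; omega)]
      simp
    change snap key m u _ i = _
    simp only [snap, if_neg h1]
    by_cases h2 : (m : ℤ) ≤ ((a : ℕ) : ℤ)
    · have h3 : ((a : ℕ) : ℤ) = m := by have := a.2; omega
      rw [if_pos h2]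
      rw [h3] at hu' ⊢
      rw [hu']
      simp
    · rw [if_neg h2, hu']
  refine ⟨fun p => Projectivization.mk ℝ ![(((e.symm p : Fin (m + 1)) : ℕ) : ℝ), 0, 1]
    (vec_ne _ _), lineCurve key s, ?_, ⟨?_, ?_⟩, ?_⟩
  · intro p q hpq
    simp only at hpq
    rw [Projectivization.mk_eq_mk_iff'] at hpq
    obtain ⟨c, hc⟩ := hpq
    have h2 := congrFun hc 2
    have h0 := congrFun hc 0
    simp only [Pi.smul_apply, smul_eq_mul] at h0 h2
    have hc1 : c = 1 := by simpa using h2
    rw [hc1] at h0
    have : (((e.symm q : Fin (m + 1)) : ℕ) : ℝ) = (((e.symm p : Fin (m + 1)) : ℕ) : ℝ) := by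
      simpa using h0
    have : e.symm q = e.symm p := Fin.ext (by exact_mod_cast this)
    exact (e.symm.injective this).symm
  · intro i
    obtain ⟨M, hM⟩ := hbd i
    exact ⟨TS.curve_simple _ _ (interp_continuous _) M (interp_bounded _ M hM),
      TD.curve_no_disc _ _ (interp_continuous _) M (interp_bounded _ M hM)⟩
  · intro i j hij
    rcases lt_or_gt_of_ne (fun e => hij (hkey e) : key i ≠ key j) with h1 | h1
    · exact lineCurve_inter key s hs hbd i j h1
    · obtain ⟨x, hx, hc⟩ := lineCurve_inter key s hs hbd j i h1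
      exact ⟨x, by rw [Set.inter_comm]; exact hx, hc.symm⟩
  · intro p i
    simp only
    rw [mem_lineCurve]
    have h1 : interp (fun k => s k i) (((e.symm p : Fin (m + 1)) : ℕ) : ℝ) = h p i := by
      have := interp_int (fun k => s k i) (((e.symm p : Fin (m + 1)) : ℕ) : ℤ)
      rw [hse, OrderIso.apply_symm_apply] at this
      push_cast at this
      exact this
    rw [h1, ← hz]
    exact eq_comm

end Pool.Agent.KS6_69.PL
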