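import Pool.Agent.KS6_69.PL.Cubic
import Pool.Agent.KS6_69.PL.TopoMain

/-!
The topological statements.
-/

namespace Pool.Agent.KS6_69.PL

open Finset

/-- The incidence structure with the points `P`, the lines `L` and the incidence relation `inc` has
a topological realization: distinct points of the real projective plane for the points, an
arrangement of pseudolines for the lines, and a point lies on a pseudoline if and only if the
corresponding point and line are incident. -/
def TopRealizable {P L : Type} (inc : P → L → Prop) : Prop :=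
  ∃ (pt : P → RP2) (ps : L → Set RP2), Function.Injective pt ∧ IsArrangement ps ∧
    ∀ p l, pt p ∈ ps l ↔ inc p l

/-- Two distinct points are on at most one common line. -/
def IsLinear {P L : Type} (inc : P → L → Prop) : Prop :=
  ∀ (p q : P) (i j : L), p ≠ q → inc p i → inc q i → inc p j → inc q j → i = j

theorem top_of_cubic {P L : Type} [Fintype P] [Fintype L] [Nonempty P] (inc : P → L → Prop)
    (lin : IsLinear inc)
    (h : ∀ X Y, MinDegreeThree inc X Y → Cubic inc X Y ∧ X.card ≠ 7 ∧ X.card ≠ 8) :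
    TopRealizable inc :=
  topo_of_realizable (realizable_of_cubic lin h)

theorem top_of_deletion {P L : Type} [Fintype P] [Fintype L] [Nonempty P]
    (inc D : P → L → Prop) (lin : IsLinear inc)
    (h : ∀ X Y, MinDegreeThree inc X Y → Cubic inc X Y)
    (hD : ∀ X Y, Cubic inc X Y → X.card = 7 ∨ X.card = 8 → ∃ p ∈ X, ∃ l ∈ Y, inc p l ∧ D p l) :
    TopRealizable (fun p l => inc p l ∧ ¬ D p l) := by
  classical
  refine top_of_cubic _ (fun p q i j hpq h1 h2 h3 h4 => lin p q i j hpq h1.1 h2.1 h3.1 h4.1) ?_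
  intro X Y hXY
  have le1 : ∀ p, (Y.filter (fun l => inc p l ∧ ¬ D p l)).card ≤
      (Y.filter (fun l => inc p l)).card := fun p =>
    card_le_card (monotone_filter_right _ fun l _ hl => hl.1)
  have le2 : ∀ l, (X.filter (fun p => inc p l ∧ ¬ D p l)).card ≤
      (X.filter (fun p => inc p l)).card := fun l =>
    card_le_card (monotone_filter_right _ fun p _ hl => hl.1)
  have hm : MinDegreeThree inc X Y := by
    refine ⟨fun p hp => ?_, fun l hl => ?_⟩
    · have := hXY.1 p hp
      exact (this.trans (le_of_eq (by congr 1; ext; simp))).trans (le1 p)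
    · have := hXY.2 l hl
      exact (this.trans (le_of_eq (by congr 1; ext; simp))).trans (le2 l)
  have hc := h X Y hm
  have eq1 : ∀ p ∈ X, Y.filter (fun l => inc p l ∧ ¬ D p l) = Y.filter (fun l => inc p l) := by
    intro p hp
    refine eq_of_subset_of_card_le (monotone_filter_right _ fun l _ hl => hl.1) ?_
    have h1 := hXY.1 p hp
    have h2 : (Y.filter (fun l => inc p l)).card = 3 := by
      rw [← hc.1 p hp]
    rw [h2]
    exact h1.trans (le_of_eq (by congr 1; ext; simp))
  have noD : ∀ p ∈ X, ∀ l ∈ Y, inc p l → ¬ D p l := by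
    intro p hp l hl hpl
    have h1 : l ∈ Y.filter (fun l => inc p l ∧ ¬ D p l) := by
      rw [eq1 p hp]
      exact mem_filter.2 ⟨hl, hpl⟩
    exact (mem_filter.1 h1).2.2
  refine ⟨⟨fun p hp => ?_, fun l hl => ?_⟩, ?_, ?_⟩
  · rw [← hc.1 p hp]
    congr 1
    ext l
    simp only [mem_filter]
    exact ⟨fun ⟨a, b⟩ => ⟨a, b.1⟩, fun ⟨a, b⟩ => ⟨a, b, noD p hp l a b⟩⟩
  · rw [← hc.2 l hl]
    congr 1
    ext p
    simp only [mem_filter]
    exact ⟨fun ⟨a, b⟩ => ⟨a, b.1⟩, fun ⟨a, b⟩ => ⟨a, b, noD p a l hl b⟩⟩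
  · intro h7
    obtain ⟨p, hp, l, hl, h1, h2⟩ := hD X Y hc (Or.inl h7)
    exact noD p hp l hl h1 h2
  · intro h7
    obtain ⟨p, hp, l, hl, h1, h2⟩ := hD X Y hc (Or.inr h7)
    exact noD p hp l hl h1 h2

variable {P : Type} [Fintype P] [DecidableEq P] {n : ℕ}

theorem Config.isCfg (C : Config P n) :
    IsCfg (fun (p : P) (l : {l // l ∈ C.lines}) => p ∈ l.1) := by
  refine ⟨?_, ?_, ?_⟩
  · intro p
    obtain ⟨x, y, z, hxy, hxz, hyz, he⟩ := Finset.card_eq_three.1 (C.point_deg p)
    have mem : ∀ w, w ∈ C.lines ∧ p ∈ w ↔ w = x ∨ w = y ∨ w = z := by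
      intro w
      have h1 : w ∈ C.lines.filter (fun l => p ∈ l) ↔ w ∈ ({x, y, z} : Finset (Finset P)) := by
        rw [he]
      rw [Finset.mem_filter] at h1
      rw [h1]
      simp
    have hx := (mem x).2 (Or.inl rfl)
    have hy := (mem y).2 (Or.inr (Or.inl rfl))
    have hz := (mem z).2 (Or.inr (Or.inr rfl))
    refine ⟨⟨x, hx.1⟩, ⟨y, hy.1⟩, ⟨z, hz.1⟩, fun e => hxy (congrArg Subtype.val e),
      fun e => hxz (congrArg Subtype.val e), fun e => hyz (congrArg Subtype.val e), ?_⟩
    rintro ⟨w, hw⟩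
    simp only [Subtype.mk.injEq]
    rw [← mem w]
    exact ⟨fun h => ⟨hw, h⟩, fun h => h.2⟩
  · rintro ⟨w, hw⟩
    obtain ⟨x, y, z, hxy, hxz, hyz, he⟩ := Finset.card_eq_three.1 (C.line_card w hw)
    refine ⟨x, y, z, hxy, hxz, hyz, ?_⟩
    intro t
    simp [he]
  · rintro p q ⟨i, hi⟩ ⟨j, hj⟩ hpq h1 h2 h3 h4
    exact Subtype.ext (C.linear i hi j hj p q hpq h1 h2 h3 h4)

theorem Config.conn (C : Config P n) (hC : C.levi.Connected) :
    Conn (fun (p : P) (l : {l // l ∈ C.lines}) => p ∈ l.1) := by
  intro X Y hXY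
  let f : P ⊕ {l // l ∈ C.lines} → Prop := Sum.elim (· ∈ X) (· ∈ Y)
  have hadj : ∀ u v, C.levi.Adj u v → (f u ↔ f v) := by
    intro u v h
    rw [Config.levi, SimpleGraph.fromRel_adj] at h
    obtain ⟨-, ⟨p, l, rfl, rfl, hpl⟩ | ⟨p, l, rfl, rfl, hpl⟩⟩ := h
    · exact hXY p l hpl
    · exact (hXY p l hpl).symm
  have hall : ∀ u v, f u ↔ f v := by
    intro u v
    obtain ⟨w⟩ := hC.preconnected u v
    induction w with
    | nil => exact Iff.rfl
    | cons h _ ih => exact (hadj _ _ h).trans ih
  by_cases hex : ∃ v, f v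
  · obtain ⟨v, hv⟩ := hex
    right
    constructor
    · ext p
      simp only [mem_univ, iff_true]
      exact (hall (Sum.inl p) v).2 hv
    · ext l
      simp only [mem_univ, iff_true]
      exact (hall (Sum.inr l) v).2 hv
  · left
    constructor
    · ext p
      simp only [notMem_empty, iff_false]
      exact fun h => hex ⟨Sum.inl p, h⟩
    · ext l
      simp only [notMem_empty, iff_false]
      exact fun h => hex ⟨Sum.inr l, h⟩

theorem connected_config (hn : 9 ≤ n) (C : Config P n) (hC : C.levi.Connected) :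
    C.TopologicallyRealizable := by
  have hP : Fintype.card P = n := C.card_points
  have hL : Fintype.card {l // l ∈ C.lines} = n := by
    rw [Fintype.card_coe]
    exact C.card_lines
  have hne : Nonempty P := Fintype.card_pos_iff.1 (by omega)
  exact topo_of_realizable (realizable_all C.isCfg (C.conn hC) (by
    rw [Fintype.card_sum, hP, hL]
    omega))

/-- All `(n_3)` configurations, connected or not, without a part `(7_3)` or `(8_3)`. -/
theorem config_without (hn : 0 < n) (C : Config P n)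
    (h78 : ∀ Y ⊆ C.lines, Y.card = 7 ∨ Y.card = 8 → (Y.biUnion id).card ≠ Y.card) :
    C.TopologicallyRealizable := by
  classical
  have hP : Fintype.card P = n := C.card_points
  have hne : Nonempty P := Fintype.card_pos_iff.1 (by omega)
  refine top_of_cubic (fun (p : P) (l : {l // l ∈ C.lines}) => p ∈ l.1) C.isCfg.lin ?_
  intro X Y hXY
  have deg : ∀ p : P, (Y.filter (fun l => p ∈ l.1)).card ≤ 3 := by
    intro p
    rw [← C.point_deg p, ← card_map (Function.Embedding.subtype _)]
    apply card_le_card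
    intro l hl
    obtain ⟨m, hm, rfl⟩ := mem_map.1 hl
    rw [mem_filter] at hm ⊢
    exact ⟨m.2, hm.2⟩
  have size : ∀ l : {l // l ∈ C.lines}, (X.filter (fun p => p ∈ l.1)).card ≤ 3 := by
    intro l
    rw [← C.line_card l.1 l.2]
    apply card_le_card
    intro p hp
    exact (mem_filter.1 hp).2
  have hc : Cubic (fun (p : P) (l : {l // l ∈ C.lines}) => p ∈ l.1) X Y := by
    refine ⟨fun p hp => le_antisymm ?_ (hXY.1 p hp), fun l hl => le_antisymm ?_ (hXY.2 l hl)⟩
    · exact le_trans (le_of_eq (by congr 1; ext; simp)) (deg p)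
    · exact le_trans (le_of_eq (by congr 1; ext; simp)) (size l)
  let Y' : Finset (Finset P) := Y.map (Function.Embedding.subtype _)
  have hY' : Y' ⊆ C.lines := by
    intro l hl
    obtain ⟨m, _, rfl⟩ := mem_map.1 hl
    exact m.2
  have hYc : Y'.card = X.card := by rw [hc.card_eq]; exact card_map _
  have hU : Y'.biUnion id = X := by
    ext x
    simp only [mem_biUnion, id]
    constructor
    · rintro ⟨l, hl, hx⟩
      obtain ⟨m, hm, rfl⟩ := mem_map.1 hl
      have h1 : (X.filter (fun p => p ∈ m.1)).card = 3 := by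
        have := hc.2 m hm
        rw [← this]
        congr 1
        ext
        simp
      have h2 : X.filter (fun p => p ∈ m.1) = m.1 :=
        eq_of_subset_of_card_le (fun p hp => (mem_filter.1 hp).2) (by
          rw [h1, C.line_card m.1 m.2])
      have h3 : x ∈ X.filter (fun p => p ∈ m.1) := by rw [h2]; exact hx
      exact (mem_filter.1 h3).1
    · intro hx
      obtain ⟨m, hmY, -, -, -, -, -, -, -, hxm, -⟩ := ((core_iff _ X Y).2 hXY).1 x hx
      exact ⟨m.1, mem_map.2 ⟨m, hmY, rfl⟩, by assumption⟩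
  refine ⟨hc, fun h7 => ?_, fun h8 => ?_⟩
  · exact h78 Y' hY' (Or.inl (by rw [hYc, h7])) (by rw [hU, hYc])
  · exact h78 Y' hY' (Or.inr (by rw [hYc, h8])) (by rw [hU, hYc])

end Pool.Agent.KS6_69.PL
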