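import Mathlib

/-! Discrete models of pseudoline arrangements with prescribed incidences:
snapshots ordered in time, and the insertion of a new line or a new point. -/

namespace Pool.Agent.KS6_69.PL

open Finset

variable {P L : Type*} [DecidableEq P] [DecidableEq L]

/-- `Rel S key u v`: the snapshot `v` may come after the snapshot `u`: a pair of lines of `S`
which has met or passed at `u` is in reversed order at `v`. -/
def Rel {α β : Type*} [LinearOrder α] [LinearOrder β] (S : Finset L) (key : L → ℝ)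
    (u : L → α) (v : L → β) : Prop :=
  ∀ i ∈ S, ∀ j ∈ S, key i < key j → u j ≤ u i → v j < v i

omit [DecidableEq L] in
theorem Rel.trans {α β γ : Type*} [LinearOrder α] [LinearOrder β] [LinearOrder γ]
    {S : Finset L} {key : L → ℝ} {u : L → α} {v : L → β} {w : L → γ}
    (h1 : Rel S key u v) (h2 : Rel S key v w) : Rel S key u w :=
  fun i hi j hj hk h => h2 i hi j hj hk (h1 i hi j hj hk h).le

omit [DecidableEq L] in
theorem rel_key {β : Type*} [LinearOrder β] (S : Finset L) (key : L → ℝ) (v : L → β) :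
    Rel S key key v := fun _ _ _ _ hk h => absurd hk (not_lt.mpr h)

omit [DecidableEq L] in
theorem rel_neg {α : Type*} [LinearOrder α] (S : Finset L) (key : L → ℝ) (u : L → α) :
    Rel S key u (fun i => - key i) := fun _ _ _ _ hk _ => neg_lt_neg hk

/-- A real number between two finite sets, outside a third one. -/
theorem exists_between_sets (X Y F : Finset ℝ) (h : ∀ x ∈ X, ∀ y ∈ Y, x < y) :
    ∃ g : ℝ, g ∉ F ∧ (∀ x ∈ X, x < g) ∧ ∀ y ∈ Y, g < y := by
  obtain ⟨l, hl⟩ : ∃ l : ℝ, (∀ x ∈ X, x ≤ l) ∧ ∀ y ∈ Y, l < y := by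
    by_cases hX : X.Nonempty
    · exact ⟨X.max' hX, fun x hx => X.le_max' x hx, fun y hy => h _ (X.max'_mem hX) y hy⟩
    · rw [Finset.not_nonempty_iff_eq_empty] at hX
      subst hX
      by_cases hY : Y.Nonempty
      · refine ⟨Y.min' hY - 1, by simp, fun y hy => ?_⟩
        have := Y.min'_le y hy
        linarith
      · rw [Finset.not_nonempty_iff_eq_empty] at hY
        subst hY
        exact ⟨0, by simp, by simp⟩
  obtain ⟨u, hu, hlu⟩ : ∃ u : ℝ, (∀ y ∈ Y, u ≤ y) ∧ l < u := by
    by_cases hY : Y.Nonempty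
    · exact ⟨Y.min' hY, fun y hy => Y.min'_le y hy, hl.2 _ (Y.min'_mem hY)⟩
    · rw [Finset.not_nonempty_iff_eq_empty] at hY
      subst hY
      exact ⟨l + 1, by simp, by linarith⟩
  have hinf : (Set.Ioo l u).Infinite := Set.Ioo_infinite hlu
  obtain ⟨g, hg, hgF⟩ := hinf.exists_notMem_finset F
  exact ⟨g, hgF, fun x hx => lt_of_le_of_lt (hl.1 x hx) hg.1,
    fun y hy => lt_of_lt_of_le hg.2 (hu y hy)⟩

omit [DecidableEq L] in
/-- The value of a new line at one snapshot between two snapshots at which it is known. -/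
theorem exists_value (S : Finset L) (key A t B : L → ℝ) (kx a b : ℝ) (F : Finset ℝ)
    (hinj : ∀ i ∈ S, ∀ j ∈ S, key i = key j → i = j)
    (hAt : Rel S key A t) (htB : Rel S key t B)
    (h1 : ∀ i ∈ S, key i < kx → a ≤ A i → b < B i)
    (h2 : ∀ i ∈ S, kx < key i → A i ≤ a → B i < b) :
    ∃ g : ℝ, g ∉ F ∧
      (∀ i ∈ S, key i < kx → a ≤ A i → g < t i) ∧
      (∀ i ∈ S, kx < key i → A i ≤ a → t i < g) ∧
      (∀ i ∈ S, key i < kx → g ≤ t i → b < B i) ∧
      (∀ i ∈ S, kx < key i → t i ≤ g → B i < b) := by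
  classical
  set Lo := S.filter (fun i => (kx < key i ∧ A i ≤ a) ∨ (key i < kx ∧ B i ≤ b)) with hLo
  set Up := S.filter (fun i => (key i < kx ∧ a ≤ A i) ∨ (kx < key i ∧ b ≤ B i)) with hUp
  have both : ∀ j ∈ S, ∀ i ∈ S, A j < A i → B j < B i → t j < t i := by
    intro j hjS i hiS eA eB
    rcases lt_trichotomy (key i) (key j) with hk | hk | hk
    · exact hAt i hiS j hjS hk eA.le
    · have := hinj i hiS j hjS hk
      subst this
      exact absurd eA (lt_irrefl _)
    · by_contra hc
      exact absurd (htB j hjS i hiS hk (not_lt.mp hc)) (not_lt.mpr eB.le)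
  have key_lt : ∀ j ∈ Lo, ∀ i ∈ Up, t j < t i := by
    intro j hj i hi
    rw [hLo, mem_filter] at hj
    rw [hUp, mem_filter] at hi
    obtain ⟨hjS, hj⟩ := hj
    obtain ⟨hiS, hi⟩ := hi
    rcases hi with ⟨hi1, hi2⟩ | ⟨hi1, hi2⟩ <;> rcases hj with ⟨hj1, hj2⟩ | ⟨hj1, hj2⟩
    · exact hAt i hiS j hjS (hi1.trans hj1) (hj2.trans hi2)
    · have e1 := h1 i hiS hi1 hi2
      have e2 : A j < a := by
        by_contra hc
        exact absurd (h1 j hjS hj1 (not_lt.mp hc)) (not_lt.mpr hj2)
      exact both j hjS i hiS (lt_of_lt_of_le e2 hi2) (lt_of_le_of_lt hj2 e1)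
    · have e1 := h2 j hjS hj1 hj2
      have e2 : a < A i := by
        by_contra hc
        exact absurd (h2 i hiS hi1 (not_lt.mp hc)) (not_lt.mpr hi2)
      exact both j hjS i hiS (lt_of_le_of_lt hj2 e2) (lt_of_lt_of_le e1 hi2)
    · by_contra hc
      exact absurd (htB j hjS i hiS (hj1.trans hi1) (not_lt.mp hc)) (not_lt.mpr (hj2.trans hi2))
  obtain ⟨g, hgF, hg1, hg2⟩ := exists_between_sets (Lo.image t) (Up.image t) F (by
    intro x hx y hy
    obtain ⟨j, hj, rfl⟩ := mem_image.mp hx
    obtain ⟨i, hi, rfl⟩ := mem_image.mp hy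
    exact key_lt j hj i hi)
  have hlo : ∀ j ∈ S, ((kx < key j ∧ A j ≤ a) ∨ (key j < kx ∧ B j ≤ b)) → t j < g :=
    fun j hj h => hg1 _ (mem_image_of_mem t (by rw [hLo, mem_filter]; exact ⟨hj, h⟩))
  have hup : ∀ i ∈ S, ((key i < kx ∧ a ≤ A i) ∨ (kx < key i ∧ b ≤ B i)) → g < t i :=
    fun i hi h => hg2 _ (mem_image_of_mem t (by rw [hUp, mem_filter]; exact ⟨hi, h⟩))
  refine ⟨g, hgF, fun i hi hk h => hup i hi (Or.inl ⟨hk, h⟩),
    fun i hi hk h => hlo i hi (Or.inl ⟨hk, h⟩), fun i hi hk h => ?_, fun i hi hk h => ?_⟩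
  · by_contra hc
    exact absurd (hlo i hi (Or.inr ⟨hk, not_lt.mp hc⟩)) (not_lt.mpr h)
  · by_contra hc
    exact absurd (hup i hi (Or.inr ⟨hk, not_lt.mp hc⟩)) (not_lt.mpr h)

/-- A model of the incidences between the points of `T` and the lines of `S`. -/
structure PR (inc : P → L → Prop) (T : Finset P) (S : Finset L) where
  key : L → ℝ
  tm : P → ℝ
  h : P → L → ℝ
  key_inj : ∀ i ∈ S, ∀ j ∈ S, key i = key j → i = j
  tm_inj : ∀ p ∈ T, ∀ q ∈ T, tm p = tm q → p = q
  rel : ∀ p ∈ T, ∀ q ∈ T, tm p < tm q → Rel S key (h p) (h q)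
  exact : ∀ p ∈ T, ∀ i ∈ S, h p i = 0 ↔ inc p i
  simple : ∀ p ∈ T, ∀ i ∈ S, ∀ j ∈ S, i ≠ j → h p i = h p j → h p i = 0

/-- Values of a new line on the snapshots of `U`. -/
def Vals {inc : P → L → Prop} {T : Finset P} {S : Finset L} (R : PR inc T S) (x : L) (kx : ℝ)
    (U : Finset P) (g : P → ℝ) : Prop :=
  (∀ p ∈ U, inc p x → g p = 0) ∧
  (∀ p ∈ U, ¬ inc p x → g p ≠ 0 ∧ ∀ i ∈ S, g p ≠ R.h p i) ∧
  (∀ p ∈ U, ∀ q ∈ U, R.tm p < R.tm q → ∀ i ∈ S,
    (R.key i < kx → g p ≤ R.h p i → g q < R.h q i) ∧
    (kx < R.key i → R.h p i ≤ g p → R.h q i < g q))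

theorem vals_step {inc : P → L → Prop} {T : Finset P} {S : Finset L} (R : PR inc T S) (x : L)
    (kx : ℝ) (U : Finset P) (hU : U ⊆ T) (g : P → ℝ) (hg : Vals R x kx U g) (t : P) (ht : t ∈ T)
    (htU : t ∉ U) (hinc : ¬ inc t x) : ∃ g' : P → ℝ, Vals R x kx (insert t U) g' := by
  classical
  obtain ⟨hg1, hg2, hg3⟩ := hg
  -- left neighbour
  obtain ⟨A, a, hA, hAtr, hAs⟩ : ∃ (A : L → ℝ) (a : ℝ), Rel S R.key A (R.h t) ∧
      (∀ p ∈ U, R.tm p < R.tm t → ∀ i ∈ S, (R.key i < kx → g p ≤ R.h p i → a ≤ A i) ∧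
        (kx < R.key i → R.h p i ≤ g p → A i ≤ a)) ∧
      ((A = R.key ∧ a = kx) ∨ ∃ p ∈ U, R.tm p < R.tm t ∧ A = R.h p ∧ a = g p) := by
    by_cases hne : (U.filter (fun p => R.tm p < R.tm t)).Nonempty
    · obtain ⟨p0, hp0, hmax⟩ := Finset.exists_max_image _ R.tm hne
      rw [mem_filter] at hp0
      refine ⟨R.h p0, g p0, R.rel p0 (hU hp0.1) t ht hp0.2, ?_, Or.inr ⟨p0, hp0.1, hp0.2, rfl, rfl⟩⟩
      intro p hp hpt i hi
      have hle := hmax p (mem_filter.mpr ⟨hp, hpt⟩)
      rcases lt_or_eq_of_le hle with hlt | heq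
      · exact ⟨fun hk h => ((hg3 p hp p0 hp0.1 hlt i hi).1 hk h).le,
          fun hk h => ((hg3 p hp p0 hp0.1 hlt i hi).2 hk h).le⟩
      · have := R.tm_inj p (hU hp) p0 (hU hp0.1) heq
        subst this
        exact ⟨fun _ h => h, fun _ h => h⟩
    · refine ⟨R.key, kx, rel_key _ _ _, ?_, Or.inl ⟨rfl, rfl⟩⟩
      intro p hp hpt
      exact absurd ⟨p, mem_filter.mpr ⟨hp, hpt⟩⟩ hne
  -- right neighbour
  obtain ⟨B, b, hB, hBtr, hBs⟩ : ∃ (B : L → ℝ) (b : ℝ), Rel S R.key (R.h t) B ∧
      (∀ p ∈ U, R.tm t < R.tm p → ∀ i ∈ S, (R.key i < kx → b < B i → g p < R.h p i) ∧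
        (kx < R.key i → B i < b → R.h p i < g p)) ∧
      ((B = (fun i => - R.key i) ∧ b = -kx) ∨
        ∃ p ∈ U, R.tm t < R.tm p ∧ B = R.h p ∧ b = g p) := by
    by_cases hne : (U.filter (fun p => R.tm t < R.tm p)).Nonempty
    · obtain ⟨p0, hp0, hmin⟩ := Finset.exists_min_image _ R.tm hne
      rw [mem_filter] at hp0
      refine ⟨R.h p0, g p0, R.rel t ht p0 (hU hp0.1) hp0.2, ?_, Or.inr ⟨p0, hp0.1, hp0.2, rfl, rfl⟩⟩
      intro p hp hpt i hi
      have hle := hmin p (mem_filter.mpr ⟨hp, hpt⟩)
      rcases lt_or_eq_of_le hle with hlt | heq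
      · exact ⟨fun hk h => (hg3 p0 hp0.1 p hp hlt i hi).1 hk h.le,
          fun hk h => (hg3 p0 hp0.1 p hp hlt i hi).2 hk h.le⟩
      · have := R.tm_inj p0 (hU hp0.1) p (hU hp) heq
        subst this
        exact ⟨fun _ h => h, fun _ h => h⟩
    · refine ⟨fun i => - R.key i, -kx, rel_neg _ _ _, ?_, Or.inl ⟨rfl, rfl⟩⟩
      intro p hp hpt
      exact absurd ⟨p, mem_filter.mpr ⟨hp, hpt⟩⟩ hne
  have h1 : ∀ i ∈ S, R.key i < kx → a ≤ A i → b < B i := by
    intro i hi hk h
    rcases hBs with ⟨rfl, rfl⟩ | ⟨q, hq, hqt, rfl, rfl⟩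
    · exact neg_lt_neg hk
    · rcases hAs with ⟨rfl, rfl⟩ | ⟨p, hp, hpt, rfl, rfl⟩
      · exact absurd hk (not_lt.mpr h)
      · exact (hg3 p hp q hq (hpt.trans hqt) i hi).1 hk h
  have h2 : ∀ i ∈ S, kx < R.key i → A i ≤ a → B i < b := by
    intro i hi hk h
    rcases hBs with ⟨rfl, rfl⟩ | ⟨q, hq, hqt, rfl, rfl⟩
    · exact neg_lt_neg hk
    · rcases hAs with ⟨rfl, rfl⟩ | ⟨p, hp, hpt, rfl, rfl⟩
      · exact absurd hk (not_lt.mpr h)
      · exact (hg3 p hp q hq (hpt.trans hqt) i hi).2 hk h
  obtain ⟨v, hvF, hv1, hv2, hv3, hv4⟩ := exists_value S R.key A (R.h t) B kx a b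
    (insert 0 (S.image (R.h t))) R.key_inj hA hB h1 h2
  have hne : ∀ p ∈ U, p ≠ t := fun p hp h => htU (h ▸ hp)
  refine ⟨Function.update g t v, ?_, ?_, ?_⟩
  · intro p hp hpx
    rcases mem_insert.mp hp with rfl | hp
    · exact absurd hpx hinc
    · rw [Function.update_of_ne (hne p hp)]
      exact hg1 p hp hpx
  · intro p hp hpx
    rcases mem_insert.mp hp with rfl | hp
    · rw [Function.update_self]
      rw [mem_insert, not_or] at hvF
      exact ⟨hvF.1, fun i hi h => hvF.2 (mem_image.mpr ⟨i, hi, h.symm⟩)⟩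
    · rw [Function.update_of_ne (hne p hp)]
      exact hg2 p hp hpx
  · intro p hp' q hq' hpq i hi
    rcases mem_insert.mp hp' with rfl | hp <;> rcases mem_insert.mp hq' with rfl | hq
    · exact absurd hpq (lt_irrefl _)
    · rw [Function.update_self, Function.update_of_ne (hne q hq)]
      exact ⟨fun hk h => (hBtr q hq hpq i hi).1 hk (hv3 i hi hk h),
        fun hk h => (hBtr q hq hpq i hi).2 hk (hv4 i hi hk h)⟩
    · rw [Function.update_self, Function.update_of_ne (hne p hp)]
      exact ⟨fun hk h => hv1 i hi hk ((hAtr p hp hpq i hi).1 hk h),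
        fun hk h => hv2 i hi hk ((hAtr p hp hpq i hi).2 hk h)⟩
    · rw [Function.update_of_ne (hne p hp), Function.update_of_ne (hne q hq)]
      exact hg3 p hp q hq hpq i hi

theorem vals_all {inc : P → L → Prop} {T : Finset P} {S : Finset L} (R : PR inc T S) (x : L)
    (kx : ℝ)
    (hanchor : ∀ p ∈ T, ∀ q ∈ T, inc p x → inc q x → R.tm p < R.tm q → ∀ i ∈ S,
      (R.key i < kx → 0 ≤ R.h p i → 0 < R.h q i) ∧
      (kx < R.key i → R.h p i ≤ 0 → R.h q i < 0)) :
    ∃ g : P → ℝ, Vals R x kx T g := by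
  classical
  have main : ∀ W : Finset P, W ⊆ T → ∃ g : P → ℝ,
      Vals R x kx ((T.filter (fun p => inc p x)) ∪ W.filter (fun p => ¬ inc p x)) g := by
    intro W
    induction W using Finset.induction_on with
    | empty =>
      intro _
      refine ⟨fun _ => 0, fun _ _ _ => rfl, ?_, ?_⟩
      · intro p hp hpx
        simp at hp
        exact absurd hp.2 hpx
      · intro p hp q hq hpq i hi
        simp at hp hq
        exact hanchor p hp.1 q hq.1 hp.2 hq.2 hpq i hi
    | insert t W htW ih =>
      intro hW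
      obtain ⟨g, hg⟩ := ih (fun y hy => hW (mem_insert_of_mem hy))
      by_cases hinc : inc t x
      · refine ⟨g, ?_⟩
        have : (insert t W).filter (fun p => ¬ inc p x) = W.filter (fun p => ¬ inc p x) := by
          rw [filter_insert, if_neg (not_not.mpr hinc)]
        rw [this]
        exact hg
      · have e1 : (insert t W).filter (fun p => ¬ inc p x) =
            insert t (W.filter (fun p => ¬ inc p x)) := by
          rw [filter_insert, if_pos hinc]
        have e2 : (T.filter (fun p => inc p x)) ∪ insert t (W.filter (fun p => ¬ inc p x)) =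
            insert t ((T.filter (fun p => inc p x)) ∪ W.filter (fun p => ¬ inc p x)) := by
          rw [union_insert]
        rw [e1, e2]
        refine vals_step R x kx _ ?_ g hg t (hW (mem_insert_self _ _)) ?_ hinc
        · intro y hy
          rcases mem_union.mp hy with hy | hy
          · exact (mem_filter.mp hy).1
          · exact hW (mem_insert_of_mem (mem_filter.mp hy).1)
        · intro hmem
          rcases mem_union.mp hmem with hy | hy
          · exact hinc (mem_filter.mp hy).2
          · exact htW (mem_filter.mp hy).1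
  obtain ⟨g, hg⟩ := main T (Finset.Subset.refl _)
  refine ⟨g, ?_⟩
  have : (T.filter (fun p => inc p x)) ∪ T.filter (fun p => ¬ inc p x) = T :=
    Finset.filter_union_filter_not_eq _ _
  rw [this] at hg
  exact hg

/-- Insertion of a line through at most two of the points. -/
theorem PR.addLine {inc : P → L → Prop} {T : Finset P} {S : Finset L} (R : PR inc T S) (x : L)
    (hx : x ∉ S)
    (lin : ∀ p ∈ T, ∀ q ∈ T, p ≠ q → inc p x → inc q x → ∀ i ∈ S, ¬ (inc p i ∧ inc q i))
    (hcard : ∀ p ∈ T, ∀ q ∈ T, ∀ r ∈ T, inc p x → inc q x → inc r x → p = q ∨ p = r ∨ q = r) :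
    Nonempty (PR inc T (insert x S)) := by
  classical
  -- choice of the key
  obtain ⟨kx, hkx, hanchor⟩ : ∃ kx : ℝ, (∀ i ∈ S, R.key i ≠ kx) ∧
      (∀ p ∈ T, ∀ q ∈ T, inc p x → inc q x → R.tm p < R.tm q → ∀ i ∈ S,
      (R.key i < kx → 0 ≤ R.h p i → 0 < R.h q i) ∧
      (kx < R.key i → R.h p i ≤ 0 → R.h q i < 0)) := by
    by_cases hpair : ∃ p ∈ T, ∃ q ∈ T, inc p x ∧ inc q x ∧ R.tm p < R.tm q
    · obtain ⟨p, hp, q, hq, hpx, hqx, hpq⟩ := hpair
      have hne : p ≠ q := fun h => by subst h; exact lt_irrefl _ hpq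
      set up := S.filter (fun i => R.h p i ≤ 0 ∧ 0 ≤ R.h q i) with hup
      set dn := S.filter (fun i => 0 ≤ R.h p i ∧ R.h q i ≤ 0) with hdn
      obtain ⟨kx, hkF, hk1, hk2⟩ := exists_between_sets (up.image R.key) (dn.image R.key)
        (S.image R.key) (by
          intro a ha b hb
          obtain ⟨i, hi, rfl⟩ := mem_image.mp ha
          obtain ⟨j, hj, rfl⟩ := mem_image.mp hb
          rw [hup, mem_filter] at hi
          rw [hdn, mem_filter] at hj
          by_contra hc
          have hc := not_lt.mp hc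
          rcases lt_or_eq_of_le hc with hlt | heq
          · have := R.rel p hp q hq hpq j hj.1 i hi.1 hlt (hi.2.1.trans hj.2.1)
            exact absurd (hj.2.2.trans hi.2.2) (not_le.mpr this)
          · have := R.key_inj j hj.1 i hi.1 heq
            subst this
            exact lin p hp q hq hne hpx hqx j hj.1
              ⟨(R.exact p hp j hj.1).mp (le_antisymm hi.2.1 hj.2.1),
                (R.exact q hq j hj.1).mp (le_antisymm hj.2.2 hi.2.2)⟩)
      refine ⟨kx, fun i hi h => hkF (mem_image.mpr ⟨i, hi, h⟩), ?_⟩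
      intro p' hp' q' hq' hpx' hqx' hpq' i hi
      have hpp : p' = p ∧ q' = q := by
        have h1 := hcard p hp q hq p' hp' hpx hqx hpx'
        have h2 := hcard p hp q hq q' hq' hpx hqx hqx'
        rcases h1 with h1 | h1 | h1
        · exact absurd h1 hne
        · subst h1
          rcases h2 with h2 | h2 | h2
          · exact absurd h2 hne
          · subst h2; exact absurd hpq' (lt_irrefl _)
          · exact ⟨rfl, h2.symm⟩
        · subst h1
          rcases h2 with h2 | h2 | h2
          · exact absurd h2 hne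
          · subst h2; exact absurd hpq' (lt_asymm hpq)
          · subst h2; exact absurd hpq' (lt_irrefl _)
      obtain ⟨rfl, rfl⟩ := hpp
      constructor
      · intro hk h
        by_contra hc
        have := hk2 (R.key i) (mem_image_of_mem _ (by
          rw [hdn, mem_filter]; exact ⟨hi, h, not_lt.mp hc⟩))
        exact absurd hk (lt_asymm this)
      · intro hk h
        by_contra hc
        have := hk1 (R.key i) (mem_image_of_mem _ (by
          rw [hup, mem_filter]; exact ⟨hi, h, not_lt.mp hc⟩))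
        exact absurd hk (lt_asymm this)
    · obtain ⟨kx, hkF, -, -⟩ := exists_between_sets ∅ ∅ (S.image R.key) (by simp)
      refine ⟨kx, fun i hi h => hkF (mem_image.mpr ⟨i, hi, h⟩), ?_⟩
      intro p hp q hq hpx hqx hpq
      exact absurd ⟨p, hp, q, hq, hpx, hqx, hpq⟩ hpair
  obtain ⟨g, hg1, hg2, hg3⟩ := vals_all R x kx hanchor
  have hxS : ∀ i ∈ S, i ≠ x := fun i hi h => hx (h ▸ hi)
  refine ⟨{ key := Function.update R.key x kx, tm := R.tm,
            h := fun p => Function.update (R.h p) x (g p), key_inj := ?_, tm_inj := R.tm_inj,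
            rel := ?_, exact := ?_, simple := ?_ }⟩
  · intro i hi' j hj' hij
    rcases mem_insert.mp hi' with rfl | hi <;> rcases mem_insert.mp hj' with rfl | hj
    · rfl
    · rw [Function.update_self, Function.update_of_ne (hxS j hj)] at hij
      exact absurd hij.symm (hkx j hj)
    · rw [Function.update_self, Function.update_of_ne (hxS i hi)] at hij
      exact absurd hij (hkx i hi)
    · rw [Function.update_of_ne (hxS i hi), Function.update_of_ne (hxS j hj)] at hij
      exact R.key_inj i hi j hj hij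
  · intro p hp q hq hpq i hi' j hj'
    rcases mem_insert.mp hi' with rfl | hi <;> rcases mem_insert.mp hj' with rfl | hj
    · intro hk; exact absurd hk (lt_irrefl _)
    · simp only [Function.update_self, Function.update_of_ne (hxS j hj)]
      exact (hg3 p hp q hq hpq j hj).2
    · simp only [Function.update_self, Function.update_of_ne (hxS i hi)]
      exact (hg3 p hp q hq hpq i hi).1
    · simp only [Function.update_of_ne (hxS i hi), Function.update_of_ne (hxS j hj)]
      exact R.rel p hp q hq hpq i hi j hj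
  · intro p hp i hi
    rcases mem_insert.mp hi with rfl | hi
    · simp only [Function.update_self]
      exact ⟨fun h => by_contra fun hc => (hg2 p hp hc).1 h, fun h => hg1 p hp h⟩
    · simp only [Function.update_of_ne (hxS i hi)]
      exact R.exact p hp i hi
  · intro p hp i hi' j hj' hij
    have hx0 : ∀ j ∈ S, g p = R.h p j → g p = 0 := by
      intro j hj h
      by_contra hc
      by_cases hpx : inc p x
      · exact hc (hg1 p hp hpx)
      · exact (hg2 p hp hpx).2 j hj h
    rcases mem_insert.mp hi' with rfl | hi <;> rcases mem_insert.mp hj' with rfl | hj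
    · exact absurd rfl hij
    · simp only [Function.update_self, Function.update_of_ne (hxS j hj)]
      exact hx0 j hj
    · simp only [Function.update_self, Function.update_of_ne (hxS i hi)]
      intro h
      rw [h]
      exact hx0 i hi h.symm
    · simp only [Function.update_of_ne (hxS i hi), Function.update_of_ne (hxS j hj)]
      exact R.simple p hp i hi j hj hij

/-- Replace values in a linear order by real numbers, for finitely many lines. -/
theorem exists_real {α : Type*} [LinearOrder α] (S : Finset L) (w : L → α) (z : α) :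
    ∃ w' : L → ℝ, (∀ i ∈ S, ∀ j ∈ S, (w' i < w' j ↔ w i < w j)) ∧
      (∀ i ∈ S, (w' i = 0 ↔ w i = z)) := by
  classical
  set X : Finset α := insert z (S.image w) with hX
  let rank : α → ℕ := fun a => (X.filter (fun b => b < a)).card
  have mono : ∀ a ∈ X, ∀ b : α, a < b → rank a < rank b := by
    intro a ha b hab
    apply Finset.card_lt_card
    rw [Finset.ssubset_iff_of_subset]
    · exact ⟨a, by simp [ha, hab], by simp⟩
    · intro c hc
      rw [mem_filter] at hc ⊢
      exact ⟨hc.1, hc.2.trans hab⟩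
  have mem : ∀ i ∈ S, w i ∈ X := fun i hi => mem_insert_of_mem (mem_image_of_mem _ hi)
  have hz : z ∈ X := mem_insert_self _ _
  have lt_iff : ∀ a ∈ X, ∀ b ∈ X, (rank a < rank b ↔ a < b) := by
    intro a ha b hb
    constructor
    · intro h
      by_contra hc
      rcases lt_or_eq_of_le (not_lt.mp hc) with h1 | h1
      · exact absurd (mono b hb a h1) (not_lt.mpr h.le)
      · subst h1
        exact absurd h (lt_irrefl _)
    · exact mono a ha b
  refine ⟨fun i => (rank (w i) : ℝ) - rank z, ?_, ?_⟩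
  · intro i hi j hj
    rw [← lt_iff _ (mem i hi) _ (mem j hj)]
    constructor
    · intro h
      have : (rank (w i) : ℝ) < rank (w j) := by linarith
      exact_mod_cast this
    · intro h
      have : (rank (w i) : ℝ) < rank (w j) := by exact_mod_cast h
      linarith
  · intro i hi
    constructor
    · intro h
      have h' : (rank (w i) : ℝ) = rank z := by linarith
      have h' : rank (w i) = rank z := by exact_mod_cast h'
      rcases lt_trichotomy (w i) z with h1 | h1 | h1
      · exact absurd ((lt_iff _ (mem i hi) _ hz).mpr h1) (by rw [h']; exact lt_irrefl _)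
      · exact h1
      · exact absurd ((lt_iff _ hz _ (mem i hi)).mpr h1) (by rw [h']; exact lt_irrefl _)
    · intro h
      show (rank (w i) : ℝ) - rank z = 0
      rw [h]
      ring

/-- Insert a point whose snapshot `w` fits between the earlier and the later ones. -/
theorem PR.insertSnapshot {α : Type*} [LinearOrder α] {inc : P → L → Prop} {T : Finset P}
    {S : Finset L} (R : PR inc T S) (p : P) (hp : p ∉ T) (x : ℝ) (w : L → α) (z : α)
    (hx : ∀ q ∈ T, R.tm q ≠ x)
    (hw1 : ∀ q ∈ T, R.tm q < x → Rel S R.key (R.h q) w)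
    (hw2 : ∀ q ∈ T, x < R.tm q → Rel S R.key w (R.h q))
    (hex : ∀ i ∈ S, w i = z ↔ inc p i)
    (hsimple : ∀ i ∈ S, ∀ j ∈ S, i ≠ j → w i = w j → w i = z) :
    Nonempty (PR inc (insert p T) S) := by
  classical
  obtain ⟨w', hw'1, hw'2⟩ := exists_real S w z
  have hne : ∀ q ∈ T, q ≠ p := fun q hq h => hp (h ▸ hq)
  have hle : ∀ i ∈ S, ∀ j ∈ S, (w' i ≤ w' j ↔ w i ≤ w j) := by
    intro i hi j hj
    rw [← not_lt, ← not_lt, hw'1 j hj i hi]
  refine ⟨{ key := R.key, tm := Function.update R.tm p x, h := Function.update R.h p w',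
            key_inj := R.key_inj, tm_inj := ?_, rel := ?_, exact := ?_, simple := ?_ }⟩
  · intro a ha' b hb' hab
    rcases mem_insert.mp ha' with rfl | ha <;> rcases mem_insert.mp hb' with rfl | hb
    · rfl
    · rw [Function.update_self, Function.update_of_ne (hne b hb)] at hab
      exact absurd hab.symm (hx b hb)
    · rw [Function.update_self, Function.update_of_ne (hne a ha)] at hab
      exact absurd hab (hx a ha)
    · rw [Function.update_of_ne (hne a ha), Function.update_of_ne (hne b hb)] at hab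
      exact R.tm_inj a ha b hb hab
  · intro a ha' b hb' hab
    rcases mem_insert.mp ha' with rfl | ha <;> rcases mem_insert.mp hb' with rfl | hb
    · exact absurd hab (lt_irrefl _)
    · rw [Function.update_self, Function.update_of_ne (hne b hb)] at hab ⊢
      intro i hi j hj hk h
      exact hw2 b hb hab i hi j hj hk ((hle j hj i hi).mp h)
    · rw [Function.update_self, Function.update_of_ne (hne a ha)] at hab ⊢
      intro i hi j hj hk h
      exact (hw'1 j hj i hi).mpr (hw1 a ha hab i hi j hj hk h)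
    · rw [Function.update_of_ne (hne a ha), Function.update_of_ne (hne b hb)] at hab ⊢
      exact R.rel a ha b hb hab
  · intro a ha' i hi
    rcases mem_insert.mp ha' with rfl | ha
    · rw [Function.update_self, hw'2 i hi]
      exact hex i hi
    · rw [Function.update_of_ne (hne a ha)]
      exact R.exact a ha i hi
  · intro a ha' i hi j hj hij
    rcases mem_insert.mp ha' with rfl | ha
    · rw [Function.update_self, hw'2 i hi]
      intro h
      apply hsimple i hi j hj hij
      apply le_antisymm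
      · exact (hle i hi j hj).mp h.le
      · exact (hle j hj i hi).mp h.ge
    · rw [Function.update_of_ne (hne a ha)]
      exact R.simple a ha i hi j hj hij

/-- Insertion of a point on at most one of the lines. -/
theorem PR.addPoint_one {inc : P → L → Prop} {T : Finset P} {S : Finset L} (R : PR inc T S)
    (p : P) (hp : p ∉ T) (hcard : ∀ i ∈ S, ∀ j ∈ S, inc p i → inc p j → i = j) :
    Nonempty (PR inc (insert p T) S) := by
  classical
  obtain ⟨x, -, hx, -⟩ := exists_between_sets (T.image R.tm) ∅ ∅ (by simp)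
  have hx' : ∀ q ∈ T, R.tm q < x := fun q hq => hx _ (mem_image_of_mem _ hq)
  obtain ⟨c, hc⟩ : ∃ c : ℝ, ∀ i ∈ S, (R.key i = c ↔ inc p i) := by
    by_cases h : ∃ a ∈ S, inc p a
    · obtain ⟨a, ha, hpa⟩ := h
      refine ⟨R.key a, fun i hi => ⟨fun h => ?_, fun h => ?_⟩⟩
      · rw [R.key_inj i hi a ha h]; exact hpa
      · rw [hcard i hi a ha h hpa]
    · obtain ⟨c, hc, -, -⟩ := exists_between_sets ∅ ∅ (S.image R.key) (by simp)
      exact ⟨c, fun i hi => ⟨fun h' => absurd (mem_image.mpr ⟨i, hi, h'⟩) hc,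
        fun h' => absurd ⟨i, hi, h'⟩ h⟩⟩
  refine R.insertSnapshot p hp x (fun i => - R.key i) (-c) (fun q hq => (hx' q hq).ne)
    (fun q hq _ => rel_neg _ _ _) (fun q hq h => absurd h (lt_asymm (hx' q hq))) ?_ ?_
  · intro i hi
    rw [neg_inj]
    exact hc i hi
  · intro i hi j hj hij h
    exact absurd (R.key_inj i hi j hj (neg_inj.mp h)) hij

/-- The combinatorial lemma behind the insertion of a crossing of two lines `a`, `b`. -/
theorem exists_tie {α β : Type*} [LinearOrder α] [LinearOrder β] (S : Finset L) (key : L → ℝ)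
    (u : L → α) (v : L → β) (a b : L)
    (huv : Rel S key u v) (hab : key a < key b) (hua : u a < u b) (hvb : v b < v a) :
    ∃ (cls : L → ℤ), (∀ i ∈ S, (cls i = 0 ↔ i = a ∨ i = b)) ∧
      (∀ i ∈ S, ∀ j ∈ S, key i < key j → u j < u i → (cls j < cls i ∨ (cls j = cls i ∧ cls i ≠ 0))) ∧
      (∀ i ∈ S, ∀ j ∈ S, key i < key j → v i < v j → (cls i < cls j ∨ (cls i = cls j ∧ cls i ≠ 0))) := by
  classical
  have hne : a ≠ b := fun h => by subst h; exact lt_irrefl _ hab
  set cls : L → ℤ := fun i => if i = a ∨ i = b then 0 else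
    if u i < u a ∨ (u i < u b ∧ v i < v a) then -1 else 1 with hcls
  have c0 : ∀ i, (i = a ∨ i = b) → cls i = 0 := fun i h => by simp only [hcls, if_pos h]
  have cm : ∀ i, ¬ (i = a ∨ i = b) → (u i < u a ∨ (u i < u b ∧ v i < v a)) → cls i = -1 :=
    fun i h h' => by simp only [hcls, if_neg h, if_pos h']
  have cp : ∀ i, ¬ (i = a ∨ i = b) → ¬ (u i < u a ∨ (u i < u b ∧ v i < v a)) → cls i = 1 :=
    fun i h h' => by simp only [hcls, if_neg h, if_neg h']
  have h0 : ∀ i, cls i = 0 ↔ i = a ∨ i = b := by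
    intro i
    constructor
    · intro h
      by_contra hc
      by_cases h' : u i < u a ∨ (u i < u b ∧ v i < v a)
      · rw [cm i hc h'] at h; norm_num at h
      · rw [cp i hc h'] at h; norm_num at h
    · exact c0 i
  refine ⟨cls, fun i _ => h0 i, ?_, ?_⟩
  · intro i hi j hj hk h
    have hv : v j < v i := huv i hi j hj hk h.le
    have hij : i ≠ j := fun h' => by subst h'; exact lt_irrefl _ hk
    by_cases hi0 : i = a ∨ i = b
    · by_cases hj0 : j = a ∨ j = b
      · rcases hi0 with rfl | rfl <;> rcases hj0 with rfl | rfl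
        · exact absurd rfl hij
        · exact absurd h (lt_asymm hua)
        · exact absurd hk (lt_asymm hab)
        · exact absurd rfl hij
      · left
        have : u j < u a ∨ (u j < u b ∧ v j < v a) := by
          rcases hi0 with rfl | rfl
          · exact Or.inl h
          · exact Or.inr ⟨h, hv.trans hvb⟩
        rw [c0 i hi0, cm j hj0 this]
        norm_num
    · by_cases hj0 : j = a ∨ j = b
      · left
        have : ¬ (u i < u a ∨ (u i < u b ∧ v i < v a)) := by
          rintro (h1 | ⟨h1, h2⟩)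
          · rcases hj0 with rfl | rfl
            · exact absurd h (lt_asymm h1)
            · exact absurd (h1.trans hua) (lt_asymm h)
          · rcases hj0 with rfl | rfl
            · exact absurd hv (lt_asymm h2)
            · exact absurd h (lt_asymm h1)
        rw [c0 j hj0, cp i hi0 this]
        norm_num
      · by_cases hi1 : u i < u a ∨ (u i < u b ∧ v i < v a)
        · have : u j < u a ∨ (u j < u b ∧ v j < v a) := by
            rcases hi1 with h1 | ⟨h1, h2⟩
            · exact Or.inl (h.trans h1)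
            · exact Or.inr ⟨h.trans h1, hv.trans h2⟩
          right
          rw [cm i hi0 hi1, cm j hj0 this]
          norm_num
        · rw [cp i hi0 hi1]
          by_cases hj1 : u j < u a ∨ (u j < u b ∧ v j < v a)
          · left; rw [cm j hj0 hj1]; norm_num
          · right; rw [cp j hj0 hj1]; norm_num
  · intro i hi j hj hk h
    have hij : i ≠ j := fun h' => by subst h'; exact lt_irrefl _ hk
    have hu' : u i < u j := by
      by_contra hc
      exact absurd (huv i hi j hj hk (not_lt.mp hc)) (lt_asymm h)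
    by_cases hi0 : i = a ∨ i = b
    · by_cases hj0 : j = a ∨ j = b
      · rcases hi0 with rfl | rfl <;> rcases hj0 with rfl | rfl
        · exact absurd rfl hij
        · exact absurd h (lt_asymm hvb)
        · exact absurd hk (lt_asymm hab)
        · exact absurd rfl hij
      · left
        have : ¬ (u j < u a ∨ (u j < u b ∧ v j < v a)) := by
          rintro (h1 | ⟨h1, h2⟩)
          · rcases hi0 with rfl | rfl
            · exact absurd hu' (lt_asymm h1)
            · exact absurd (h1.trans hua) (lt_asymm hu')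
          · rcases hi0 with rfl | rfl
            · exact absurd h (lt_asymm h2)
            · exact absurd h1 (lt_asymm hu')
        rw [c0 i hi0, cp j hj0 this]
        norm_num
    · by_cases hj0 : j = a ∨ j = b
      · left
        have : u i < u a ∨ (u i < u b ∧ v i < v a) := by
          rcases hj0 with rfl | rfl
          · exact Or.inl hu'
          · exact Or.inr ⟨hu', h.trans hvb⟩
        rw [c0 j hj0, cm i hi0 this]
        norm_num
      · by_cases hj1 : u j < u a ∨ (u j < u b ∧ v j < v a)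
        · have : u i < u a ∨ (u i < u b ∧ v i < v a) := by
            rcases hj1 with h1 | ⟨h1, h2⟩
            · exact Or.inl (hu'.trans h1)
            · exact Or.inr ⟨hu'.trans h1, h.trans h2⟩
          right
          rw [cm i hi0 this, cm j hj0 hj1]
          norm_num
        · rw [cp j hj0 hj1]
          by_cases hi1 : u i < u a ∨ (u i < u b ∧ v i < v a)
          · left; rw [cm i hi0 hi1]; norm_num
          · right; rw [cp i hi0 hi1]; norm_num

/-- Insertion of the crossing point of two lines. -/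
theorem PR.addPoint_two {inc : P → L → Prop} {T : Finset P} {S : Finset L} (R : PR inc T S)
    (p : P) (hp : p ∉ T) (a b : L) (ha : a ∈ S) (hb : b ∈ S) (hab : R.key a < R.key b)
    (hinc : ∀ i ∈ S, inc p i ↔ i = a ∨ i = b) (hno : ∀ q ∈ T, ¬ (inc q a ∧ inc q b)) :
    Nonempty (PR inc (insert p T) S) := by
  classical
  have hne : a ≠ b := fun h => by subst h; exact lt_irrefl _ hab
  have hsep : ∀ q ∈ T, R.h q a ≠ R.h q b := by
    intro q hq h
    have h0 := R.simple q hq a ha b hb hne h
    exact hno q hq ⟨(R.exact q hq a ha).mp h0, (R.exact q hq b hb).mp (h ▸ h0)⟩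
  obtain ⟨x, -, hx1, hx2⟩ := exists_between_sets
    ((T.filter (fun q => R.h q a < R.h q b)).image R.tm)
    ((T.filter (fun q => R.h q b < R.h q a)).image R.tm) ∅ (by
      intro s hs t ht
      obtain ⟨q, hq, rfl⟩ := mem_image.mp hs
      obtain ⟨r, hr, rfl⟩ := mem_image.mp ht
      rw [mem_filter] at hq hr
      by_contra hc
      rcases lt_or_eq_of_le (not_lt.mp hc) with h | h
      · exact absurd (R.rel r hr.1 q hq.1 h a ha b hb hab hr.2.le) (lt_asymm hq.2)
      · have := R.tm_inj r hr.1 q hq.1 h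
        subst this
        exact absurd hq.2 (lt_asymm hr.2))
  have hx1' : ∀ q ∈ T, R.h q a < R.h q b → R.tm q < x :=
    fun q hq h => hx1 _ (mem_image_of_mem _ (mem_filter.mpr ⟨hq, h⟩))
  have hx2' : ∀ q ∈ T, R.h q b < R.h q a → x < R.tm q :=
    fun q hq h => hx2 _ (mem_image_of_mem _ (mem_filter.mpr ⟨hq, h⟩))
  have hxl : ∀ q ∈ T, R.tm q < x → R.h q a < R.h q b := by
    intro q hq h
    rcases lt_trichotomy (R.h q a) (R.h q b) with h1 | h1 | h1
    · exact h1
    · exact absurd h1 (hsep q hq)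
    · exact absurd h (lt_asymm (hx2' q hq h1))
  have hxr : ∀ q ∈ T, x < R.tm q → R.h q b < R.h q a := by
    intro q hq h
    rcases lt_trichotomy (R.h q a) (R.h q b) with h1 | h1 | h1
    · exact absurd h (lt_asymm (hx1' q hq h1))
    · exact absurd h1 (hsep q hq)
    · exact h1
  have hxne : ∀ q ∈ T, R.tm q ≠ x := by
    intro q hq h
    rcases lt_or_gt_of_ne (hsep q hq) with h1 | h1
    · exact absurd h (hx1' q hq h1).ne
    · exact absurd h (hx2' q hq h1).ne'
  -- the last snapshot before, the first snapshot after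
  obtain ⟨u0, hu0, hu1, hu2⟩ : ∃ u0 : L → ℝ, u0 a < u0 b ∧
      (∀ q ∈ T, R.tm q < x → R.h q = u0 ∨ Rel S R.key (R.h q) u0) ∧
      (u0 = R.key ∨ ∃ q ∈ T, R.tm q < x ∧ u0 = R.h q) := by
    by_cases hn : (T.filter (fun q => R.tm q < x)).Nonempty
    · obtain ⟨q0, hq0, hmax⟩ := Finset.exists_max_image _ R.tm hn
      rw [mem_filter] at hq0
      refine ⟨R.h q0, hxl q0 hq0.1 hq0.2, ?_, Or.inr ⟨q0, hq0.1, hq0.2, rfl⟩⟩
      intro q hq hqx
      rcases lt_or_eq_of_le (hmax q (mem_filter.mpr ⟨hq, hqx⟩)) with h | h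
      · exact Or.inr (R.rel q hq q0 hq0.1 h)
      · exact Or.inl (by rw [R.tm_inj q hq q0 hq0.1 h])
    · refine ⟨R.key, hab, ?_, Or.inl rfl⟩
      intro q hq hqx
      exact absurd ⟨q, mem_filter.mpr ⟨hq, hqx⟩⟩ hn
  obtain ⟨v0, hv0, hv1, hv2⟩ : ∃ v0 : L → ℝ, v0 b < v0 a ∧
      (∀ q ∈ T, x < R.tm q → R.h q = v0 ∨ Rel S R.key v0 (R.h q)) ∧
      (v0 = (fun i => - R.key i) ∨ ∃ q ∈ T, x < R.tm q ∧ v0 = R.h q) := by
    by_cases hn : (T.filter (fun q => x < R.tm q)).Nonempty
    · obtain ⟨q0, hq0, hmin⟩ := Finset.exists_min_image _ R.tm hn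
      rw [mem_filter] at hq0
      refine ⟨R.h q0, hxr q0 hq0.1 hq0.2, ?_, Or.inr ⟨q0, hq0.1, hq0.2, rfl⟩⟩
      intro q hq hqx
      rcases lt_or_eq_of_le (hmin q (mem_filter.mpr ⟨hq, hqx⟩)) with h | h
      · exact Or.inr (R.rel q0 hq0.1 q hq h)
      · exact Or.inl (by rw [R.tm_inj q0 hq0.1 q hq h])
    · refine ⟨fun i => - R.key i, neg_lt_neg hab, ?_, Or.inl rfl⟩
      intro q hq hqx
      exact absurd ⟨q, mem_filter.mpr ⟨hq, hqx⟩⟩ hn
  have huv0 : Rel S R.key u0 v0 := by
    rcases hv2 with rfl | ⟨r, hr, hrx, rfl⟩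
    · exact rel_neg _ _ _
    · rcases hu2 with rfl | ⟨q, hq, hqx, rfl⟩
      · exact rel_key _ _ _
      · exact R.rel q hq r hr (hqx.trans hrx)
  set u : L → ℝ ×ₗ ℝ := fun i => toLex (u0 i, - R.key i) with hu
  set v : L → ℝ ×ₗ ℝ := fun i => toLex (v0 i, R.key i) with hv
  have ult : ∀ i j, u i < u j ↔ u0 i < u0 j ∨ (u0 i = u0 j ∧ - R.key i < - R.key j) := by
    intro i j
    simp only [hu, Prod.Lex.toLex_lt_toLex]
  have vlt : ∀ i j, v i < v j ↔ v0 i < v0 j ∨ (v0 i = v0 j ∧ R.key i < R.key j) := by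
    intro i j
    simp only [hv, Prod.Lex.toLex_lt_toLex]
  have ule : ∀ i j, u i ≤ u j → u0 i ≤ u0 j := by
    intro i j h
    by_contra hc
    exact absurd ((ult j i).mpr (Or.inl (not_le.mp hc))) (not_lt.mpr h)
  have vle : ∀ i j, R.key i < R.key j → v j ≤ v i → v0 j < v0 i := by
    intro i j hk h
    by_contra hc
    rcases lt_or_eq_of_le (not_lt.mp hc) with h1 | h1
    · exact absurd ((vlt i j).mpr (Or.inl h1)) (not_lt.mpr h)
    · exact absurd ((vlt i j).mpr (Or.inr ⟨h1, hk⟩)) (not_lt.mpr h)
  have huvR : Rel S R.key u v := by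
    intro i hi j hj hk h
    exact (vlt j i).mpr (Or.inl (huv0 i hi j hj hk (ule j i h)))
  have hqu : ∀ q ∈ T, R.tm q < x → Rel S R.key (R.h q) u := by
    intro q hq hqx i hi j hj hk h
    rw [ult]
    rcases hu1 q hq hqx with h1 | h1
    · rw [h1] at h
      rcases lt_or_eq_of_le h with h2 | h2
      · exact Or.inl h2
      · exact Or.inr ⟨h2, neg_lt_neg hk⟩
    · exact Or.inl (h1 i hi j hj hk h)
  have hvq : ∀ q ∈ T, x < R.tm q → Rel S R.key v (R.h q) := by
    intro q hq hqx i hi j hj hk h
    have h0 := vle i j hk h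
    rcases hv1 q hq hqx with h1 | h1
    · rw [h1]; exact h0
    · exact h1 i hi j hj hk h0.le
  obtain ⟨cls, hc0, hc1, hc2⟩ := exists_tie S R.key u v a b huvR hab
    ((ult a b).mpr (Or.inl hu0)) ((vlt b a).mpr (Or.inl hv0))
  set w : L → ℤ ×ₗ (ℝ ×ₗ ℝ) := fun i => toLex (cls i, if cls i = 0 then u a else u i) with hw
  have wlt : ∀ i j, (cls i < cls j ∨ (cls i = cls j ∧ cls i ≠ 0 ∧ u i < u j)) → w i < w j := by
    intro i j h
    simp only [hw, Prod.Lex.toLex_lt_toLex]
    rcases h with h | ⟨h1, h2, h3⟩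
    · exact Or.inl h
    · right
      refine ⟨h1, ?_⟩
      rw [if_neg h2, if_neg (h1 ▸ h2)]
      exact h3
  have weq : ∀ i j, w i = w j → cls i = cls j ∧ (cls i ≠ 0 → u i = u j) := by
    intro i j h
    simp only [hw, toLex_inj, Prod.mk.injEq] at h
    refine ⟨h.1, fun h0 => ?_⟩
    have h2 := h.2
    rw [if_neg h0, if_neg (h.1 ▸ h0)] at h2
    exact h2
  have wz : ∀ i, w i = toLex (0, u a) ↔ cls i = 0 := by
    intro i
    simp only [hw, toLex_inj, Prod.mk.injEq]
    constructor
    · exact fun h => h.1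
    · intro h
      exact ⟨h, by rw [if_pos h]⟩
  refine R.insertSnapshot p hp x w (toLex (0, u a)) hxne ?_ ?_ ?_ ?_
  · intro q hq hqx i hi j hj hk h
    have h1 := hqu q hq hqx i hi j hj hk h
    rcases hc1 i hi j hj hk h1 with h2 | ⟨h2, h3⟩
    · exact wlt j i (Or.inl h2)
    · exact wlt j i (Or.inr ⟨h2, h2 ▸ h3, h1⟩)
  · intro q hq hqx i hi j hj hk h
    by_contra hc
    have h1 : v i < v j := by
      by_contra h1
      exact hc (hvq q hq hqx i hi j hj hk (not_lt.mp h1))
    have h2 : u i < u j := by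
      by_contra h2
      exact absurd (huvR i hi j hj hk (not_lt.mp h2)) (lt_asymm h1)
    rcases hc2 i hi j hj hk h1 with h3 | ⟨h3, h4⟩
    · exact absurd (wlt i j (Or.inl h3)) (not_lt.mpr h)
    · exact absurd (wlt i j (Or.inr ⟨h3, h4, h2⟩)) (not_lt.mpr h)
  · intro i hi
    rw [wz, hc0 i hi, hinc i hi]
  · intro i hi j hj hij h
    rw [wz]
    by_contra h0
    have h1 := (weq i j h).2 h0
    simp only [hu, toLex_inj, Prod.mk.injEq, neg_inj] at h1
    exact hij (R.key_inj i hi j hj h1.2)

/-- Incidence structures built by adding one element at a time, each incident with at most two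
of the earlier ones. -/
inductive Constructible (inc : P → L → Prop) : Finset P → Finset L → Prop
  | empty : Constructible inc ∅ ∅
  | line (T : Finset P) (S : Finset L) (x : L) : Constructible inc T S → x ∉ S →
      (∀ p ∈ T, ∀ q ∈ T, ∀ r ∈ T, inc p x → inc q x → inc r x → p = q ∨ p = r ∨ q = r) →
      Constructible inc T (insert x S)
  | point (T : Finset P) (S : Finset L) (p : P) : Constructible inc T S → p ∉ T →
      (∀ i ∈ S, ∀ j ∈ S, ∀ k ∈ S, inc p i → inc p j → inc p k → i = j ∨ i = k ∨ j = k) →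
      Constructible inc (insert p T) S

/-- A constructible incidence structure without two points on two common lines has a model. -/
theorem Constructible.model {inc : P → L → Prop} {T : Finset P} {S : Finset L}
    (hc : Constructible inc T S) :
    (∀ p ∈ T, ∀ q ∈ T, ∀ i ∈ S, ∀ j ∈ S, p ≠ q → inc p i → inc q i → inc p j → inc q j → i = j) →
    Nonempty (PR inc T S) := by
  induction hc with
  | empty =>
    intro _
    exact ⟨{ key := fun _ => 0, tm := fun _ => 0, h := fun _ _ => 0, key_inj := by simp,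
             tm_inj := by simp, rel := by simp, exact := by simp, simple := by simp }⟩
  | line T S x _ hx hcard ih =>
    intro lin
    obtain ⟨R⟩ := ih (fun p hp q hq i hi j hj => lin p hp q hq i (mem_insert_of_mem hi) j
      (mem_insert_of_mem hj))
    refine R.addLine x hx ?_ hcard
    intro p hp q hq hpq hpx hqx i hi hpi
    have := lin p hp q hq i (mem_insert_of_mem hi) x (mem_insert_self _ _) hpq hpi.1 hpi.2 hpx hqx
    exact hx (this ▸ hi)
  | point T S p _ hp hcard ih =>
    intro lin
    obtain ⟨R⟩ := ih (fun p hp q hq i hi j hj => lin p (mem_insert_of_mem hp) q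
      (mem_insert_of_mem hq) i hi j hj)
    by_cases htwo : ∃ a ∈ S, ∃ b ∈ S, a ≠ b ∧ inc p a ∧ inc p b
    · obtain ⟨a, ha, b, hb, hab, hpa, hpb⟩ := htwo
      have hno : ∀ q ∈ T, ¬ (inc q a ∧ inc q b) := by
        intro q hq h
        exact hab (lin p (mem_insert_self _ _) q (mem_insert_of_mem hq) a ha b hb
          (fun h' => hp (h' ▸ hq)) hpa h.1 hpb h.2)
      have hinc : ∀ i ∈ S, inc p i ↔ i = a ∨ i = b := by
        intro i hi
        constructor
        · intro h
          rcases hcard a ha b hb i hi hpa hpb h with h1 | h1 | h1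
          · exact absurd h1 hab
          · exact Or.inl h1.symm
          · exact Or.inr h1.symm
        · rintro (rfl | rfl)
          · exact hpa
          · exact hpb
      rcases lt_trichotomy (R.key a) (R.key b) with h | h | h
      · exact R.addPoint_two p hp a b ha hb h hinc hno
      · exact absurd (R.key_inj a ha b hb h) hab
      · exact R.addPoint_two p hp b a hb ha h (fun i hi => by rw [hinc i hi, or_comm])
          (fun q hq h => hno q hq h.symm)
    · refine R.addPoint_one p hp ?_
      intro i hi j hj hpi hpj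
      by_contra hij
      exact htwo ⟨i, hi, j, hj, hij, hpi, hpj⟩

/-- A sub-structure in which every element has at least three neighbours. -/
def Core (inc : P → L → Prop) (X : Finset P) (Y : Finset L) : Prop :=
  (∀ p ∈ X, ∃ i ∈ Y, ∃ j ∈ Y, ∃ k ∈ Y, i ≠ j ∧ i ≠ k ∧ j ≠ k ∧ inc p i ∧ inc p j ∧ inc p k) ∧
  (∀ x ∈ Y, ∃ p ∈ X, ∃ q ∈ X, ∃ r ∈ X, p ≠ q ∧ p ≠ r ∧ q ≠ r ∧ inc p x ∧ inc q x ∧ inc r x)

theorem constructible_of_no_core (inc : P → L → Prop) : ∀ (n : ℕ) (T : Finset P) (S : Finset L),
    T.card + S.card = n →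
    (∀ X ⊆ T, ∀ Y ⊆ S, Core inc X Y → X = ∅ ∧ Y = ∅) → Constructible inc T S := by
  intro n
  induction n with
  | zero =>
    intro T S hn _
    have hT : T = ∅ := Finset.card_eq_zero.mp (by omega)
    have hS : S = ∅ := Finset.card_eq_zero.mp (by omega)
    subst hT
    subst hS
    exact Constructible.empty
  | succ n ih =>
    intro T S hn hcore
    by_cases h : Core inc T S
    · obtain ⟨rfl, rfl⟩ := hcore T (Finset.Subset.refl _) S (Finset.Subset.refl _) h
      simp at hn
    · unfold Core at h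
      rw [not_and_or] at h
      rcases h with h | h
      · push Not at h
        obtain ⟨p, hp, h⟩ := h
        have h1 : insert p (T.erase p) = T := Finset.insert_erase hp
        rw [← h1]
        refine Constructible.point _ _ p (ih _ _ ?_ ?_) (Finset.notMem_erase _ _) ?_
        · rw [Finset.card_erase_of_mem hp]
          have := Finset.card_pos.mpr ⟨p, hp⟩
          omega
        · exact fun X hX Y hY => hcore X (hX.trans (Finset.erase_subset _ _)) Y hY
        · intro i hi j hj k hk hpi hpj hpk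
          by_contra hc
          push Not at hc
          exact h i hi j hj k hk hc.1 hc.2.1 hc.2.2 hpi hpj hpk
      · push Not at h
        obtain ⟨x, hx, h⟩ := h
        have h1 : insert x (S.erase x) = S := Finset.insert_erase hx
        rw [← h1]
        refine Constructible.line _ _ x (ih _ _ ?_ ?_) (Finset.notMem_erase _ _) ?_
        · rw [Finset.card_erase_of_mem hx]
          have := Finset.card_pos.mpr ⟨x, hx⟩
          omega
        · exact fun X hX Y hY => hcore X hX Y (hY.trans (Finset.erase_subset _ _))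
        · intro p hp q hq r hr hpx hqx hrx
          by_contra hc
          push Not at hc
          exact h p hp q hq r hr hc.1 hc.2.1 hc.2.2 hpx hqx hrx

end Pool.Agent.KS6_69.PL
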