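import Pool.Agent.KS6_69.PL.Closed

/-!
Every connected 3-configuration with at least nine points and nine lines is realizable in the
discrete model.
-/

namespace Pool.Agent.KS6_69.PL

open Finset

variable {P L : Type} [DecidableEq P] [DecidableEq L] [Fintype P] [Fintype L]

theorem a2_core {inc : P → L → Prop} (hcfg : IsCfg inc)
    (h2 : ¬ ∃ p q s ℓ b d, SiteR2 inc p q s ℓ b d) {p q s : P} {ℓ b d : L}
    (H : Hex inc p q s ℓ b d) {w2 w6 : L} {w3 w5 : P}
    (a1 : inc p w2) (a2 : w2 ≠ ℓ) (a3 : w2 ≠ b)
    (b1 : inc w3 b) (b2 : w3 ≠ p) (b3 : w3 ≠ s)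
    (c1 : inc w5 d) (c2 : w5 ≠ s) (c3 : w5 ≠ q)
    (d1 : inc q w6) (d2 : w6 ≠ d) (d3 : w6 ≠ ℓ) :
    (∃ t, inc t w2 ∧ inc t w6) ∨ (∃ t, inc w3 t ∧ inc w5 t) ∨ inc w3 w6 ∨ inc w5 w2 := by
  -- lines through `p`
  have lp : ∀ x, inc p x → x = ℓ ∨ x = b ∨ x = w2 := by
    intro x hx
    obtain ⟨i, j, k, -, -, -, hiff⟩ := hcfg.pt p
    have := pigeon3 ((hiff _).1 H.pl) ((hiff _).1 H.pb) ((hiff _).1 a1) ((hiff _).1 hx)
      H.bl.symm a2.symm a3.symm
    exact this
  have lq : ∀ x, inc q x → x = ℓ ∨ x = d ∨ x = w6 := by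
    intro x hx
    obtain ⟨i, j, k, -, -, -, hiff⟩ := hcfg.pt q
    exact pigeon3 ((hiff _).1 H.ql) ((hiff _).1 H.qd) ((hiff _).1 d1) ((hiff _).1 hx)
      H.dl.symm d3.symm d2.symm
  have pb : ∀ x, inc x b → x = p ∨ x = s ∨ x = w3 := by
    intro x hx
    obtain ⟨i, j, k, -, -, -, hiff⟩ := hcfg.ln b
    exact pigeon3 ((hiff _).1 H.pb) ((hiff _).1 H.sb) ((hiff _).1 b1) ((hiff _).1 hx)
      H.sp.symm b2.symm b3.symm
  have pd : ∀ x, inc x d → x = q ∨ x = s ∨ x = w5 := by
    intro x hx
    obtain ⟨i, j, k, -, -, -, hiff⟩ := hcfg.ln d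
    exact pigeon3 ((hiff _).1 H.qd) ((hiff _).1 H.sd) ((hiff _).1 c1) ((hiff _).1 hx)
      H.sq.symm c3.symm c2.symm
  by_contra hcon
  push Not at hcon
  obtain ⟨n1, n2, n3, n4⟩ := hcon
  apply h2
  refine ⟨p, q, s, ℓ, b, d, { toHex := H, one := ?_, two := ?_ }⟩
  · intro b' d' s' hb' hd' hsb hsd
    by_contra hne
    push Not at hne
    obtain ⟨e1, e2, e3⟩ := hne
    rcases lp b' hb' with h | h | h
    · exact e1 h
    · subst h
      rcases lq d' hd' with h' | h' | h'
      · exact e2 h'
      · exact e3 rfl h'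
      · subst h'
        rcases pb s' hsb with h3 | h3 | h3
        · subst h3
          exact d3 (hcfg.lin s' q d' ℓ H.pq hsd d1 H.pl H.ql)
        · subst h3
          exact d2 (hcfg.lin s' q d' d H.sq hsd d1 H.sd H.qd)
        · subst h3
          exact n3 hsd
    · subst h
      rcases lq d' hd' with h' | h' | h'
      · exact e2 h'
      · subst h'
        rcases pd s' hsd with h3 | h3 | h3
        · subst h3
          exact a2 (hcfg.lin p s' b' ℓ H.pq a1 hsb H.pl H.ql)
        · subst h3
          exact a3 (hcfg.lin p s' b' b H.sp.symm a1 hsb H.pb H.sb)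
        · subst h3
          exact n4 hsb
      · subst h'
        exact n1 s' hsb hsd
  · intro p' q' ℓ' hp' hq' hpl hql
    by_contra hne
    push Not at hne
    obtain ⟨e1, e2, e3⟩ := hne
    rcases pb p' hp' with h | h | h
    · subst h
      rcases pd q' hq' with h' | h' | h'
      · exact e3 rfl h'
      · exact e2 h'
      · subst h'
        rcases lp ℓ' hpl with h3 | h3 | h3
        · subst h3
          exact H.dl (hcfg.lin q' q d ℓ' c3 c1 H.qd hql H.ql)
        · subst h3
          exact H.bd (hcfg.lin q' s ℓ' d c2 hql H.sb c1 H.sd)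
        · subst h3
          exact n4 hql
    · exact e1 h
    · subst h
      rcases pd q' hq' with h' | h' | h'
      · subst h'
        rcases lq ℓ' hql with h3 | h3 | h3
        · subst h3
          exact H.bl (hcfg.lin p' p b ℓ' b2 b1 H.pb hpl H.pl)
        · subst h3
          exact H.bd (hcfg.lin p' s b ℓ' b3 b1 H.sb hpl H.sd)
        · subst h3
          exact n3 hpl
      · exact e2 h'
      · subst h'
        exact n2 ℓ' hpl hql

theorem exists_ctx {inc : P → L → Prop} (hcfg : IsCfg inc)
    (h1 : ¬ ∃ p q r ℓ, SiteR1 inc p q r ℓ) (h2 : ¬ ∃ p q s ℓ b d, SiteR2 inc p q s ℓ b d) :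
    ∃ C : Ctx (P ⊕ L), C.adj = adjPL inc ∧ C.side = sidePL := by
  refine ⟨{ adj := adjPL inc, side := sidePL, symm := ?_, bip := ?_, three := ?_, girth := ?_,
            A1 := ?_, A2 := ?_ }, rfl, rfl⟩
  · rintro (p | l) (q | l') h <;> exact h
  · rintro (p | l) (q | l') h <;> simp [sidePL, adjPL] at h ⊢
  · rintro (p | l)
    · obtain ⟨i, j, k, hij, hik, hjk, hiff⟩ := hcfg.pt p
      refine ⟨.inr i, .inr j, .inr k, fun e => hij (Sum.inr_injective e),
        fun e => hik (Sum.inr_injective e), fun e => hjk (Sum.inr_injective e), ?_⟩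
      rintro (q | x)
      · simp [adjPL]
      · simp only [adjPL, Sum.inr.injEq]
        exact hiff x
    · obtain ⟨i, j, k, hij, hik, hjk, hiff⟩ := hcfg.ln l
      refine ⟨.inl i, .inl j, .inl k, fun e => hij (Sum.inl_injective e),
        fun e => hik (Sum.inl_injective e), fun e => hjk (Sum.inl_injective e), ?_⟩
      rintro (q | x)
      · simp only [adjPL, Sum.inl.injEq]
        exact hiff q
      · simp [adjPL]
  · rintro (u | u) (v | v) (x | x) (y | y) huv hxu hxv hyu hyv <;>
      first
        | exact absurd hxu id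
        | exact absurd hxv id
        | exact absurd hyu id
        | exact absurd hyv id
        | skip
    · have : x = y := hcfg.lin u v x y (fun e => huv (by rw [e])) hxu hxv hyu hyv
      rw [this]
    · by_contra hne
      have := hcfg.lin x y u v (fun e => hne (by rw [e])) hxu hyu hxv hyv
      exact huv (by rw [this])
  · rintro (v | ℓ) x y hv hxy hvx hvy
    · cases hv
    · rcases x with p | x
      · rcases y with q | y
        · obtain ⟨r, -⟩ : ∃ r : P, True := ⟨p, trivial⟩
          have hpq : p ≠ q := fun e => hxy (by rw [e])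
          obtain ⟨r, hrp, hrq, hrl⟩ : ∃ r, p ≠ r ∧ q ≠ r ∧ inc r ℓ := by
            obtain ⟨a, b, c, hab, hac, hbc, hiff⟩ := hcfg.ln ℓ
            by_contra hcon
            push Not at hcon
            have ha := hcon a
            have hb := hcon b
            have hc := hcon c
            have ia := (hiff a).2 (Or.inl rfl)
            have ib := (hiff b).2 (Or.inr (Or.inl rfl))
            have ic := (hiff c).2 (Or.inr (Or.inr rfl))
            by_cases e1 : p = a <;> by_cases e2 : p = b <;> by_cases e3 : p = c <;>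
              by_cases f1 : q = a <;> by_cases f2 : q = b <;> by_cases f3 : q = c <;>
              simp_all
          have hno : ¬ SiteR1 inc p q r ℓ := fun h => h1 ⟨p, q, r, ℓ, h⟩
          have hex : ∃ b d s, inc p b ∧ inc q d ∧ inc s b ∧ inc s d ∧ b ≠ ℓ ∧ d ≠ ℓ := by
            by_contra hcon
            push Not at hcon
            exact hno ⟨hpq, hrp, hrq, hvx, hvy, hrl, fun b d s i1 i2 i3 i4 => by
              by_cases e : b = ℓ
              · exact Or.inl e
              · exact Or.inr (hcon b d s i1 i2 i3 i4 e)⟩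
          obtain ⟨b, d, s, i1, i2, i3, i4, i5, i6⟩ := hex
          exact ⟨.inr b, .inr d, .inl s, fun e => i5 (Sum.inr_injective e),
            fun e => i6 (Sum.inr_injective e), i1, i2, i3, i4⟩
        · exact absurd hvy id
      · exact absurd hvx id
  · intro z1 z2 z3 z4 z5 z6 w2 w3 w5 w6 e12 e23 e34 e45 e56 e61 n13 n15 n35 n24 n26 n46
      f2 f21 f23 f3 f32 f34 f5 f54 f56 f6 f65 f61
    rcases z1 with s | ℓ
    · -- the vertex `z1` is a point
      rcases z2 with _ | d
      · exact absurd e12 id
      rcases z3 with q | _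
      swap
      · exact absurd e23 id
      rcases z4 with _ | ℓ
      · exact absurd e34 id
      rcases z5 with p | _
      swap
      · exact absurd e45 id
      rcases z6 with _ | b
      · exact absurd e56 id
      rcases w2 with w5' | _
      swap
      · exact absurd f2 id
      rcases w3 with _ | w6'
      · exact absurd f3 id
      rcases w5 with _ | w2'
      · exact absurd f5 id
      rcases w6 with w3' | _
      swap
      · exact absurd f6 id
      have key := a2_core hcfg h2 (p := p) (q := q) (s := s) (ℓ := ℓ) (b := b) (d := d)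
        { pq := fun e => n35 (by rw [e]), sp := fun e => n15 (by rw [e]),
          sq := fun e => n13 (by rw [e]), bl := fun e => n46 (by rw [e]),
          dl := fun e => n24 (by rw [e]), bd := fun e => n26 (by rw [e]),
          pl := e45, ql := e34, pb := e56, qd := e23, sb := e61, sd := e12 }
        (w2 := w2') (w6 := w6') (w3 := w3') (w5 := w5')
        f5 (fun e => f54 (by rw [e])) (fun e => f56 (by rw [e]))
        f6 (fun e => f65 (by rw [e])) (fun e => f61 (by rw [e]))
        f2 (fun e => f21 (by rw [e])) (fun e => f23 (by rw [e]))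
        f3 (fun e => f32 (by rw [e])) (fun e => f34 (by rw [e]))
      rcases key with ⟨t, t1, t2⟩ | ⟨t, t1, t2⟩ | t1 | t1
      · exact Or.inr (Or.inl ⟨.inl t, t2, t1⟩)
      · exact Or.inl ⟨.inr t, t2, t1⟩
      · exact Or.inr (Or.inr (Or.inl t1))
      · exact Or.inr (Or.inr (Or.inr t1))
    · rcases z2 with p | _
      swap
      · exact absurd e12 id
      rcases z3 with _ | b
      · exact absurd e23 id
      rcases z4 with s | _
      swap
      · exact absurd e34 id
      rcases z5 with _ | d
      · exact absurd e45 id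
      rcases z6 with q | _
      swap
      · exact absurd e56 id
      rcases w2 with _ | w2'
      · exact absurd f2 id
      rcases w3 with w3' | _
      swap
      · exact absurd f3 id
      rcases w5 with w5' | _
      swap
      · exact absurd f5 id
      rcases w6 with _ | w6'
      · exact absurd f6 id
      have key := a2_core hcfg h2 (p := p) (q := q) (s := s) (ℓ := ℓ) (b := b) (d := d)
        { pq := fun e => n26 (by rw [e]), sp := fun e => n24 (by rw [e]),
          sq := fun e => n46 (by rw [e]), bl := fun e => n13 (by rw [e]),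
          dl := fun e => n15 (by rw [e]), bd := fun e => n35 (by rw [e]),
          pl := e12, ql := e61, pb := e23, qd := e56, sb := e34, sd := e45 }
        (w2 := w2') (w6 := w6') (w3 := w3') (w5 := w5')
        f2 (fun e => f21 (by rw [e])) (fun e => f23 (by rw [e]))
        f3 (fun e => f32 (by rw [e])) (fun e => f34 (by rw [e]))
        f5 (fun e => f54 (by rw [e])) (fun e => f56 (by rw [e]))
        f6 (fun e => f65 (by rw [e])) (fun e => f61 (by rw [e]))
      rcases key with ⟨t, t1, t2⟩ | ⟨t, t1, t2⟩ | t1 | t1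
      · exact Or.inl ⟨.inl t, t1, t2⟩
      · exact Or.inr (Or.inl ⟨.inr t, t1, t2⟩)
      · exact Or.inr (Or.inr (Or.inl t1))
      · exact Or.inr (Or.inr (Or.inr t1))

/-- The combinatorial main theorem. -/
theorem realizable_all {inc : P → L → Prop} (hcfg : IsCfg inc) (hc : Conn inc)
    (hcard : 18 ≤ Fintype.card (P ⊕ L)) : Realizable inc := by
  by_contra hno
  have h1 : ¬ ∃ p q r ℓ, SiteR1 inc p q r ℓ := fun h => hno (realizable_of_site hcfg hc (Or.inl h))
  have h2 : ¬ ∃ p q s ℓ b d, SiteR2 inc p q s ℓ b d := fun h =>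
    hno (realizable_of_site hcfg hc (Or.inr h))
  obtain ⟨C, hC, hS⟩ := exists_ctx hcfg h1 h2
  have : Nonempty (P ⊕ L) := Fintype.card_pos_iff.1 (by omega)
  exact search C (closed_un hc hC hS hcard hno)

end Pool.Agent.KS6_69.PL
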