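import Pool.Agent.KS6_69.PL.Main

/-!
Merging models of two parts of an incidence structure, and extending a model of the core.
-/

namespace Pool.Agent.KS6_69.PL

open Finset

variable {P L : Type*}

/-- A discrete model of the incidences between the points of `X` and the lines of `Y`. -/
def RealOn (inc : P → L → Prop) (X : Finset P) (Y : Finset L) : Prop :=
  ∃ (key : L → ℝ) (tm : P → ℝ) (h : P → L → ℝ),
    (∀ i ∈ Y, ∀ j ∈ Y, key i = key j → i = j) ∧
    (∀ p ∈ X, ∀ q ∈ X, tm p = tm q → p = q) ∧
    (∀ p ∈ X, ∀ q ∈ X, tm p < tm q → ∀ i ∈ Y, ∀ j ∈ Y, key i < key j → h p j ≤ h p i →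
      h q j < h q i) ∧
    ∀ p ∈ X, ∀ i ∈ Y, h p i = 0 ↔ inc p i

theorem realOn_empty (inc : P → L → Prop) : RealOn inc ∅ ∅ :=
  ⟨fun _ => 0, fun _ => 0, fun _ _ => 0, by simp, by simp, by simp, by simp⟩

/-- a bound for finitely many values -/
theorem exists_bound {α : Type*} (S : Finset α) (f : α → ℝ) : ∃ A : ℝ, 0 < A ∧ ∀ i ∈ S, |f i| < A := by
  classical
  refine ⟨(∑ i ∈ S, |f i|) + 1, ?_, ?_⟩
  · have : 0 ≤ ∑ i ∈ S, |f i| := Finset.sum_nonneg fun i _ => abs_nonneg _
    linarith
  · intro i hi
    have := Finset.single_le_sum (f := fun i => |f i|) (fun i _ => abs_nonneg _) hi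
    linarith

/-- Two parts without incidences between them: the models can be put side by side. -/
theorem RealOn.union [DecidableEq P] [DecidableEq L] {inc : P → L → Prop} {X X' : Finset P}
    {Y Y' : Finset L} (H : RealOn inc X Y) (H' : RealOn inc X' Y') (hX : Disjoint X X')
    (hY : Disjoint Y Y') (h1 : ∀ p ∈ X, ∀ i ∈ Y', ¬ inc p i) (h2 : ∀ p ∈ X', ∀ i ∈ Y, ¬ inc p i) :
    RealOn inc (X ∪ X') (Y ∪ Y') := by
  obtain ⟨key, tm, h, hk, ht, hr, hz⟩ := H
  obtain ⟨key', tm', h', hk', ht', hr', hz'⟩ := H'
  obtain ⟨A, hA0, hA⟩ := exists_bound Y key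
  obtain ⟨A', hA0', hA'⟩ := exists_bound Y' key'
  obtain ⟨B, hB0, hB⟩ := exists_bound X tm
  obtain ⟨B', hB0', hB'⟩ := exists_bound X' tm'
  obtain ⟨C, hC0, hC⟩ := exists_bound (X ×ˢ Y) (fun e => h e.1 e.2)
  obtain ⟨C', hC0', hC'⟩ := exists_bound (X' ×ˢ Y') (fun e => h' e.1 e.2)
  have hYY : ∀ i ∈ Y', i ∉ Y := fun i hi hi' => Finset.disjoint_left.1 hY hi' hi
  have hXX : ∀ i ∈ X', i ∉ X := fun i hi hi' => Finset.disjoint_left.1 hX hi' hi
  refine ⟨fun i => if i ∈ Y then key i else key' i + (A + A'),
    fun p => if p ∈ X then tm p else tm' p + (B + B'),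
    fun p i => if p ∈ X then (if i ∈ Y then h p i else (C + A') + key' i)
      else (if i ∈ Y then -(C' + A) - key i else h' p i), ?_, ?_, ?_, ?_⟩
  · intro i hi j hj hij
    rw [mem_union] at hi hj
    by_cases a : i ∈ Y <;> by_cases b : j ∈ Y <;> simp only [a, b, if_true, if_false] at hij
    · exact hk i a j b hij
    · have := abs_lt.1 (hA i a)
      have := abs_lt.1 (hA' j (hj.resolve_left b))
      linarith
    · have := abs_lt.1 (hA j b)
      have := abs_lt.1 (hA' i (hi.resolve_left a))
      linarith
    · exact hk' i (hi.resolve_left a) j (hj.resolve_left b) (by linarith)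
  · intro i hi j hj hij
    rw [mem_union] at hi hj
    by_cases a : i ∈ X <;> by_cases b : j ∈ X <;> simp only [a, b, if_true, if_false] at hij
    · exact ht i a j b hij
    · have := abs_lt.1 (hB i a)
      have := abs_lt.1 (hB' j (hj.resolve_left b))
      linarith
    · have := abs_lt.1 (hB j b)
      have := abs_lt.1 (hB' i (hi.resolve_left a))
      linarith
    · exact ht' i (hi.resolve_left a) j (hj.resolve_left b) (by linarith)
  · intro p hp q hq hpq i hi j hj hij hle
    rw [mem_union] at hp hq hi hj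
    by_cases a : p ∈ X <;> by_cases b : q ∈ X <;> simp only [a, b, if_true, if_false] at hpq hle ⊢
    · by_cases c : i ∈ Y <;> by_cases d : j ∈ Y <;>
        simp only [c, d, if_true, if_false] at hij hle ⊢
      · exact hr p a q b hpq i c j d hij hle
      · exfalso
        have h3 := abs_lt.1 (hC (p, i) (mem_product.2 ⟨a, c⟩))
        have h4 := abs_lt.1 (hA' j (hj.resolve_left d))
        simp only at h3
        linarith
      · exfalso
        have h3 := abs_lt.1 (hA j d)
        have h4 := abs_lt.1 (hA' i (hi.resolve_left c))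
        linarith
      · exfalso
        linarith
    · have hq' := hq.resolve_left b
      by_cases c : i ∈ Y <;> by_cases d : j ∈ Y <;>
        simp only [c, d, if_true, if_false] at hij hle ⊢
      · linarith
      · exfalso
        have h3 := abs_lt.1 (hC (p, i) (mem_product.2 ⟨a, c⟩))
        have h4 := abs_lt.1 (hA' j (hj.resolve_left d))
        simp only at h3
        linarith
      · exfalso
        have h3 := abs_lt.1 (hA j d)
        have h4 := abs_lt.1 (hA' i (hi.resolve_left c))
        linarith
      · exfalso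
        linarith
    · exfalso
      have h3 := abs_lt.1 (hB q b)
      have h4 := abs_lt.1 (hB' p (hp.resolve_left a))
      linarith
    · have hp' := hp.resolve_left a
      have hq' := hq.resolve_left b
      by_cases c : i ∈ Y <;> by_cases d : j ∈ Y <;>
        simp only [c, d, if_true, if_false] at hij hle ⊢
      · linarith
      · exfalso
        have h3 := abs_lt.1 (hC' (p, j) (mem_product.2 ⟨hp', hj.resolve_left d⟩))
        have h4 := abs_lt.1 (hA i c)
        simp only at h3
        linarith
      · exfalso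
        have h3 := abs_lt.1 (hA j d)
        have h4 := abs_lt.1 (hA' i (hi.resolve_left c))
        linarith
      · exact hr' p hp' q hq' (by linarith) i (hi.resolve_left c) j (hj.resolve_left d)
          (by linarith) hle
  · intro p hp i hi
    rw [mem_union] at hp hi
    by_cases a : p ∈ X <;> by_cases c : i ∈ Y <;> simp only [a, c, if_true, if_false]
    · exact hz p a i c
    · have h4 := abs_lt.1 (hA' i (hi.resolve_left c))
      constructor
      · intro h0
        exfalso
        linarith
      · intro h0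
        exact absurd h0 (h1 p a i (hi.resolve_left c))
    · have h4 := abs_lt.1 (hA i c)
      constructor
      · intro h0
        exfalso
        linarith
      · intro h0
        exact absurd h0 (h2 p (hp.resolve_left a) i c)
    · exact hz' p (hp.resolve_left a) i (hi.resolve_left c)

/-- A model of the structure induced on `X` and `Y` is a model on `X` and `Y`. -/
theorem realOn_of_realizable {inc : P → L → Prop} {X : Finset P} {Y : Finset L}
    (H : Realizable (fun (p : {p // p ∈ X}) (l : {l // l ∈ Y}) => inc p.1 l.1)) :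
    RealOn inc X Y := by
  classical
  obtain ⟨key, tm, h, hk, ht, hr, hz⟩ := H
  refine ⟨fun l => if hl : l ∈ Y then key ⟨l, hl⟩ else 0,
    fun p => if hp : p ∈ X then tm ⟨p, hp⟩ else 0,
    fun p l => if hp : p ∈ X then (if hl : l ∈ Y then h ⟨p, hp⟩ ⟨l, hl⟩ else 0) else 0,
    ?_, ?_, ?_, ?_⟩
  · intro i hi j hj hij
    simp only [hi, hj, dif_pos] at hij
    exact congrArg Subtype.val (hk hij)
  · intro i hi j hj hij
    simp only [hi, hj, dif_pos] at hij
    exact congrArg Subtype.val (ht hij)
  · intro p hp q hq hpq i hi j hj hij hle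
    simp only [hp, hq, hi, hj, dif_pos] at hpq hij hle ⊢
    exact hr _ _ hpq _ _ hij hle
  · intro p hp i hi
    simp only [hp, hi, dif_pos]
    exact hz ⟨p, hp⟩ ⟨i, hi⟩

/-- Ties away from the points can be broken. -/
theorem RealOn.pr {inc : P → L → Prop} {X : Finset P} {Y : Finset L} (H : RealOn inc X Y) :
    Nonempty (PR inc X Y) := by
  classical
  obtain ⟨key, tm, h, hk, ht, hr, hz⟩ := H
  let w : P → L → Lex (ℝ × ℝ) := fun p i =>
    if h p i = 0 then toLex (0, 0) else toLex (h p i, -key i)
  have hw : ∀ p, ∃ w' : L → ℝ, (∀ i ∈ Y, ∀ j ∈ Y, (w' i < w' j ↔ w p i < w p j)) ∧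
      (∀ i ∈ Y, (w' i = 0 ↔ w p i = toLex (0, 0))) := fun p => exists_real Y (w p) _
  choose h' hh1 hh2 using hw
  have w0 : ∀ p i, w p i = toLex (0, 0) ↔ h p i = 0 := by
    intro p i
    by_cases hpi : h p i = 0
    · simp [w, hpi]
    · simp only [w, hpi, if_false, iff_false]
      intro he
      have := congrArg (fun z => (ofLex z).1) he
      exact hpi (by simpa using this)
  have wlt : ∀ p i j, h p i < h p j → w p i < w p j := by
    intro p i j hij
    by_cases a : h p i = 0 <;> by_cases b : h p j = 0 <;>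
      simp only [w, a, b, if_true, if_false, Prod.Lex.toLex_lt_toLex]
    · rw [a, b] at hij
      exact absurd hij (lt_irrefl _)
    · left; rw [a] at hij; exact hij
    · left; rw [b] at hij; exact hij
    · left; exact hij
  have weq : ∀ p i j, key i < key j → h p i = h p j → h p i ≠ 0 → w p j < w p i := by
    intro p i j hk hij h0
    have h0' : h p j ≠ 0 := by rw [← hij]; exact h0
    simp only [w, h0, h0', if_false, Prod.Lex.toLex_lt_toLex]
    right
    exact ⟨hij.symm, by linarith⟩
  have wle : ∀ p i j, w p j ≤ w p i → h p j ≤ h p i := by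
    intro p i j hle
    by_contra hc
    exact absurd (wlt p i j (not_le.1 hc)) (not_lt.2 hle)
  refine ⟨{ key := key, tm := tm, h := h', key_inj := hk, tm_inj := ht, rel := ?_, exact := ?_,
            simple := ?_ }⟩
  · intro p hp q hq hpq i hi j hj hij hle
    rw [hh1 q j hj i hi]
    have h3 : w p j ≤ w p i := by
      by_contra hc
      exact absurd ((hh1 p i hi j hj).2 (not_le.1 hc)) (not_lt.2 hle)
    exact wlt q j i (hr p hp q hq hpq i hi j hj hij (wle p i j h3))
  · intro p hp i hi
    rw [hh2 p i hi, w0, hz p hp i hi]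
  · intro p hp i hi j hj hij he
    rw [hh2 p i hi, w0]
    by_contra h0
    have he1 : ¬ w p i < w p j := fun h3 => absurd ((hh1 p i hi j hj).2 h3) (by rw [he]; exact lt_irrefl _)
    have he2 : ¬ w p j < w p i := fun h3 => absurd ((hh1 p j hj i hi).2 h3) (by rw [he]; exact lt_irrefl _)
    have he3 : w p i = w p j := le_antisymm (not_lt.1 he2) (not_lt.1 he1)
    have he4 : h p i = h p j := le_antisymm (wle p j i he3.le) (wle p i j he3.ge)
    rcases lt_trichotomy (key i) (key j) with h5 | h5 | h5
    · exact he2 (weq p i j h5 he4 h0)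
    · exact hij (hk i hi j hj h5)
    · exact he1 (weq p j i h5 he4.symm (by rw [← he4]; exact h0))

theorem PR.realizable [Fintype P] [Fintype L] {inc : P → L → Prop} (R : PR inc univ univ) :
    Realizable inc :=
  ⟨R.key, R.tm, R.h, fun i j h => R.key_inj i (mem_univ _) j (mem_univ _) h,
    fun i j h => R.tm_inj i (mem_univ _) j (mem_univ _) h,
    fun p q hpq i j hij hle => R.rel p (mem_univ _) q (mem_univ _) hpq i (mem_univ _) j
      (mem_univ _) hij hle,
    fun p i => R.exact p (mem_univ _) i (mem_univ _)⟩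

section ext

variable [DecidableEq P] [DecidableEq L]

theorem step_line {inc : P → L → Prop} {T : Finset P} {S : Finset L} (R : PR inc T S) (x : L)
    (hx : x ∉ S)
    (hcard : ∀ p ∈ T, ∀ q ∈ T, ∀ r ∈ T, inc p x → inc q x → inc r x → p = q ∨ p = r ∨ q = r)
    (lin : ∀ p q i j, p ≠ q → inc p i → inc q i → inc p j → inc q j → i = j) :
    Nonempty (PR inc T (insert x S)) := by
  refine R.addLine x hx ?_ hcard
  intro p hp q hq hpq hpx hqx i hi hpi
  have := lin p q i x hpq hpi.1 hpi.2 hpx hqx
  exact hx (this ▸ hi)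

theorem step_point {inc : P → L → Prop} {T : Finset P} {S : Finset L} (R : PR inc T S) (p : P)
    (hp : p ∉ T)
    (hcard : ∀ i ∈ S, ∀ j ∈ S, ∀ k ∈ S, inc p i → inc p j → inc p k → i = j ∨ i = k ∨ j = k)
    (lin : ∀ p q i j, p ≠ q → inc p i → inc q i → inc p j → inc q j → i = j) :
    Nonempty (PR inc (insert p T) S) := by
  by_cases htwo : ∃ a ∈ S, ∃ b ∈ S, a ≠ b ∧ inc p a ∧ inc p b
  · obtain ⟨a, ha, b, hb, hab, hpa, hpb⟩ := htwo
    have hno : ∀ q ∈ T, ¬ (inc q a ∧ inc q b) := by
      intro q hq h
      exact hab (lin p q a b (fun h' => hp (h' ▸ hq)) hpa h.1 hpb h.2)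
    have hinc : ∀ i ∈ S, inc p i ↔ i = a ∨ i = b := by
      intro i hi
      constructor
      · intro h
        rcases hcard a ha b hb i hi hpa hpb h with h1 | h1 | h1
        · exact absurd h1 hab
        · exact Or.inl h1.symm
        · exact Or.inr h1.symm
      · rintro (rfl | rfl)
        · exact hpa
        · exact hpb
    rcases lt_trichotomy (R.key a) (R.key b) with h | h | h
    · exact R.addPoint_two p hp a b ha hb h hinc hno
    · exact absurd (R.key_inj a ha b hb h) hab
    · exact R.addPoint_two p hp b a hb ha h (fun i hi => by rw [hinc i hi, or_comm])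
        (fun q hq h => hno q hq h.symm)
  · refine R.addPoint_one p hp ?_
    intro i hi j hj hpi hpj
    by_contra hij
    exact htwo ⟨i, hi, j, hj, hij, hpi, hpj⟩

/-- A model of a core which contains all cores extends to everything. -/
theorem extend_core {inc : P → L → Prop}
    (lin : ∀ p q i j, p ≠ q → inc p i → inc q i → inc p j → inc q j → i = j)
    {X₀ : Finset P} {Y₀ : Finset L} (hcore : Core inc X₀ Y₀)
    (hmax : ∀ X Y, Core inc X Y → X ⊆ X₀ ∧ Y ⊆ Y₀) (R₀ : Nonempty (PR inc X₀ Y₀)) :
    ∀ (n : ℕ) (T : Finset P) (S : Finset L), X₀ ⊆ T → Y₀ ⊆ S →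
      T.card + S.card = X₀.card + Y₀.card + n → Nonempty (PR inc T S) := by
  intro n
  induction n with
  | zero =>
    intro T S hT hS hn
    have h1 := card_le_card hT
    have h2 := card_le_card hS
    have h3 : X₀ = T := eq_of_subset_of_card_le hT (by omega)
    have h4 : Y₀ = S := eq_of_subset_of_card_le hS (by omega)
    subst h3
    subst h4
    exact R₀
  | succ n ih =>
    intro T S hT hS hn
    by_cases hp : ∃ p ∈ T, p ∉ X₀ ∧ ∀ i ∈ S, ∀ j ∈ S, ∀ k ∈ S, inc p i → inc p j → inc p k →
        i = j ∨ i = k ∨ j = k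
    · obtain ⟨p, hpT, hpX, hcard⟩ := hp
      have h1 : insert p (T.erase p) = T := Finset.insert_erase hpT
      obtain ⟨R⟩ := ih (T.erase p) S
        (fun q hq => mem_erase.2 ⟨fun h => hpX (h ▸ hq), hT hq⟩) hS (by
          rw [card_erase_of_mem hpT]
          have := card_pos.2 ⟨p, hpT⟩
          omega)
      have := step_point R p (notMem_erase _ _) hcard lin
      rwa [h1] at this
    · by_cases hx : ∃ x ∈ S, x ∉ Y₀ ∧ ∀ p ∈ T, ∀ q ∈ T, ∀ r ∈ T, inc p x → inc q x → inc r x →
          p = q ∨ p = r ∨ q = r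
      · obtain ⟨x, hxS, hxY, hcard⟩ := hx
        have h1 : insert x (S.erase x) = S := Finset.insert_erase hxS
        obtain ⟨R⟩ := ih T (S.erase x) hT
          (fun q hq => mem_erase.2 ⟨fun h => hxY (h ▸ hq), hS hq⟩) (by
            rw [card_erase_of_mem hxS]
            have := card_pos.2 ⟨x, hxS⟩
            omega)
        have := step_line R x (notMem_erase _ _) hcard lin
        rwa [h1] at this
      · exfalso
        push Not at hp hx
        have hc : Core inc T S := by
          refine ⟨fun p hpT => ?_, fun x hxS => ?_⟩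
          · by_cases h : p ∈ X₀
            · obtain ⟨i, hi, j, hj, k, hk, h6⟩ := hcore.1 p h
              exact ⟨i, hS hi, j, hS hj, k, hS hk, h6⟩
            · obtain ⟨i, hi, j, hj, k, hk, h1, h2, h3, h4, h5, h6⟩ := hp p hpT h
              exact ⟨i, hi, j, hj, k, hk, h4, h5, h6, h1, h2, h3⟩
          · by_cases h : x ∈ Y₀
            · obtain ⟨i, hi, j, hj, k, hk, h6⟩ := hcore.2 x h
              exact ⟨i, hT hi, j, hT hj, k, hT hk, h6⟩
            · obtain ⟨i, hi, j, hj, k, hk, h1, h2, h3, h4, h5, h6⟩ := hx x hxS h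
              exact ⟨i, hi, j, hj, k, hk, h4, h5, h6, h1, h2, h3⟩
        obtain ⟨h1, h2⟩ := hmax T S hc
        have h3 := card_le_card h1
        have h4 := card_le_card h2
        omega

end ext

end Pool.Agent.KS6_69.PL
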