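import Mathlib

/-!
Certificate checker for the finite search: a cubic bipartite graph without 4-cycles in which every
2-path centred at a line lies in a hexagon and every hexagon axis has one of its two centred
2-paths in a second hexagon.  Patterns are finite graphs of maximum degree three; a certificate
shows that no pattern of a data base embeds.
-/

namespace Pool.Agent.KS6_69.PL

universe u

/-- The graphs the search is about. -/
structure Ctx (V : Type u) where
  adj : V → V → Prop
  side : V → Bool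
  symm : ∀ u v, adj u v → adj v u
  bip : ∀ u v, adj u v → side u ≠ side v
  three : ∀ v, ∃ a b c, a ≠ b ∧ a ≠ c ∧ b ≠ c ∧ ∀ w, adj v w ↔ w = a ∨ w = b ∨ w = c
  girth : ∀ u v x y, u ≠ v → adj x u → adj x v → adj y u → adj y v → x = y
  A1 : ∀ v x y, side v = true → x ≠ y → adj v x → adj v y →
      ∃ a b t, a ≠ v ∧ b ≠ v ∧ adj x a ∧ adj y b ∧ adj a t ∧ adj b t
  A2 : ∀ z1 z2 z3 z4 z5 z6 w2 w3 w5 w6,
     adj z1 z2 → adj z2 z3 → adj z3 z4 → adj z4 z5 → adj z5 z6 → adj z6 z1 →
     z1 ≠ z3 → z1 ≠ z5 → z3 ≠ z5 → z2 ≠ z4 → z2 ≠ z6 → z4 ≠ z6 →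
     adj z2 w2 → w2 ≠ z1 → w2 ≠ z3 → adj z3 w3 → w3 ≠ z2 → w3 ≠ z4 →
     adj z5 w5 → w5 ≠ z4 → w5 ≠ z6 → adj z6 w6 → w6 ≠ z5 → w6 ≠ z1 →
     (∃ t, adj w2 t ∧ adj w6 t) ∨ (∃ t, adj w3 t ∧ adj w5 t) ∨ adj w3 w6 ∨ adj w2 w5

variable {V : Type u}

/-- Embedding of a pattern with `m` vertices, sides `s` and neighbour lists `N`. -/
structure Emb (C : Ctx V) (m : Nat) (s : Nat → Bool) (N : Nat → List Nat) (φ : Nat → V) :
    Prop where
  inj : ∀ i, i < m → ∀ j, j < m → φ i = φ j → i = j
  sd : ∀ i, i < m → C.side (φ i) = s i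
  nd : ∀ i, i < m → (N i).Nodup
  lt : ∀ i, i < m → ∀ j ∈ N i, j < m
  ad : ∀ i, i < m → ∀ j ∈ N i, C.adj (φ i) (φ j)

/-- The pattern has no embedding. -/
def Un (C : Ctx V) (m : Nat) (s : Nat → Bool) (N : Nat → List Nat) : Prop :=
  ∀ φ, ¬ Emb C m s N φ

/-! ### Boolean functions, written for evaluation in the kernel -/

def mem3 (a : Nat) : List Nat → Bool
  | [] => false
  | b :: l => cond (Nat.beq a b) true (mem3 a l)

def len3 : List Nat → Bool
  | [_, _, _] => true
  | _ => false

def lenLt3 : List Nat → Bool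
  | [] => true
  | [_] => true
  | [_, _] => true
  | _ => false

def all3 (f : Nat → Bool) : List Nat → Bool
  | [] => true
  | b :: l => cond (f b) (all3 f l) false

def any3 (f : Nat → Bool) : List Nat → Bool
  | [] => false
  | b :: l => cond (f b) true (any3 f l)

def path3 (N : Nat → List Nat) (u v : Nat) : Bool :=
  any3 (fun x => any3 (fun y => cond (Nat.beq y u) false (mem3 v (N y))) (N x)) (N u)

def nonadj (N : Nat → List Nat) (u v : Nat) : Bool :=
  cond (mem3 v (N u)) false (cond (mem3 u (N v)) false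
    (cond (len3 (N u)) true (cond (len3 (N v)) true (path3 N u v))))

def noCommon (N : Nat → List Nat) (a b : Nat) : Bool :=
  cond (cond (len3 (N a)) (all3 (fun t => nonadj N t b) (N a)) false) true
    (cond (len3 (N b)) (all3 (fun t => nonadj N t a) (N b)) false)

/-- Certificates for a child pattern. -/
inductive CC where
  | a1 (x v y : Nat)
  | a2 (z1 z2 z3 z4 z5 z6 w2 w3 w5 w6 : Nat)
  | ref (j p q : Nat)

/-- Violation of `A1`. -/
def chkA1 (m : Nat) (s : Nat → Bool) (N : Nat → List Nat) (x v y : Nat) : Bool :=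
  Nat.blt v m && s v && mem3 x (N v) && mem3 y (N v) && !(Nat.beq x y) && len3 (N x) &&
    len3 (N y) &&
    all3 (fun a => cond (Nat.beq a v) true
      (all3 (fun b => cond (Nat.beq b v) true (noCommon N a b)) (N y))) (N x)

/-- Violation of `A2`. -/
def chkA2 (m : Nat) (N : Nat → List Nat) (z1 z2 z3 z4 z5 z6 w2 w3 w5 w6 : Nat) : Bool :=
  Nat.blt z1 m && mem3 z2 (N z1) && mem3 z3 (N z2) && mem3 z4 (N z3) && mem3 z5 (N z4) &&
    mem3 z6 (N z5) && mem3 z1 (N z6) &&
    !(Nat.beq z1 z3) && !(Nat.beq z1 z5) && !(Nat.beq z3 z5) &&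
    !(Nat.beq z2 z4) && !(Nat.beq z2 z6) && !(Nat.beq z4 z6) &&
    mem3 w2 (N z2) && !(Nat.beq w2 z1) && !(Nat.beq w2 z3) &&
    mem3 w3 (N z3) && !(Nat.beq w3 z2) && !(Nat.beq w3 z4) &&
    mem3 w5 (N z5) && !(Nat.beq w5 z4) && !(Nat.beq w5 z6) &&
    mem3 w6 (N z6) && !(Nat.beq w6 z5) && !(Nat.beq w6 z1) &&
    noCommon N w2 w6 && noCommon N w3 w5 && nonadj N w3 w6 && nonadj N w2 w5

def unpack (r : Nat) : List Nat :=
  cond (Nat.beq (Nat.land r 31) 31) [] (
    cond (Nat.beq (Nat.land (Nat.shiftRight r 5) 31) 31) [Nat.land r 31] (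
      cond (Nat.beq (Nat.land (Nat.shiftRight r 10) 31) 31)
        [Nat.land r 31, Nat.land (Nat.shiftRight r 5) 31]
        [Nat.land r 31, Nat.land (Nat.shiftRight r 5) 31, Nat.land (Nat.shiftRight r 10) 31]))

/-- Neighbour list of vertex `i` in a packed pattern. -/
def nbM (M i : Nat) : List Nat := unpack (Nat.land (Nat.shiftRight M (Nat.mul 15 i)) 32767)

/-- Side of vertex `i` in a packed pattern. -/
def sdM (S i : Nat) : Bool := Nat.beq (Nat.land (Nat.shiftRight S i) 1) 1

/-- Entry `a` of a packed map. -/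
def entry (p a : Nat) : Nat := Nat.land (Nat.shiftRight p (Nat.mul 5 a)) 31

/-- Packed patterns. -/
structure Pat where
  m : Nat
  S : Nat
  M : Nat

def UnP (C : Ctx V) (p : Pat) : Prop := Un C p.m (sdM p.S) (nbM p.M)

def nodup3 : List Nat → Bool
  | [] => true
  | [_] => true
  | [a, b] => !(Nat.beq a b)
  | [a, b, c] => !(Nat.beq a b) && !(Nat.beq a c) && !(Nat.beq b c)
  | _ => false

/-- The packed pattern `(k, S, M)` embeds in `(m', s', N')` by `p` with inverse `q`;
`chkRef` runs over the vertices below `k`. -/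
def chkRef (mj : Nat) (S M : Nat) (m' : Nat) (s' : Nat → Bool) (N' : Nat → List Nat)
    (p q : Nat) : Nat → Bool
  | 0 => true
  | a + 1 => Nat.blt (entry p a) m' && Nat.beq (entry q (entry p a)) a &&
      (cond (sdM S a) (s' (entry p a)) (!(s' (entry p a)))) &&
      nodup3 (nbM M a) &&
      all3 (fun b => Nat.blt b mj && mem3 (entry p b) (N' (entry p a))) (nbM M a) &&
      chkRef mj S M m' s' N' p q a

/-- Check of a child certificate; `i` is the index of the parent, `nt` the number of patterns. -/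
def chkCC (db : Nat → Pat) (nt : Nat) (i : Nat) (m : Nat) (s : Nat → Bool) (N : Nat → List Nat) :
    CC → Bool
  | .a1 x v y => chkA1 m s N x v y
  | .a2 z1 z2 z3 z4 z5 z6 w2 w3 w5 w6 => chkA2 m N z1 z2 z3 z4 z5 z6 w2 w3 w5 w6
  | .ref j p q => Nat.blt i j && Nat.blt j nt && chkRef (db j).m (db j).S (db j).M m s N p q (db j).m

def addE (N : Nat → List Nat) (v u : Nat) : Nat → List Nat := fun i =>
  cond (Nat.beq i v) (u :: N v) (cond (Nat.beq i u) (v :: N u) (N i))

def addF (N : Nat → List Nat) (v m : Nat) : Nat → List Nat := fun i =>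
  cond (Nat.beq i v) (m :: N v) (cond (Nat.beq i m) [v] (N i))

def sdF (s : Nat → Bool) (v m : Nat) : Nat → Bool := fun i =>
  cond (Nat.beq i m) (!(s v)) (s i)

/-- All children of a pattern at the slot `v`; `k` runs over the vertices below. -/
def chkSlots (db : Nat → Pat) (nt : Nat) (i : Nat) (m : Nat) (s : Nat → Bool) (N : Nat → List Nat)
    (v : Nat) : Nat → List CC → Bool
  | 0, cs => match cs with
    | [c] => chkCC db nt i (m + 1) (sdF s v m) (addF N v m) c
    | _ => false
  | u + 1, cs => cond (cond (s u) (s v) (!(s v)) || mem3 u (N v) || nonadj N u v)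
      (chkSlots db nt i m s N v u cs)
      (match cs with
        | [] => false
        | c :: cs' => !(mem3 v (N u)) && chkCC db nt i m s (addE N v u) c &&
            chkSlots db nt i m s N v u cs')

/-- Node certificates. -/
inductive NC where
  | slot (v : Nat) (cs : List CC)
  | closed

def patEq (p q : Pat) : Bool := Nat.beq p.m q.m && Nat.beq p.S q.S && Nat.beq p.M q.M

def anyPat (p : Pat) : List Pat → Bool
  | [] => false
  | q :: l => cond (patEq p q) true (anyPat p l)

def chkNode (db : Nat → Pat) (nt : Nat) (cl : List Pat) (i : Nat) : NC → Bool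
  | .slot v cs => Nat.blt v (db i).m && lenLt3 (nbM (db i).M v) &&
      chkSlots db nt i (db i).m (sdM (db i).S) (nbM (db i).M) v (db i).m cs
  | .closed => anyPat (db i) cl

def chkList (db : Nat → Pat) (nt : Nat) (cl : List Pat) : Nat → List NC → Bool
  | _, [] => true
  | i, c :: l => chkNode db nt cl i c && chkList db nt cl (i + 1) l

/-- Identity map, packed. -/
def idp : Nat := 44151112808285926476691701664718617496759928864

/-- Binary trees of patterns, for quick access. -/
inductive BT where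
  | leaf (p : Pat)
  | node (l r : BT)

def BT.get : BT → Nat → Pat
  | .leaf p, _ => p
  | .node l r, i => cond (Nat.beq (Nat.land i 1) 0) (l.get (Nat.shiftRight i 1))
      (r.get (Nat.shiftRight i 1))

end Pool.Agent.KS6_69.PL
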