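import Pool.Agent.KS6_69.PL.Defs

/-! Curves in the real projective plane. -/

namespace Pool.Agent.KS6_69.PL

open scoped LinearAlgebra.Projectivization

/-- homogeneous form of `x ↦ κ x + w x` (for `b = 0` the second term vanishes) -/
noncomputable def hom (κ : ℝ) (w : ℝ → ℝ) (a b : ℝ) : ℝ := κ * a + b * w (a / b)

/-- the curve `y = κ x + w x` of the affine plane `(x, y) ↦ [x : y : 1]`, together with its
point at infinity `[1 : κ : 0]` -/
def curve (κ : ℝ) (w : ℝ → ℝ) : Set RP2 :=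
  {z | ∃ (v : Fin 3 → ℝ) (hv : v ≠ 0), z = Projectivization.mk ℝ v hv ∧
    v 1 = hom κ w (v 0) (v 2)}

theorem hom_smul (κ : ℝ) (w : ℝ → ℝ) (c a b : ℝ) (hc : c ≠ 0) :
    hom κ w (c * a) (c * b) = c * hom κ w a b := by
  unfold hom
  rw [mul_div_mul_left _ _ hc]
  ring

theorem mk_mem_curve (κ : ℝ) (w : ℝ → ℝ) (v : Fin 3 → ℝ) (hv : v ≠ 0) :
    Projectivization.mk ℝ v hv ∈ curve κ w ↔ v 1 = hom κ w (v 0) (v 2) := by
  constructor
  · rintro ⟨u, hu, h, h'⟩
    obtain ⟨c, hc⟩ := (Projectivization.mk_eq_mk_iff' ℝ v u hv hu).mp h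
    have hc0 : c ≠ 0 := by
      rintro rfl
      exact hv (by rw [← hc, zero_smul])
    rw [← hc]
    simp only [Pi.smul_apply, smul_eq_mul]
    rw [hom_smul _ _ _ _ _ hc0, h']
  · intro h
    exact ⟨v, hv, rfl, h⟩

end Pool.Agent.KS6_69.PL
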